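import Mathlib
import Pool.Agent.R38.QP.Conic
import Pool.Agent.R38.NC.Tri
import Pool.Agent.R38.NC.Bas2
import Pool.Agent.R38.NC.Par
import Pool.Agent.R38.NC.Dvd

/-!
# Zeros of a ternary quadratic form, with the full dependence on the minors

The starting theorem `con2_` loses the factor `K`, the greatest common divisor of the `2 × 2` minors.
Here only its square root is lost: `E` is a bound for the `k` such that `k ^ 2` divides all minors.
Induction by passing to sublattices of prime index which contain all zeros.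
-/

set_option autoImplicit false

namespace Pool.Agent.K1H65.CB

open Matrix Finset
open Pool.Agent.R38.NC (qf Prim tri_ bas2_ par_ dvd_)
open Pool.Agent.R38.QP (con2_ S_CON2)

theorem con2 : S_CON2 := con2_ tri_ bas2_ par_ dvd_

theorem qf_conj (M U : Matrix (Fin 3) (Fin 3) ℤ) (y : Fin 3 → ℤ) :
    qf M (U.mulVec y) = qf (Uᵀ * M * U) y := by
  unfold qf
  have e1 : (Uᵀ * M * U).mulVec y = Uᵀ.mulVec (M.mulVec (U.mulVec y)) := by
    rw [Matrix.mulVec_mulVec, Matrix.mulVec_mulVec, Matrix.mul_assoc]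
  rw [e1, Matrix.dotProduct_mulVec y Uᵀ, Matrix.vecMul_transpose]

theorem qf_smul (M : Matrix (Fin 3) (Fin 3) ℤ) (p : ℤ) (y : Fin 3 → ℤ) :
    qf (p • M) y = p * qf M y := by
  unfold qf
  rw [Matrix.smul_mulVec, dotProduct_smul, smul_eq_mul]

/-- The minors modulo `p`. -/
theorem minors (M : Matrix (Fin 3) (Fin 3) ℤ) (hM : M.IsSymm) (p : ℤ)
    (h : ∀ i j, p ∣ M.adjugate i j) (i j k : Fin 3) : p ∣ M i i * M j k - M i j * M i k := by
  have e := Matrix.adjugate_fin_three M
  have s10 : M 1 0 = M 0 1 := hM.apply 0 1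
  have s20 : M 2 0 = M 0 2 := hM.apply 0 2
  have s21 : M 2 1 = M 1 2 := hM.apply 1 2
  have a00 := h 0 0
  have a01 := h 0 1
  have a02 := h 0 2
  have a11 := h 1 1
  have a12 := h 1 2
  have a22 := h 2 2
  rw [e] at a00 a01 a02 a11 a12 a22
  simp only [Matrix.of_apply, Matrix.cons_val', Matrix.cons_val_zero, Matrix.cons_val_one,
    Matrix.cons_val, s10, s20, s21] at a00 a01 a02 a11 a12 a22
  have key : ∀ z z' : ℤ, z = z' → p ∣ z → p ∣ z' := fun z z' h1 h2 => h1 ▸ h2
  have key' : ∀ z z' : ℤ, -z = z' → p ∣ z → p ∣ z' := fun z z' h1 h2 => h1 ▸ (dvd_neg.2 h2)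
  have key0 : ∀ z : ℤ, z = 0 → p ∣ z := fun z h => h ▸ dvd_zero p
  fin_cases i <;> fin_cases j <;> fin_cases k <;>
    simp only [Fin.zero_eta, Fin.mk_one, Fin.reduceFinMk, s10, s20, s21] <;>
    first
    | exact key0 _ (by ring1)
    | exact key _ _ (by ring1) a00
    | exact key _ _ (by ring1) a01
    | exact key _ _ (by ring1) a02
    | exact key _ _ (by ring1) a11
    | exact key _ _ (by ring1) a12
    | exact key _ _ (by ring1) a22
    | exact key' _ _ (by ring1) a00
    | exact key' _ _ (by ring1) a01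
    | exact key' _ _ (by ring1) a02
    | exact key' _ _ (by ring1) a11
    | exact key' _ _ (by ring1) a12

/-- The basis of the sublattice `p ∣ v ⬝ᵥ y`. -/
def bU (i : Fin 3) (p : ℤ) (c : Fin 3 → ℤ) : Matrix (Fin 3) (Fin 3) ℤ :=
  fun a b => if a = i then (if b = i then p else c b) else (if a = b then 1 else 0)

theorem det_bU (i : Fin 3) (p : ℤ) (c : Fin 3 → ℤ) : (bU i p c).det = p := by
  rw [Matrix.det_fin_three]
  fin_cases i <;> simp [bU]

theorem bU_mulVec (i : Fin 3) (p : ℤ) (c : Fin 3 → ℤ) (z : Fin 3 → ℤ) (a : Fin 3) :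
    (bU i p c).mulVec z a = if a = i then p * z i + ∑ b, (if b = i then 0 else c b * z b)
      else z a := by
  simp only [Matrix.mulVec, dotProduct, Fin.sum_univ_three, bU]
  fin_cases i <;> fin_cases a <;> simp <;> ring

theorem exists_bU (i : Fin 3) (p : ℤ) (hp : Prime p) (v : Fin 3 → ℤ) (hv : ¬ p ∣ v i) :
    ∃ c : Fin 3 → ℤ, (∀ y : Fin 3 → ℤ, p ∣ v ⬝ᵥ y → ∃ z, y = (bU i p c).mulVec z) ∧
      ∀ z, p ∣ v ⬝ᵥ (bU i p c).mulVec z := by
  have hco : IsCoprime (v i) p := (hp.coprime_iff_not_dvd.2 hv).symm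
  obtain ⟨s, t, hst⟩ := hco
  refine ⟨fun b => -(s * v b), ?_, ?_⟩
  · intro y hy
    have h1 : p ∣ y i - ∑ b, (if b = i then 0 else (-(s * v b)) * y b) := by
      have h2 : y i - ∑ b, (if b = i then 0 else (-(s * v b)) * y b) =
          s * (v ⬝ᵥ y) + p * (t * y i) := by
        simp only [dotProduct, Fin.sum_univ_three]
        fin_cases i <;> simp at hst ⊢ <;> linear_combination (-(y _)) * hst
      rw [h2]
      exact dvd_add (hy.mul_left _) (dvd_mul_right _ _)
    obtain ⟨w, hw⟩ := h1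
    refine ⟨fun b => if b = i then w else y b, ?_⟩
    funext a
    rw [bU_mulVec]
    by_cases ha : a = i
    · subst ha
      rw [if_pos rfl, if_pos rfl, ← hw]
      have : ∑ b, (if b = a then (0:ℤ) else -(s * v b) * (if b = a then w else y b)) =
          ∑ b, (if b = a then (0:ℤ) else (-(s * v b)) * y b) := by
        refine Finset.sum_congr rfl fun b _ => ?_
        by_cases hb : b = a
        · rw [if_pos hb, if_pos hb]
        · rw [if_neg hb, if_neg hb, if_neg hb]
      rw [this]
      ring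
    · rw [if_neg ha, if_neg ha]
  · intro z
    have h2 : v ⬝ᵥ (bU i p fun b => -(s * v b)).mulVec z =
        p * (v i * z i) + p * ∑ b, (if b = i then 0 else t * v b * z b) := by
      have e : ∀ a, (bU i p fun b => -(s * v b)).mulVec z a = if a = i then p * z i +
          ∑ b, (if b = i then 0 else (-(s * v b)) * z b) else z a := fun a => bU_mulVec _ _ _ _ _
      simp only [dotProduct, e, Fin.sum_univ_three]
      fin_cases i <;> simp at hst ⊢
      · linear_combination (v 1 * z 1 + v 2 * z 2) * (-1 : ℤ) * hst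
      · linear_combination (v 0 * z 0 + v 2 * z 2) * (-1 : ℤ) * hst
      · linear_combination (v 0 * z 0 + v 1 * z 1) * (-1 : ℤ) * hst
    rw [h2]
    exact dvd_add (dvd_mul_right _ _) (dvd_mul_right _ _)


/-- The minors in a sublattice. -/
theorem adj_conj (M M1 U : Matrix (Fin 3) (Fin 3) ℤ) (p : ℤ) (hp : p ≠ 0) (hU : U.det = p)
    (h : Uᵀ * M * U = p • M1) : M.adjugate = U * M1.adjugate * Uᵀ := by
  have e1 : (Uᵀ * M * U).adjugate = U.adjugate * (M.adjugate * Uᵀ.adjugate) := by
    rw [Matrix.adjugate_mul_distrib, Matrix.adjugate_mul_distrib]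
  rw [h, Matrix.adjugate_smul, Fintype.card_fin] at e1
  have e2 : U * (p ^ (3 - 1) • M1.adjugate) * Uᵀ = p ^ 2 • M.adjugate := by
    rw [e1]
    have e3 : U * U.adjugate = p • (1 : Matrix (Fin 3) (Fin 3) ℤ) := by
      rw [Matrix.mul_adjugate, hU]
    have e4 : Uᵀ.adjugate * Uᵀ = p • (1 : Matrix (Fin 3) (Fin 3) ℤ) := by
      rw [Matrix.adjugate_mul, Matrix.det_transpose, hU]
    calc U * (U.adjugate * (M.adjugate * Uᵀ.adjugate)) * Uᵀ
        = (U * U.adjugate) * M.adjugate * (Uᵀ.adjugate * Uᵀ) := by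
          simp only [Matrix.mul_assoc]
      _ = p ^ 2 • M.adjugate := by
          rw [e3, e4, Matrix.smul_mul, Matrix.one_mul, Matrix.mul_smul, Matrix.mul_one, smul_smul,
            sq]
  rw [Matrix.mul_smul, Matrix.smul_mul] at e2
  have hp2 : (p ^ 2 : ℤ) ≠ 0 := pow_ne_zero 2 hp
  ext i j
  have e3 := congrFun (congrFun e2 i) j
  rw [Matrix.smul_apply, Matrix.smul_apply, smul_eq_mul, smul_eq_mul] at e3
  exact (mul_left_cancel₀ hp2 e3).symm

theorem card_div_le {a b : ℕ} (h : a ∣ b) (hb : b ≠ 0) :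
    ((Nat.divisors a).card : ℝ) ≤ ((Nat.divisors b).card : ℝ) := by
  exact_mod_cast Finset.card_le_card (Nat.divisors_subset_of_dvd hb h)

/-- **Zeros of ternary quadratic forms.** -/
theorem con3 : ∀ (n : ℕ) (M : Matrix (Fin 3) (Fin 3) ℤ), M.det.natAbs = n → M.IsSymm →
    M.det ≠ 0 → ∀ E : ℝ, (∀ k : ℕ, (∀ i j, (k : ℤ) ^ 2 ∣ M.adjugate i j) → (k : ℝ) ≤ E) →
    ∀ (V : ℝ) (S : Finset (Fin 3 → ℤ)), 0 ≤ V → (∀ x ∈ S, Prim x ∧ qf M x = 0) →
    (∀ x ∈ S, ∀ y ∈ S, y ≠ -x) →
    (∀ x ∈ S, ∀ y ∈ S, ∀ z ∈ S, ((|(Matrix.of ![x, y, z]).det| : ℤ) : ℝ) ≤ 6 * V) →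
    (S.card : ℝ) ≤ 1 + ((Nat.divisors (2 * M.det.natAbs)).card : ℝ) ^ 2 *
      (10 + 40 * E * (V / (M.det.natAbs : ℝ)) ^ ((1 : ℝ) / 3)) := by
  classical
  intro n
  induction n using Nat.strong_induction_on with
  | _ n ih =>
  intro M hn hM hdet E hE V S hV hS hSneg hSdet
  have hE1 : 1 ≤ E := by
    have := hE 1 (by simp)
    exact_mod_cast this
  have hn0 : 0 < n := by
    rw [← hn]
    exact Int.natAbs_pos.2 hdet
  by_cases hex : ∃ p : ℕ, p.Prime ∧ ∀ i j, (p : ℤ) ∣ M.adjugate i j
  swap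
  · -- no common divisor
    push Not at hex
    have h1 := con2 1 M le_rfl hM hdet (fun d hd => by
      rw [Nat.cast_one]
      by_contra hcon
      have h2 : d.natAbs ≠ 1 := by
        intro h3
        apply hcon
        have := Int.natAbs_dvd_natAbs.1 (by rw [h3]; exact one_dvd _ : d.natAbs ∣ (1 : ℤ).natAbs)
        exact this
      obtain ⟨p, hp, hpd⟩ := Nat.exists_prime_and_dvd h2
      obtain ⟨i, j, hij⟩ := hex p hp
      apply hij
      exact (Int.natCast_dvd.2 hpd).trans (hd i j)) V S hV hS hSneg hSdet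
    refine h1.trans ?_
    have h2 : (0 : ℝ) ≤ (V / (M.det.natAbs : ℝ)) ^ ((1 : ℝ) / 3) := by positivity
    have h3 : (40 : ℝ) * (1 : ℕ) * (V / (M.det.natAbs : ℝ)) ^ ((1 : ℝ) / 3) ≤
        40 * E * (V / (M.det.natAbs : ℝ)) ^ ((1 : ℝ) / 3) := by
      apply mul_le_mul_of_nonneg_right _ h2
      push_cast
      linarith
    gcongr
  obtain ⟨p, hp, hpd⟩ := hex
  have hpZ : Prime (p : ℤ) := Nat.prime_iff_prime_int.1 hp
  have hp0 : (p : ℤ) ≠ 0 := hpZ.ne_zero
  have hp2 : 2 ≤ p := hp.two_le
  have hpR : (0 : ℝ) < p := by exact_mod_cast hp.pos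
  have hne2 : 2 * M.det.natAbs ≠ 0 := by omega
  by_cases hall : ∀ i j, (p : ℤ) ∣ M i j
  · -- the matrix is divisible by `p`
    choose f hf using hall
    obtain ⟨M1, hM1⟩ : ∃ M1 : Matrix (Fin 3) (Fin 3) ℤ, M1 = Matrix.of f := ⟨_, rfl⟩
    have hMM : M = (p : ℤ) • M1 := by
      ext i j
      rw [hf i j, hM1, Matrix.smul_apply, Matrix.of_apply, smul_eq_mul]
    have hs1 : M1.IsSymm := by
      ext i j
      have := hM.apply j i
      rw [hMM, Matrix.smul_apply, Matrix.smul_apply, smul_eq_mul, smul_eq_mul] at this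
      rw [Matrix.transpose_apply]
      exact (mul_left_cancel₀ hp0 this).symm
    have hd1 : M.det = (p : ℤ) ^ 3 * M1.det := by
      rw [hMM, Matrix.det_smul, Fintype.card_fin]
    have hd10 : M1.det ≠ 0 := by
      intro h
      rw [h, mul_zero] at hd1
      exact hdet hd1
    have hdn : M.det.natAbs = p ^ 3 * M1.det.natAbs := by
      rw [hd1, Int.natAbs_mul, Int.natAbs_pow, Int.natAbs_natCast]
    have hlt : M1.det.natAbs < n := by
      rw [← hn, hdn]
      have h1 : 0 < M1.det.natAbs := Int.natAbs_pos.2 hd10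
      have h2 : 1 < p ^ 3 := Nat.one_lt_pow (by norm_num) (by omega)
      nlinarith
    have ha1 : M.adjugate = (p : ℤ) ^ 2 • M1.adjugate := by
      rw [hMM, Matrix.adjugate_smul, Fintype.card_fin]
    have h1 := ih M1.det.natAbs hlt M1 rfl hs1 hd10 (E / p) (by
      intro k hk
      rw [le_div_iff₀ hpR]
      have h2 := hE (k * p) (by
        intro i j
        rw [ha1, Matrix.smul_apply, smul_eq_mul]
        push_cast
        rw [mul_pow, mul_comm ((k : ℤ) ^ 2)]
        exact mul_dvd_mul_left _ (hk i j))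
      exact_mod_cast h2) V S hV (fun x hx => by
        obtain ⟨a1, a2⟩ := hS x hx
        refine ⟨a1, ?_⟩
        rw [hMM, qf_smul] at a2
        exact (mul_eq_zero.1 a2).resolve_left hp0) hSneg hSdet
    refine h1.trans ?_
    have h2 := card_div_le (a := 2 * M1.det.natAbs) (b := 2 * M.det.natAbs)
      (by rw [hdn]; exact mul_dvd_mul_left 2 (dvd_mul_left _ _)) hne2
    have h3 : 40 * (E / p) * (V / (M1.det.natAbs : ℝ)) ^ ((1 : ℝ) / 3) =
        40 * E * (V / (M.det.natAbs : ℝ)) ^ ((1 : ℝ) / 3) := by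
      have h4 : V / (M1.det.natAbs : ℝ) = (p : ℝ) ^ 3 * (V / (M.det.natAbs : ℝ)) := by
        rw [hdn]
        push_cast
        field_simp
      rw [h4, Real.mul_rpow (by positivity) (by positivity), ← Real.rpow_natCast (p : ℝ) 3,
        ← Real.rpow_mul hpR.le]
      norm_num
      field_simp
    rw [h3]
    have h5 : (0 : ℝ) ≤ 10 + 40 * E * (V / (M.det.natAbs : ℝ)) ^ ((1 : ℝ) / 3) := by positivity
    gcongr
  · -- the matrix has rank one modulo `p`
    have hmin := minors M hM (p : ℤ) hpd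
    obtain ⟨i, hi⟩ : ∃ i, ¬ (p : ℤ) ∣ M i i := by
      by_contra hcon
      push Not at hcon
      apply hall
      intro i j
      have h1 := hmin i j i
      have h2 : (p : ℤ) ∣ M i j * M i j := by
        have h3 : M i j * M i j = M i i * M j j - (M i i * M j j - M i j * M i j) := by ring
        rw [h3]
        exact dvd_sub ((hcon i).mul_right _) (hmin i j j)
      rcases hpZ.dvd_or_dvd h2 with h | h <;> exact h
    obtain ⟨c, hc1, hc2⟩ := exists_bU i (p : ℤ) hpZ (M i) hi
    obtain ⟨U, hU⟩ : ∃ U, U = bU i (p : ℤ) c := ⟨_, rfl⟩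
    rw [← hU] at hc1 hc2
    have hUd : U.det = (p : ℤ) := by rw [hU]; exact det_bU _ _ _
    -- zeros are in the sublattice
    have hzero : ∀ y, qf M y = 0 → (p : ℤ) ∣ M i ⬝ᵥ y := by
      intro y hy
      have h1 : (p : ℤ) ∣ (M i ⬝ᵥ y) * (M i ⬝ᵥ y) := by
        have h2 : (M i ⬝ᵥ y) * (M i ⬝ᵥ y) = M i i * qf M y -
            ∑ j, ∑ k, (M i i * M j k - M i j * M i k) * (y j * y k) := by
          simp only [qf, Matrix.mulVec, dotProduct, Fin.sum_univ_three]
          ring
        rw [h2, hy, mul_zero, zero_sub]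
        apply dvd_neg.2
        refine Finset.dvd_sum fun j _ => Finset.dvd_sum fun k _ => ?_
        exact (hmin i j k).mul_right _
      rcases hpZ.dvd_or_dvd h1 with h | h <;> exact h
    -- the form is divisible by `p` on the sublattice
    have hMU : ∀ a b, (p : ℤ) ∣ (M * U) a b := by
      intro a b
      have h1 : (p : ℤ) ∣ M i ⬝ᵥ (fun k => U k b) := by
        have h2 := hc2 (Pi.single b 1)
        have h3 : U.mulVec (Pi.single b 1) = fun k => U k b := by
          rw [Matrix.mulVec_single_one]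
          rfl
        rwa [h3] at h2
      have h2 : (p : ℤ) ∣ M i i * (M * U) a b := by
        have h3 : M i i * (M * U) a b = M i a * (M i ⬝ᵥ (fun k => U k b)) +
            ∑ k, (M i i * M a k - M i a * M i k) * U k b := by
          rw [Matrix.mul_apply]
          simp only [dotProduct, Fin.sum_univ_three]
          ring
        rw [h3]
        refine dvd_add (h1.mul_left _) (Finset.dvd_sum fun k _ => ?_)
        exact (hmin i a k).mul_right _
      exact (hpZ.dvd_or_dvd h2).resolve_left hi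
    have hall2 : ∀ a b, (p : ℤ) ∣ (Uᵀ * M * U) a b := by
      intro a b
      rw [Matrix.mul_assoc, Matrix.mul_apply]
      exact Finset.dvd_sum fun k _ => (hMU k b).mul_left _
    choose f hf using hall2
    obtain ⟨M1, hM1⟩ : ∃ M1 : Matrix (Fin 3) (Fin 3) ℤ, M1 = Matrix.of f := ⟨_, rfl⟩
    have hMM : Uᵀ * M * U = (p : ℤ) • M1 := by
      ext i j
      rw [hf i j, hM1, Matrix.smul_apply, Matrix.of_apply, smul_eq_mul]
    have hs1 : M1.IsSymm := by
      have h1 : (Uᵀ * M * U).IsSymm := by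
        unfold Matrix.IsSymm
        rw [Matrix.transpose_mul, Matrix.transpose_mul, Matrix.transpose_transpose, hM.eq,
          Matrix.mul_assoc]
      ext i j
      have := h1.apply j i
      rw [hMM, Matrix.smul_apply, Matrix.smul_apply, smul_eq_mul, smul_eq_mul] at this
      rw [Matrix.transpose_apply]
      exact (mul_left_cancel₀ hp0 this).symm
    have hd1 : M.det = (p : ℤ) * M1.det := by
      have h1 := congrArg Matrix.det hMM
      rw [Matrix.det_mul, Matrix.det_mul, Matrix.det_transpose, hUd, Matrix.det_smul,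
        Fintype.card_fin] at h1
      have h2 : (p : ℤ) ^ 2 ≠ 0 := pow_ne_zero 2 hp0
      apply mul_left_cancel₀ h2
      linear_combination h1
    have hd10 : M1.det ≠ 0 := by
      intro h
      rw [h, mul_zero] at hd1
      exact hdet hd1
    have hdn : M.det.natAbs = p * M1.det.natAbs := by
      rw [hd1, Int.natAbs_mul, Int.natAbs_natCast]
    have hlt : M1.det.natAbs < n := by
      rw [← hn, hdn]
      have h1 : 0 < M1.det.natAbs := Int.natAbs_pos.2 hd10
      nlinarith
    have ha1 := adj_conj M M1 U p hp0 hUd hMM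
    have hg : ∀ y : Fin 3 → ℤ, ∃ z, y ∈ S → y = U.mulVec z := by
      intro y
      by_cases hy : y ∈ S
      · obtain ⟨z, hz⟩ := hc1 y (hzero y (hS y hy).2)
        exact ⟨z, fun _ => hz⟩
      · exact ⟨0, fun h => absurd h hy⟩
    choose g hg using hg
    have hinj : Set.InjOn g S := by
      intro x hx y hy hxy
      rw [hg x hx, hg y hy, hxy]
    have h1 := ih M1.det.natAbs hlt M1 rfl hs1 hd10 E (by
      intro k hk
      refine hE k fun a b => ?_
      rw [ha1, Matrix.mul_apply]
      refine Finset.dvd_sum fun l _ => Dvd.dvd.mul_right ?_ _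
      rw [Matrix.mul_apply]
      exact Finset.dvd_sum fun m _ => (hk m l).mul_left _) (V / p) (S.image g) (by positivity)
      (by
        intro z hz
        obtain ⟨y, hy, rfl⟩ := Finset.mem_image.1 hz
        obtain ⟨a1, a2⟩ := hS y hy
        constructor
        · intro d hd
          apply a1 d
          intro a
          rw [hg y hy]
          simp only [Matrix.mulVec, dotProduct]
          exact Finset.dvd_sum fun b _ => (hd b).mul_left _
        · rw [hg y hy, qf_conj, hMM, qf_smul] at a2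
          exact (mul_eq_zero.1 a2).resolve_left hp0)
      (by
        intro z hz w hw hzw
        obtain ⟨y, hy, rfl⟩ := Finset.mem_image.1 hz
        obtain ⟨x, hx, rfl⟩ := Finset.mem_image.1 hw
        apply hSneg y hy x hx
        rw [hg x hx, hzw, Matrix.mulVec_neg, ← hg y hy])
      (by
        intro z1 hz1 z2 hz2 z3 hz3
        obtain ⟨y1, hy1, rfl⟩ := Finset.mem_image.1 hz1
        obtain ⟨y2, hy2, rfl⟩ := Finset.mem_image.1 hz2
        obtain ⟨y3, hy3, rfl⟩ := Finset.mem_image.1 hz3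
        have h2 := Pool.Agent.R38.NC.det_rows ![y1, y2, y3] ![g y1, g y2, g y3] U (by
          intro i
          fin_cases i
          · exact hg y1 hy1
          · exact hg y2 hy2
          · exact hg y3 hy3)
        have h3 := hSdet y1 hy1 y2 hy2 y3 hy3
        rw [h2, hUd, abs_mul, Nat.abs_cast] at h3
        push_cast at h3 ⊢
        rw [← mul_div_assoc, le_div_iff₀ hpR]
        exact h3)
    rw [Finset.card_image_of_injOn hinj] at h1
    refine h1.trans ?_
    have h2 := card_div_le (a := 2 * M1.det.natAbs) (b := 2 * M.det.natAbs)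
      (by rw [hdn]; exact mul_dvd_mul_left 2 (dvd_mul_left _ _)) hne2
    have h3 : V / p / (M1.det.natAbs : ℝ) = V / (M.det.natAbs : ℝ) := by
      rw [hdn]
      push_cast
      rw [div_div]
    rw [h3]
    have h5 : (0 : ℝ) ≤ 10 + 40 * E * (V / (M.det.natAbs : ℝ)) ^ ((1 : ℝ) / 3) := by positivity
    gcongr

end Pool.Agent.K1H65.CB
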