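import Mathlib
import Pool.Agent.R38.NC.Sum

/-!
# Sums of negative powers of a cubic polynomial over sparse sets of integers
-/

set_option autoImplicit false

namespace Pool.Agent.K1H65.CB

open Finset

theorem harm_range (n : ℕ) : ∑ j ∈ Finset.range n, 1 / ((j : ℝ) + 1) ≤ 1 + Real.log n := by
  have h3 := harmonic_le_one_add_log n
  have h4 : ((harmonic n : ℚ) : ℝ) = ∑ k ∈ Finset.range n, 1 / ((k : ℝ) + 1) := by
    rw [harmonic]
    push_cast
    refine Finset.sum_congr rfl fun k _ => ?_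
    rw [one_div]
  rw [h4] at h3
  exact h3

theorem fib_card (a : ℤ) (ha : a ≠ 0) (k : ℕ) (hk : 1 ≤ k) (F : Finset ℤ) (L : ℤ)
    (hF : ∀ n ∈ F, L ≤ n ∧ n < L + k) (hsp : ∀ n ∈ F, ∀ m ∈ F, (k : ℤ) ∣ a * (n - m)) :
    F.card ≤ 2 * a.natAbs := by
  rcases F.eq_empty_or_nonempty with h0 | ⟨n1, hn1⟩
  · rw [h0]
    simp
  have hkZ : (0 : ℤ) < k := by exact_mod_cast hk
  have hmap : ∀ n ∈ F, a * (n - n1) / k ∈ Finset.Ico (-(a.natAbs : ℤ)) (a.natAbs : ℤ) := by
    intro n hn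
    obtain ⟨q, hq⟩ := hsp n hn n1 hn1
    rw [hq, Int.mul_ediv_cancel_left _ hkZ.ne', Finset.mem_Ico]
    have h1 := hF n hn
    have h2 := hF n1 hn1
    have h3 : |n - n1| < k := by rw [abs_lt]; constructor <;> linarith
    have h4 : |(k : ℤ) * q| < k * a.natAbs := by
      rw [← hq, abs_mul, Int.natCast_natAbs, mul_comm (k : ℤ)]
      exact mul_lt_mul_of_pos_left h3 (abs_pos.2 ha)
    rw [abs_mul, Nat.abs_cast] at h4
    have h5 : |q| < a.natAbs := lt_of_mul_lt_mul_left h4 hkZ.le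
    rw [abs_lt] at h5
    exact ⟨h5.1.le, h5.2⟩
  have hinj : Set.InjOn (fun n => a * (n - n1) / (k : ℤ)) F := by
    intro n hn m hm h
    obtain ⟨q, hq⟩ := hsp n hn n1 hn1
    obtain ⟨q', hq'⟩ := hsp m hm n1 hn1
    simp only at h
    rw [hq, hq', Int.mul_ediv_cancel_left _ hkZ.ne', Int.mul_ediv_cancel_left _ hkZ.ne'] at h
    have h2 : a * (n - n1) = a * (m - n1) := by rw [hq, hq', h]
    have h3 := mul_left_cancel₀ ha h2
    linarith
  have h1 := Finset.card_le_card_of_injOn _ hmap hinj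
  rw [Int.card_Ico] at h1
  omega

theorem spaced (ρ : ℂ) (T : ℕ) (a : ℤ) (ha : a ≠ 0) (k : ℕ) (hk : 1 ≤ k) (S : Finset ℤ)
    (hS : ∀ n ∈ S, -(T : ℤ) ≤ n ∧ n ≤ T) (hsp : ∀ n ∈ S, ∀ m ∈ S, (k : ℤ) ∣ a * (n - m)) :
    ∑ n ∈ S, (k : ℝ) / max (k : ℝ) ‖(n : ℂ) - ρ‖ ≤
      12 * a.natAbs * (1 + Real.log ((2 * T + 1 : ℕ) : ℝ)) := by
  have hkR : (1 : ℝ) ≤ k := by exact_mod_cast hk
  set c := ⌊ρ.re⌋ with hc
  set c' := max (-(T : ℤ)) (min (T : ℤ) c) with hc'
  have hterm : ∀ n ∈ S, (k : ℝ) / max (k : ℝ) ‖(n : ℂ) - ρ‖ ≤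
      3 * (1 / ((((n - c').natAbs / k : ℕ) : ℝ) + 1)) := by
    intro n hn
    have hnT := hS n hn
    have h1 : (n - c').natAbs ≤ (n - c).natAbs := by omega
    have h2 : |(n : ℝ) - ρ.re| ≤ ‖(n : ℂ) - ρ‖ := by
      have := Complex.abs_re_le_norm ((n : ℂ) - ρ)
      simpa using this
    have h3 : (((n - c).natAbs : ℕ) : ℝ) ≤ |(n : ℝ) - ρ.re| + 1 := by
      have h4 : (((n - c).natAbs : ℕ) : ℝ) = |(n : ℝ) - c| := by
        rw [Nat.cast_natAbs]
        push_cast
        rfl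
      rw [h4]
      have h5 := Int.floor_le ρ.re
      have h6 := Int.lt_floor_add_one ρ.re
      have h7 : |(n : ℝ) - c| ≤ |(n : ℝ) - ρ.re| + |ρ.re - c| := abs_sub_le _ _ _
      have h8 : |ρ.re - c| ≤ 1 := by
        rw [abs_le]
        constructor <;> linarith
      linarith
    have h9 : (((n - c').natAbs : ℕ) : ℝ) ≤ ‖(n : ℂ) - ρ‖ + 1 := by
      have : (((n - c').natAbs : ℕ) : ℝ) ≤ (((n - c).natAbs : ℕ) : ℝ) := by exact_mod_cast h1
      linarith
    have h10 : (((n - c').natAbs / k : ℕ) : ℝ) * k ≤ (((n - c').natAbs : ℕ) : ℝ) := by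
      exact_mod_cast Nat.div_mul_le_self _ _
    have hm1 : (k : ℝ) ≤ max (k : ℝ) ‖(n : ℂ) - ρ‖ := le_max_left _ _
    have hm2 : ‖(n : ℂ) - ρ‖ ≤ max (k : ℝ) ‖(n : ℂ) - ρ‖ := le_max_right _ _
    have hp : (0 : ℝ) < (((n - c').natAbs / k : ℕ) : ℝ) + 1 := by positivity
    rw [mul_one_div, div_le_div_iff₀ (by linarith) hp]
    nlinarith
  refine (Finset.sum_le_sum hterm).trans ?_
  have hmaps : ∀ n ∈ S, (n - c').natAbs / k ∈ Finset.range (2 * T + 1) := by
    intro n hn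
    have hnT := hS n hn
    rw [Finset.mem_range]
    have h1 : (n - c').natAbs ≤ 2 * T := by omega
    exact lt_of_le_of_lt (Nat.div_le_self _ _) (by omega)
  rw [← Finset.sum_fiberwise_of_maps_to hmaps]
  have hfib : ∀ j ∈ Finset.range (2 * T + 1),
      ∑ n ∈ S.filter (fun n => (n - c').natAbs / k = j),
        3 * (1 / ((((n - c').natAbs / k : ℕ) : ℝ) + 1)) ≤
      12 * a.natAbs * (1 / ((j : ℝ) + 1)) := by
    intro j _
    have h1 : ∑ n ∈ S.filter (fun n => (n - c').natAbs / k = j),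
        3 * (1 / ((((n - c').natAbs / k : ℕ) : ℝ) + 1)) =
        (S.filter (fun n => (n - c').natAbs / k = j)).card * (3 * (1 / ((j : ℝ) + 1))) := by
      rw [← nsmul_eq_mul, ← Finset.sum_const]
      refine Finset.sum_congr rfl fun n hn => ?_
      rw [(Finset.mem_filter.1 hn).2]
    rw [h1]
    have h2 : (S.filter (fun n => (n - c').natAbs / k = j)).card ≤ 4 * a.natAbs := by
      have hsub : S.filter (fun n => (n - c').natAbs / k = j) ⊆
          (S.filter (fun n => c' + j * k ≤ n ∧ n < c' + j * k + k)) ∪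
          (S.filter (fun n => c' - j * k - k + 1 ≤ n ∧ n < c' - j * k - k + 1 + k)) := by
        intro n hn
        rw [Finset.mem_filter] at hn
        obtain ⟨hnS, hnj⟩ := hn
        have h5 := Nat.div_add_mod (n - c').natAbs k
        have h6 := Nat.mod_lt (n - c').natAbs (by omega : k > 0)
        rw [hnj] at h5
        have h7 : ((j * k : ℕ) : ℤ) = (j : ℤ) * k := by push_cast; ring
        have h8 : ((k * j : ℕ) : ℤ) = (j : ℤ) * k := by push_cast; ring
        rw [Finset.mem_union, Finset.mem_filter, Finset.mem_filter]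
        rcases le_total c' n with h | h
        · left
          refine ⟨hnS, ?_⟩
          omega
        · right
          refine ⟨hnS, ?_⟩
          omega
      refine (Finset.card_le_card hsub).trans ((Finset.card_union_le _ _).trans ?_)
      have e1 := fib_card a ha k hk (S.filter (fun n => c' + j * k ≤ n ∧ n < c' + j * k + k))
        (c' + j * k) (fun n hn => (Finset.mem_filter.1 hn).2) (fun n hn m hm =>
          hsp n (Finset.mem_filter.1 hn).1 m (Finset.mem_filter.1 hm).1)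
      have e2 := fib_card a ha k hk
        (S.filter (fun n => c' - j * k - k + 1 ≤ n ∧ n < c' - j * k - k + 1 + k))
        (c' - j * k - k + 1) (fun n hn => (Finset.mem_filter.1 hn).2) (fun n hn m hm =>
          hsp n (Finset.mem_filter.1 hn).1 m (Finset.mem_filter.1 hm).1)
      omega
    have h3 : ((S.filter (fun n => (n - c').natAbs / k = j)).card : ℝ) ≤ 4 * a.natAbs := by
      exact_mod_cast h2
    have h4 : (0 : ℝ) ≤ 3 * (1 / ((j : ℝ) + 1)) := by positivity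
    calc ((S.filter (fun n => (n - c').natAbs / k = j)).card : ℝ) * (3 * (1 / ((j : ℝ) + 1)))
        ≤ (4 * a.natAbs) * (3 * (1 / ((j : ℝ) + 1))) := mul_le_mul_of_nonneg_right h3 h4
      _ = _ := by ring
  refine (Finset.sum_le_sum hfib).trans ?_
  rw [← Finset.mul_sum]
  have h1 := harm_range (2 * T + 1)
  exact mul_le_mul_of_nonneg_left h1 (by positivity)

theorem cubeK {F a b c K : ℝ} (hK : 0 < K) (hF : K ^ 3 ≤ F) (h : a * b * c ≤ F) :
    K / F ^ ((1 : ℝ) / 3) ≤ K / max K a + K / max K b + K / max K c := by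
  have hK3 : 0 < K ^ 3 := by positivity
  have hF0 : 0 < F := lt_of_lt_of_le hK3 hF
  set G := F ^ ((1 : ℝ) / 3) with hG
  have hG3 : G ^ 3 = F := by
    rw [hG, ← Real.rpow_natCast, ← Real.rpow_mul (by linarith)]
    norm_num
  have hG0 : 0 < G := by positivity
  have hGK : K ≤ G := by
    by_contra hcon
    push Not at hcon
    have : G ^ 3 < K ^ 3 := pow_lt_pow_left₀ hcon hG0.le (by norm_num)
    linarith
  have hex : a ≤ G ∨ b ≤ G ∨ c ≤ G := by
    by_contra hcon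
    push Not at hcon
    obtain ⟨h1, h2, h3⟩ := hcon
    have h4 : G * G < a * b := mul_lt_mul'' h1 h2 (by linarith) (by linarith)
    have h5 : G * G * G < a * b * c := mul_lt_mul'' h4 h3 (by positivity) (by linarith)
    have h6 : G ^ 3 = G * G * G := by ring
    linarith
  have key : ∀ x, x ≤ G → K / G ≤ K / max K x := fun x hx =>
    div_le_div_of_nonneg_left hK.le (by positivity) (max_le hGK hx)
  have pos : ∀ x : ℝ, 0 ≤ K / max K x := fun x => by positivity
  have pa := pos a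
  have pb := pos b
  have pc := pos c
  rcases hex with h | h | h
  · have := key a h
    linarith
  · have := key b h
    linarith
  · have := key c h
    linarith

/-- The sum over a spaced set. -/
theorem line_spaced (f : Polynomial ℤ) (hd : f.natDegree = 3) (T : ℕ) (a : ℤ) (ha : a ≠ 0) (k : ℕ)
    (hk : 1 ≤ k) (S : Finset ℤ) (hS : ∀ n ∈ S, -(T : ℤ) ≤ n ∧ n ≤ T)
    (hsp : ∀ n ∈ S, ∀ m ∈ S, (k : ℤ) ∣ a * (n - m)) (hSf : ∀ n ∈ S, k ^ 3 ≤ (f.eval n).natAbs) :
    ∑ n ∈ S, (k : ℝ) / (((f.eval n).natAbs : ℝ) ^ ((1 : ℝ) / 3)) ≤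
      36 * a.natAbs * (1 + Real.log ((2 * T + 1 : ℕ) : ℝ)) := by
  set g := f.map (Int.castRingHom ℂ) with hg
  have hgd : g.natDegree = 3 := by
    rw [hg, Polynomial.natDegree_map_eq_of_injective (RingHom.injective_int _)]
    exact hd
  have hs : g.Splits := IsAlgClosed.splits g
  have hcard : g.roots.card = 3 := by rw [← hs.natDegree_eq_card_roots, hgd]
  obtain ⟨ra, rb, rc, habc⟩ := Multiset.card_eq_three.1 hcard
  have hprod := hs.eq_prod_roots
  rw [habc] at hprod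
  have hlead : 1 ≤ ‖g.leadingCoeff‖ := by
    have h1 : g.leadingCoeff = ((f.leadingCoeff : ℤ) : ℂ) := by
      rw [hg, Polynomial.leadingCoeff_map_of_injective (RingHom.injective_int _)]
      rfl
    rw [h1, Complex.norm_intCast]
    have h2 : f.leadingCoeff ≠ 0 := by
      rw [Polynomial.leadingCoeff_ne_zero]
      rintro rfl
      simp at hd
    have h3 : 1 ≤ |f.leadingCoeff| := Int.one_le_abs h2
    exact_mod_cast h3
  have hev : ∀ n : ℤ, ‖(n : ℂ) - ra‖ * ‖(n : ℂ) - rb‖ * ‖(n : ℂ) - rc‖ ≤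
      ((f.eval n).natAbs : ℝ) := by
    intro n
    have h1 : ((f.eval n : ℤ) : ℂ) =
        g.leadingCoeff * (((n : ℂ) - ra) * ((n : ℂ) - rb) * ((n : ℂ) - rc)) := by
      have h2 : ((f.eval n : ℤ) : ℂ) = g.eval (n : ℂ) := by
        rw [hg, Polynomial.eval_intCast_map]
        rfl
      have h3 : g.eval (n : ℂ) = (Polynomial.C g.leadingCoeff * (Multiset.map
          (fun x => Polynomial.X - Polynomial.C x) {ra, rb, rc}).prod).eval (n : ℂ) := by
        rw [← hprod]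
      rw [h2, h3, Polynomial.eval_mul, Polynomial.eval_C]
      congr 1
      simp [Polynomial.eval_mul]
      ring
    have h3 : ((f.eval n).natAbs : ℝ) = ‖((f.eval n : ℤ) : ℂ)‖ := by
      rw [Complex.norm_intCast, Nat.cast_natAbs, Int.cast_abs]
    rw [h3, h1, norm_mul, norm_mul, norm_mul]
    have h4 : 0 ≤ ‖(n : ℂ) - ra‖ * ‖(n : ℂ) - rb‖ * ‖(n : ℂ) - rc‖ := by positivity
    nlinarith
  have hkR : (0 : ℝ) < k := by exact_mod_cast hk
  calc ∑ n ∈ S, (k : ℝ) / (((f.eval n).natAbs : ℝ) ^ ((1 : ℝ) / 3))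
      ≤ ∑ n ∈ S, ((k : ℝ) / max (k : ℝ) ‖(n : ℂ) - ra‖ + (k : ℝ) / max (k : ℝ) ‖(n : ℂ) - rb‖ +
          (k : ℝ) / max (k : ℝ) ‖(n : ℂ) - rc‖) := by
        refine Finset.sum_le_sum fun n hn => ?_
        apply cubeK hkR _ (hev n)
        exact_mod_cast hSf n hn
    _ ≤ 36 * a.natAbs * (1 + Real.log ((2 * T + 1 : ℕ) : ℝ)) := by
        rw [Finset.sum_add_distrib, Finset.sum_add_distrib]
        have h1 := spaced ra T a ha k hk S hS hsp
        have h2 := spaced rb T a ha k hk S hS hsp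
        have h3 := spaced rc T a ha k hk S hS hsp
        linarith

/-- A power of a prime dividing a product. -/
theorem pow_or (p : ℕ) (hp : p.Prime) (m : ℕ) (x y : ℤ) (h : (p : ℤ) ^ (2 * m) ∣ x * y) :
    (p : ℤ) ^ m ∣ x ∨ (p : ℤ) ^ m ∣ y := by
  have hpZ : Prime (p : ℤ) := Nat.prime_iff_prime_int.1 hp
  by_contra hcon
  push Not at hcon
  obtain ⟨h1, h2⟩ := hcon
  rw [pow_dvd_iff_le_emultiplicity] at h1 h2 h
  push Not at h1 h2
  rw [emultiplicity_mul hpZ] at h
  have h3 : emultiplicity (p : ℤ) x + emultiplicity (p : ℤ) y < (m : ℕ∞) + (m : ℕ∞) :=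
    ENat.add_lt_add h1 h2
  have h4 : ((2 * m : ℕ) : ℕ∞) = (m : ℕ∞) + m := by push_cast; ring
  rw [h4] at h
  exact absurd h (not_le.2 h3)

/-- The classes of the solutions of a quadratic congruence. -/
theorem class_dvd (a b : ℤ) (k : ℕ) (hk : 1 ≤ k) (n0 n m : ℤ)
    (h1 : (k : ℤ) ^ 2 ∣ (n - n0) * (a * (n + n0) + b))
    (hg : Int.gcd (n - n0) k = Int.gcd (m - n0) k)
    (hh : Int.gcd (a * (n + n0) + b) k = Int.gcd (a * (m + n0) + b) k) :
    (k : ℤ) ∣ a * (n - m) := by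
  have key : ∀ p j : ℕ, p.Prime → p ^ j ∣ k → p ^ j ∣ (a * (n - m)).natAbs := by
    intro p j hp hj
    have h2 : (p : ℤ) ^ (2 * j) ∣ (n - n0) * (a * (n + n0) + b) := by
      refine Dvd.dvd.trans ?_ h1
      rw [mul_comm 2 j, pow_mul]
      exact pow_dvd_pow_of_dvd (by exact_mod_cast hj) 2
    have hjZ : ((p ^ j : ℕ) : ℤ) ∣ (k : ℤ) := by exact_mod_cast hj
    have h3 : (p : ℤ) ^ j ∣ a * (n - m) := by
      rcases pow_or p hp j _ _ h2 with h | h
      · have e1 : p ^ j ∣ Int.gcd (n - n0) k := by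
          have := Int.dvd_coe_gcd (by exact_mod_cast h : ((p ^ j : ℕ) : ℤ) ∣ n - n0) hjZ
          exact_mod_cast this
        rw [hg] at e1
        have e2 : ((p ^ j : ℕ) : ℤ) ∣ m - n0 := by
          have e3 : ((Int.gcd (m - n0) k : ℕ) : ℤ) ∣ m - n0 := Int.gcd_dvd_left ..
          exact Dvd.dvd.trans (by exact_mod_cast e1) e3
        push_cast at e2
        have e3 : n - m = (n - n0) - (m - n0) := by ring
        rw [e3]
        exact (dvd_sub h e2).mul_left _
      · have e1 : p ^ j ∣ Int.gcd (a * (n + n0) + b) k := by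
          have := Int.dvd_coe_gcd (by exact_mod_cast h : ((p ^ j : ℕ) : ℤ) ∣ a * (n + n0) + b) hjZ
          exact_mod_cast this
        rw [hh] at e1
        have e2 : ((p ^ j : ℕ) : ℤ) ∣ a * (m + n0) + b := by
          have e3 : ((Int.gcd (a * (m + n0) + b) k : ℕ) : ℤ) ∣ a * (m + n0) + b :=
            Int.gcd_dvd_left ..
          exact Dvd.dvd.trans (by exact_mod_cast e1) e3
        push_cast at e2
        have e3 : a * (n - m) = (a * (n + n0) + b) - (a * (m + n0) + b) := by ring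
        rw [e3]
        exact dvd_sub h e2
    have h4 := Int.natAbs_dvd_natAbs.2 h3
    rwa [Int.natAbs_pow, Int.natAbs_natCast] at h4
  rw [Int.natCast_dvd]
  rcases Nat.eq_zero_or_pos (a * (n - m)).natAbs with h0 | h0
  · rw [h0]
    exact dvd_zero _
  · exact (Nat.dvd_iff_prime_pow_dvd_dvd _ _).2 fun p j hp hj => key p j hp hj

/-- The sum over the solutions of a quadratic congruence. -/
theorem line_quad (f : Polynomial ℤ) (hd : f.natDegree = 3) (T : ℕ) (a b c : ℤ) (ha : a ≠ 0)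
    (k : ℕ) (hk : 1 ≤ k) (S : Finset ℤ) (hS : ∀ n ∈ S, -(T : ℤ) ≤ n ∧ n ≤ T)
    (hq : ∀ n ∈ S, (k : ℤ) ^ 2 ∣ a * n ^ 2 + b * n + c)
    (hSf : ∀ n ∈ S, k ^ 3 ≤ (f.eval n).natAbs) :
    ∑ n ∈ S, (k : ℝ) / (((f.eval n).natAbs : ℝ) ^ ((1 : ℝ) / 3)) ≤
      ((Nat.divisors k).card : ℝ) ^ 2 *
        (36 * a.natAbs * (1 + Real.log ((2 * T + 1 : ℕ) : ℝ))) := by
  classical
  have hlog : 0 ≤ 1 + Real.log ((2 * T + 1 : ℕ) : ℝ) := by
    have := Real.log_nonneg (by exact_mod_cast (by omega : 1 ≤ 2 * T + 1) :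
      (1 : ℝ) ≤ ((2 * T + 1 : ℕ) : ℝ))
    linarith
  rcases S.eq_empty_or_nonempty with h0 | ⟨n0, hn0⟩
  · rw [h0, Finset.sum_empty]
    positivity
  have hk0 : k ≠ 0 := by omega
  set φ : ℤ → ℕ × ℕ := fun n => (Int.gcd (n - n0) k, Int.gcd (a * (n + n0) + b) k) with hφ
  have hmaps : ∀ n ∈ S, φ n ∈ Nat.divisors k ×ˢ Nat.divisors k := by
    intro n _
    have h1 : Int.gcd (n - n0) k ∣ k := by
      have : ((Int.gcd (n - n0) k : ℕ) : ℤ) ∣ (k : ℤ) := Int.gcd_dvd_right ..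
      exact_mod_cast this
    have h2 : Int.gcd (a * (n + n0) + b) k ∣ k := by
      have : ((Int.gcd (a * (n + n0) + b) k : ℕ) : ℤ) ∣ (k : ℤ) := Int.gcd_dvd_right ..
      exact_mod_cast this
    rw [Finset.mem_product]
    exact ⟨Nat.mem_divisors.2 ⟨h1, hk0⟩, Nat.mem_divisors.2 ⟨h2, hk0⟩⟩
  rw [← Finset.sum_fiberwise_of_maps_to hmaps]
  have hfib : ∀ p ∈ Nat.divisors k ×ˢ Nat.divisors k, ∑ n ∈ S.filter (fun n => φ n = p),
      (k : ℝ) / (((f.eval n).natAbs : ℝ) ^ ((1 : ℝ) / 3)) ≤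
      36 * a.natAbs * (1 + Real.log ((2 * T + 1 : ℕ) : ℝ)) := by
    intro p _
    apply line_spaced f hd T a ha k hk
    · intro n hn
      exact hS n (Finset.mem_filter.1 hn).1
    · intro n hn m hm
      rw [Finset.mem_filter] at hn hm
      have e1 : φ n = φ m := by rw [hn.2, hm.2]
      have e2 : Int.gcd (n - n0) k = Int.gcd (m - n0) k := congrArg Prod.fst e1
      have e3 : Int.gcd (a * (n + n0) + b) k = Int.gcd (a * (m + n0) + b) k :=
        congrArg Prod.snd e1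
      refine class_dvd a b k hk n0 n m ?_ e2 e3
      have e4 : (n - n0) * (a * (n + n0) + b) = (a * n ^ 2 + b * n + c) -
          (a * n0 ^ 2 + b * n0 + c) := by ring
      rw [e4]
      exact dvd_sub (hq n hn.1) (hq n0 hn0)
    · intro n hn
      exact hSf n (Finset.mem_filter.1 hn).1
  refine (Finset.sum_le_sum hfib).trans ?_
  rw [Finset.sum_const, Finset.card_product, nsmul_eq_mul]
  push_cast
  rw [sq]

end Pool.Agent.K1H65.CB
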