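import Mathlib
import Pool.Agent.R38.NC.Stm
import Pool.Agent.Helper112.Arith

/-!
# Linear systems of conics: definitions; polynomials in boxes
-/

set_option autoImplicit false

namespace Pool.Agent.K1H65.CB

open Matrix Finset
open Pool.Agent.H548.WM (ht bx mem_bx le_ht' Rep)
open Pool.Agent.R38.NC (qf Prim)

/-- the matrix of the conic with the parameter `t` -/
def gm {R : Type*} [CommRing R] {N : ℕ} (M : Fin N → Matrix (Fin 3) (Fin 3) ℤ) (t : Fin N → R) :
    Matrix (Fin 3) (Fin 3) R :=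
  fun j k => ∑ i, t i * (M i j k : R)

theorem gm_map {R S : Type*} [CommRing R] [CommRing S] (φ : R →+* S) {N : ℕ}
    (M : Fin N → Matrix (Fin 3) (Fin 3) ℤ) (t : Fin N → R) :
    (gm M t).map φ = gm M (fun i => φ (t i)) := by
  ext j k
  simp [gm, Matrix.map_apply, map_sum]

theorem gm_add {R : Type*} [CommRing R] {N : ℕ} (M : Fin N → Matrix (Fin 3) (Fin 3) ℤ)
    (s t : Fin N → R) : gm M (s + t) = gm M s + gm M t := by
  ext j k
  simp [gm, add_mul, Finset.sum_add_distrib]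

theorem gm_smul {R : Type*} [CommRing R] {N : ℕ} (M : Fin N → Matrix (Fin 3) (Fin 3) ℤ)
    (c : R) (t : Fin N → R) : gm M (c • t) = c • gm M t := by
  ext j k
  simp [gm, Finset.mul_sum, mul_assoc]

theorem gm_zero {R : Type*} [CommRing R] {N : ℕ} (M : Fin N → Matrix (Fin 3) (Fin 3) ℤ) :
    gm M (0 : Fin N → R) = 0 := by
  ext j k
  simp [gm]

theorem gm_neg {R : Type*} [CommRing R] {N : ℕ} (M : Fin N → Matrix (Fin 3) (Fin 3) ℤ)
    (t : Fin N → R) : gm M (-t) = -gm M t := by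
  ext j k
  simp [gm]

theorem gm_sub {R : Type*} [CommRing R] {N : ℕ} (M : Fin N → Matrix (Fin 3) (Fin 3) ℤ)
    (s t : Fin N → R) : gm M (s - t) = gm M s - gm M t := by
  rw [sub_eq_add_neg, gm_add, gm_neg, ← sub_eq_add_neg]

theorem gm_symm {R : Type*} [CommRing R] {N : ℕ} (M : Fin N → Matrix (Fin 3) (Fin 3) ℤ)
    (hM : ∀ i, (M i).IsSymm) (t : Fin N → R) : (gm M t).IsSymm := by
  ext j k
  simp only [Matrix.transpose_apply, gm]
  refine Finset.sum_congr rfl fun i _ => ?_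
  rw [(hM i).apply j k]

/-- A bound for a polynomial in a box. -/
theorem eval_bound {N : ℕ} (P : MvPolynomial (Fin N) ℤ) : ∃ K : ℕ, 1 ≤ K ∧ ∀ T : ℕ, 1 ≤ T →
    ∀ u : Fin N → ℤ, ht u ≤ T → (MvPolynomial.eval u P).natAbs ≤ K * T ^ P.totalDegree := by
  refine ⟨1 + ∑ m ∈ P.support, (P.coeff m).natAbs, by omega, ?_⟩
  intro T hT u hu
  have h1 : |MvPolynomial.eval u P| ≤ ((∑ m ∈ P.support, (P.coeff m).natAbs : ℕ) : ℤ) *
      (T : ℤ) ^ P.totalDegree := by
    rw [MvPolynomial.eval_eq']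
    refine (Finset.abs_sum_le_sum_abs _ _).trans ?_
    push_cast
    rw [Finset.sum_mul]
    refine Finset.sum_le_sum fun m hm => ?_
    rw [abs_mul]
    apply mul_le_mul_of_nonneg_left _ (abs_nonneg _)
    rw [Finset.abs_prod]
    calc ∏ i, |u i ^ m i| ≤ ∏ i, (T : ℤ) ^ m i := by
          refine Finset.prod_le_prod (fun i _ => abs_nonneg _) fun i _ => ?_
          rw [abs_pow]
          have h2 : |u i| ≤ (T : ℤ) := (le_ht' u i).trans (by exact_mod_cast hu)
          exact pow_le_pow_left₀ (abs_nonneg _) h2 _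
      _ = (T : ℤ) ^ (∑ i, m i) := by rw [Finset.prod_pow_eq_pow_sum]
      _ ≤ (T : ℤ) ^ P.totalDegree := by
          apply pow_le_pow_right₀ (by exact_mod_cast hT)
          have h3 := MvPolynomial.le_totalDegree hm
          rwa [Finsupp.sum_fintype _ _ (by simp)] at h3
  rw [Int.abs_eq_natAbs] at h1
  have h2 : (MvPolynomial.eval u P).natAbs ≤ (∑ m ∈ P.support, (P.coeff m).natAbs) *
      T ^ P.totalDegree := by exact_mod_cast h1
  refine h2.trans (Nat.mul_le_mul_right _ (by omega))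

/-- The number of zeros of a polynomial in a box. -/
theorem zero_count {N : ℕ} (hN : 1 ≤ N) (P : MvPolynomial (Fin N) ℤ) (hP : P ≠ 0) (T : ℕ)
    (hT : 1 ≤ T) : (((bx N T).filter fun u => MvPolynomial.eval u P = 0).card : ℝ) ≤
      P.totalDegree * 3 ^ N * (T : ℝ) ^ (N - 1) := by
  have h1 := MvPolynomial.schwartz_zippel_totalDegree hP (Finset.Icc (-(T : ℤ)) T)
  have hc : (Finset.Icc (-(T : ℤ)) T).card = 2 * T + 1 := by
    rw [Int.card_Icc]
    omega
  rw [hc] at h1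
  have h2 : ((((bx N T).filter fun u => MvPolynomial.eval u P = 0).card : ℚ≥0) : ℚ≥0) /
      ((2 * T + 1 : ℕ) : ℚ≥0) ^ N ≤ (P.totalDegree : ℚ≥0) / ((2 * T + 1 : ℕ) : ℚ≥0) := h1
  have h3 : (((((bx N T).filter fun u => MvPolynomial.eval u P = 0).card : ℚ≥0) /
      ((2 * T + 1 : ℕ) : ℚ≥0) ^ N : ℚ≥0) : ℝ) ≤
      (((P.totalDegree : ℚ≥0) / ((2 * T + 1 : ℕ) : ℚ≥0) : ℚ≥0) : ℝ) := by
    exact_mod_cast h2
  push_cast at h3
  have hp : (0 : ℝ) < 2 * (T : ℝ) + 1 := by positivity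
  rw [div_le_div_iff₀ (by positivity) hp] at h3
  obtain ⟨m, rfl⟩ : ∃ m, N = m + 1 := ⟨N - 1, by omega⟩
  rw [Nat.add_sub_cancel]
  have hT1 : (1 : ℝ) ≤ T := by exact_mod_cast hT
  have h4 : (((bx (m + 1) T).filter fun u => MvPolynomial.eval u P = 0).card : ℝ) ≤
      P.totalDegree * (2 * (T : ℝ) + 1) ^ m := by
    have h5 : (((bx (m + 1) T).filter fun u => MvPolynomial.eval u P = 0).card : ℝ) *
        (2 * (T : ℝ) + 1) ≤ (P.totalDegree * (2 * (T : ℝ) + 1) ^ m) * (2 * (T : ℝ) + 1) := by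
      rw [pow_succ] at h3
      linarith
    exact le_of_mul_le_mul_right h5 hp
  refine h4.trans ?_
  have h6 : (2 * (T : ℝ) + 1) ^ m ≤ 3 ^ (m + 1) * (T : ℝ) ^ m := by
    calc (2 * (T : ℝ) + 1) ^ m ≤ (3 * (T : ℝ)) ^ m := by gcongr; linarith
      _ = 3 ^ m * (T : ℝ) ^ m := by rw [mul_pow]
      _ ≤ 3 ^ (m + 1) * (T : ℝ) ^ m := by
          gcongr
          · norm_num
          · omega
  calc (P.totalDegree : ℝ) * (2 * (T : ℝ) + 1) ^ m ≤ P.totalDegree * (3 ^ (m + 1) * (T : ℝ) ^ m) := by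
        gcongr
    _ = _ := by ring

/-- The divisor bound in a box. -/
theorem div_bound {N : ℕ} (P : MvPolynomial (Fin N) ℤ) (ε : ℝ) (hε : 0 < ε) :
    ∃ C : ℝ, 1 ≤ C ∧ ∀ T : ℕ, 1 ≤ T → ∀ u : Fin N → ℤ, ht u ≤ T → MvPolynomial.eval u P ≠ 0 →
      ((Nat.divisors (MvPolynomial.eval u P).natAbs).card : ℝ) ≤ C * (T : ℝ) ^ ε := by
  obtain ⟨K, hK1, hK⟩ := eval_bound P
  obtain ⟨C, hC, hdiv⟩ := Pool.Agent.Helper112.divisor_bound (ε / (P.totalDegree + 1))
    (by positivity)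
  refine ⟨max 1 (C * (K : ℝ) ^ (ε / (P.totalDegree + 1))), le_max_left _ _, ?_⟩
  intro T hT u hu h0
  have hT1 : (1 : ℝ) ≤ T := by exact_mod_cast hT
  have h1 := hdiv _ (Nat.one_le_iff_ne_zero.2 (Int.natAbs_ne_zero.2 h0))
  refine h1.trans ?_
  have h2 : (((MvPolynomial.eval u P).natAbs : ℕ) : ℝ) ≤ K * (T : ℝ) ^ P.totalDegree := by
    exact_mod_cast hK T hT u hu
  calc C * (((MvPolynomial.eval u P).natAbs : ℕ) : ℝ) ^ (ε / (P.totalDegree + 1))
      ≤ C * (K * (T : ℝ) ^ P.totalDegree) ^ (ε / (P.totalDegree + 1)) := by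
        gcongr
    _ = C * (K : ℝ) ^ (ε / (P.totalDegree + 1)) *
          ((T : ℝ) ^ P.totalDegree) ^ (ε / (P.totalDegree + 1)) := by
        rw [Real.mul_rpow (by positivity) (by positivity), mul_assoc]
    _ ≤ C * (K : ℝ) ^ (ε / (P.totalDegree + 1)) * (T : ℝ) ^ ε := by
        gcongr
        rw [← Real.rpow_natCast, ← Real.rpow_mul (by positivity)]
        apply Real.rpow_le_rpow_of_exponent_le hT1
        have h3 : (P.totalDegree : ℝ) * (ε / (P.totalDegree + 1)) =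
            ε * ((P.totalDegree : ℝ) / (P.totalDegree + 1)) := by ring
        rw [h3]
        have h4 : (P.totalDegree : ℝ) / (P.totalDegree + 1) ≤ 1 := by
          rw [div_le_one (by positivity)]
          linarith
        nlinarith
    _ ≤ max 1 (C * (K : ℝ) ^ (ε / (P.totalDegree + 1))) * (T : ℝ) ^ ε := by
        gcongr
        exact le_max_right _ _

end Pool.Agent.K1H65.CB
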