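import Mathlib
import Pool.Agent.K1H65.CB.Line
import Pool.Agent.K1H65.CB.Net

/-!
# The sum over the conics of a linear system
-/

set_option autoImplicit false

namespace Pool.Agent.K1H65.CB

open Matrix Finset
open Pool.Agent.H548.WM (ht bx mem_bx le_ht' ht_le card_bx_le Rep)

/-- a linear combination of the minors -/
def aw {R : Type*} [CommRing R] (w : Matrix (Fin 3) (Fin 3) ℤ) (A : Matrix (Fin 3) (Fin 3) R) :
    R := ∑ i, ∑ j, (w i j : R) * A.adjugate i j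

theorem aw_map {R S : Type*} [CommRing R] [CommRing S] (φ : R →+* S)
    (w : Matrix (Fin 3) (Fin 3) ℤ) (A : Matrix (Fin 3) (Fin 3) R) :
    φ (aw w A) = aw w (A.map φ) := by
  have h := RingHom.map_adjugate φ A
  unfold aw
  rw [map_sum]
  refine Finset.sum_congr rfl fun i _ => ?_
  rw [map_sum]
  refine Finset.sum_congr rfl fun j _ => ?_
  rw [map_mul, map_intCast]
  have h2 := congrFun (congrFun h i) j
  rw [RingHom.mapMatrix_apply, RingHom.mapMatrix_apply, Matrix.map_apply] at h2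
  rw [h2]

theorem aw_quad {R : Type*} [CommRing R] (w : Matrix (Fin 3) (Fin 3) ℤ)
    (A B : Matrix (Fin 3) (Fin 3) R) (n : R) :
    aw w (A + n • B) = aw w B * n ^ 2 + (aw w (A + B) - aw w A - aw w B) * n + aw w A := by
  unfold aw
  simp only [Matrix.adjugate_fin_three, Fin.sum_univ_three, Matrix.add_apply, Matrix.smul_apply,
    smul_eq_mul, Matrix.of_apply, Matrix.cons_val', Matrix.cons_val_zero, Matrix.cons_val_one,
    Matrix.cons_val]
  ring

/-- the resultant of two quadratic polynomials -/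
def res {R : Type*} [CommRing R] (a2 a1 a0 b2 b1 b0 : R) : R :=
  (a2 * b0 - a0 * b2) ^ 2 - (a2 * b1 - a1 * b2) * (a1 * b0 - a0 * b1)

theorem res_dvd {R : Type*} [CommRing R] (a2 a1 a0 b2 b1 b0 m n : R)
    (ha : m ∣ a2 * n ^ 2 + a1 * n + a0) (hb : m ∣ b2 * n ^ 2 + b1 * n + b0) :
    m ∣ res a2 a1 a0 b2 b1 b0 := by
  have h : res a2 a1 a0 b2 b1 b0 =
      (a2 * b0 - a0 * b2) * (a2 * (b2 * n ^ 2 + b1 * n + b0) - b2 * (a2 * n ^ 2 + a1 * n + a0)) -
      (a2 * b1 - a1 * b2) * ((a2 * n + a1) * (b2 * n ^ 2 + b1 * n + b0) -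
        (b2 * n + b1) * (a2 * n ^ 2 + a1 * n + a0)) := by
    unfold res
    ring
  rw [h]
  exact dvd_sub ((dvd_sub (hb.mul_left _) (ha.mul_left _)).mul_left _)
    ((dvd_sub (hb.mul_left _) (ha.mul_left _)).mul_left _)

/-- the resultant along the lines of direction `d`, for any ring -/
def rs {R : Type*} [CommRing R] (w w' : Matrix (Fin 3) (Fin 3) ℤ)
    (A B : Matrix (Fin 3) (Fin 3) R) : R :=
  res (aw w B) (aw w (A + B) - aw w A - aw w B) (aw w A)
    (aw w' B) (aw w' (A + B) - aw w' A - aw w' B) (aw w' A)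

theorem rs_map {R S : Type*} [CommRing R] [CommRing S] (φ : R →+* S)
    (w w' : Matrix (Fin 3) (Fin 3) ℤ) (A B : Matrix (Fin 3) (Fin 3) R) :
    φ (rs w w' A B) = rs w w' (A.map φ) (B.map φ) := by
  have h : (A + B).map φ = A.map φ + B.map φ := by
    ext i j
    simp
  unfold rs res
  simp only [map_sub, map_mul, map_pow, aw_map, h]

theorem rs_dvd (w w' : Matrix (Fin 3) (Fin 3) ℤ) (A B : Matrix (Fin 3) (Fin 3) ℤ) (n m : ℤ)
    (h : ∀ i j, m ∣ (A + n • B).adjugate i j) : m ∣ rs w w' A B := by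
  have key : ∀ w : Matrix (Fin 3) (Fin 3) ℤ, m ∣ aw w (A + n • B) := fun w =>
    Finset.dvd_sum fun i _ => Finset.dvd_sum fun j _ => (h i j).mul_left _
  unfold rs
  apply res_dvd _ _ _ _ _ _ m n
  · rw [← aw_quad]
    exact key w
  · rw [← aw_quad]
    exact key w'

/-- the resultant as a polynomial -/
noncomputable def RP {N : ℕ} (M : Fin N → Matrix (Fin 3) (Fin 3) ℤ) (d : Fin N → ℤ)
    (w w' : Matrix (Fin 3) (Fin 3) ℤ) : MvPolynomial (Fin N) ℤ :=
  rs w w' (gm M (fun i => MvPolynomial.X i)) (gm M (fun i => MvPolynomial.C (d i)))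

theorem eval_RP {N : ℕ} (M : Fin N → Matrix (Fin 3) (Fin 3) ℤ) (d : Fin N → ℤ)
    (w w' : Matrix (Fin 3) (Fin 3) ℤ) (u : Fin N → ℤ) :
    MvPolynomial.eval u (RP M d w w') = rs w w' (gm M u) (gm M d) := by
  unfold RP
  rw [rs_map, gm_map, gm_map]
  simp

/-- the determinant as a polynomial -/
noncomputable def DP {N : ℕ} (M : Fin N → Matrix (Fin 3) (Fin 3) ℤ) : MvPolynomial (Fin N) ℤ :=
  (gm M (fun i => MvPolynomial.X i)).det

theorem eval_DP {N : ℕ} (M : Fin N → Matrix (Fin 3) (Fin 3) ℤ) (u : Fin N → ℤ) :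
    MvPolynomial.eval u (DP M) = (gm M u).det := by
  unfold DP
  rw [RingHom.map_det, RingHom.mapMatrix_apply, gm_map]
  simp

/-- the largest `k` such that `k ^ 2` divides all minors -/
noncomputable def eE (A : Matrix (Fin 3) (Fin 3) ℤ) : ℕ := by
  classical
  exact Nat.findGreatest (fun k => ∀ i j, ((k : ℤ) ^ 2) ∣ A.adjugate i j) A.det.natAbs

theorem cube_le {A : Matrix (Fin 3) (Fin 3) ℤ} (hA : A.det ≠ 0) {k : ℕ}
    (h : ∀ i j, ((k : ℤ) ^ 2) ∣ A.adjugate i j) : k ^ 3 ≤ A.det.natAbs := by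
  choose f hf using h
  have e1 : A.adjugate = ((k : ℤ) ^ 2) • (Matrix.of f) := by
    ext i j
    rw [hf i j, Matrix.smul_apply, Matrix.of_apply, smul_eq_mul]
  have e2 := Matrix.det_adjugate A
  rw [e1, Matrix.det_smul, Fintype.card_fin] at e2
  have e3 : (Matrix.of f).det ≠ 0 := by
    intro h0
    rw [h0, mul_zero] at e2
    exact pow_ne_zero _ hA e2.symm
  have e4 := congrArg Int.natAbs e2
  rw [Int.natAbs_mul, Int.natAbs_pow, Int.natAbs_pow, Int.natAbs_pow, Int.natAbs_natCast] at e4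
  have e5 : 1 ≤ (Matrix.of f).det.natAbs := Int.natAbs_pos.2 e3
  have e6 : (k ^ 3) ^ 2 ≤ A.det.natAbs ^ 2 := by
    have e7 : A.det.natAbs ^ 2 = (k ^ 2) ^ 3 * (Matrix.of f).det.natAbs := by
      rw [e4]
    rw [e7]
    calc (k ^ 3) ^ 2 = (k ^ 2) ^ 3 * 1 := by ring
      _ ≤ _ := Nat.mul_le_mul_left _ e5
  exact (Nat.pow_le_pow_iff_left (by norm_num)).1 e6

theorem eE_spec {A : Matrix (Fin 3) (Fin 3) ℤ} (hA : A.det ≠ 0) :
    ∀ i j, (((eE A : ℕ) : ℤ) ^ 2) ∣ A.adjugate i j := by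
  classical
  unfold eE
  have h := Nat.findGreatest_spec (P := fun k : ℕ => ∀ i j, ((k : ℤ) ^ 2) ∣ A.adjugate i j)
    (m := 1) (n := A.det.natAbs) (Int.natAbs_pos.2 hA) (by simp)
  exact h

theorem le_eE {A : Matrix (Fin 3) (Fin 3) ℤ} (hA : A.det ≠ 0) {k : ℕ}
    (h : ∀ i j, ((k : ℤ) ^ 2) ∣ A.adjugate i j) : k ≤ eE A := by
  classical
  unfold eE
  apply Nat.le_findGreatest _ h
  have h1 := cube_le hA h
  rcases Nat.eq_zero_or_pos k with h0 | h0
  · omega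
  · have h2 : k ≤ k ^ 3 := Nat.le_self_pow (by norm_num) k
    omega

theorem one_le_eE {A : Matrix (Fin 3) (Fin 3) ℤ} (hA : A.det ≠ 0) : 1 ≤ eE A :=
  le_eE hA (by simp)

/-- the summand -/
noncomputable def Fs (A : Matrix (Fin 3) (Fin 3) ℤ) : ℝ := by
  classical
  exact if A.det = 0 then 0 else (eE A : ℝ) / ((A.det.natAbs : ℝ) ^ ((1 : ℝ) / 3))

theorem Fs_nonneg (A : Matrix (Fin 3) (Fin 3) ℤ) : 0 ≤ Fs A := by
  unfold Fs
  split_ifs
  · exact le_rfl
  · positivity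

theorem Fs_le_one (A : Matrix (Fin 3) (Fin 3) ℤ) : Fs A ≤ 1 := by
  unfold Fs
  split_ifs with h
  · norm_num
  · have h1 := cube_le h (eE_spec h)
    have h2 : (0 : ℝ) < (A.det.natAbs : ℝ) := by exact_mod_cast Int.natAbs_pos.2 h
    rw [div_le_one (by positivity)]
    have h3 : ((eE A : ℝ) ^ 3) ^ ((1 : ℝ) / 3) ≤ (A.det.natAbs : ℝ) ^ ((1 : ℝ) / 3) :=
      Real.rpow_le_rpow (by positivity) (by exact_mod_cast h1) (by norm_num)
    rwa [← Real.rpow_natCast, ← Real.rpow_mul (by positivity),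
      show ((3 : ℕ) : ℝ) * (1 / 3) = 1 by norm_num, Real.rpow_one] at h3

/-- Averaging over lines. -/
theorem avg {N : ℕ} (d : Fin N → ℤ) (F : (Fin N → ℤ) → ℝ) (hF : ∀ x, 0 ≤ F x) (T : ℕ) :
    (2 * (T : ℝ) + 1) * ∑ x ∈ bx N T, F x ≤
      ∑ u ∈ bx N ((1 + ht d) * T), ∑ n ∈ Finset.Icc (-(T : ℤ)) T, F (u + n • d) := by
  classical
  rw [Finset.sum_comm]
  have hc : (Finset.Icc (-(T : ℤ)) T).card = 2 * T + 1 := by
    rw [Int.card_Icc]
    omega
  have h1 : (2 * (T : ℝ) + 1) * ∑ x ∈ bx N T, F x =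
      ∑ _n ∈ Finset.Icc (-(T : ℤ)) T, ∑ x ∈ bx N T, F x := by
    rw [Finset.sum_const, hc, nsmul_eq_mul]
    push_cast
    ring
  rw [h1]
  refine Finset.sum_le_sum fun n hn => ?_
  rw [Finset.mem_Icc] at hn
  have h2 : ∑ x ∈ bx N T, F x = ∑ u ∈ (bx N T).image (fun x => x - n • d), F (u + n • d) := by
    rw [Finset.sum_image]
    · refine Finset.sum_congr rfl fun x _ => ?_
      rw [sub_add_cancel]
    · intro x _ y _ h
      simpa using h
  rw [h2]
  apply Finset.sum_le_sum_of_subset_of_nonneg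
  · intro u hu
    obtain ⟨x, hx, rfl⟩ := Finset.mem_image.1 hu
    rw [mem_bx] at hx ⊢
    apply ht_le
    intro i
    have e1 := le_ht' x i
    have e2 := le_ht' d i
    have e3 : (ht x : ℤ) ≤ T := by exact_mod_cast hx
    have e4 : |n| ≤ T := abs_le.2 ⟨hn.1, hn.2⟩
    simp only [Pi.sub_apply, Pi.smul_apply, smul_eq_mul]
    calc |x i - n * d i| ≤ |x i| + |n * d i| := abs_sub _ _
      _ ≤ T + T * ht d := by
          rw [abs_mul]
          gcongr
          linarith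
      _ = (((1 + ht d) * T : ℕ) : ℤ) := by push_cast; ring
  · intro u _ _
    exact hF _

/-- The sum over a line, generic case. -/
theorem line_generic (A B : Matrix (Fin 3) (Fin 3) ℤ) (hB : B.det ≠ 0)
    (w w' : Matrix (Fin 3) (Fin 3) ℤ) (hw : aw w B ≠ 0) (hP : rs w w' A B ≠ 0) (T : ℕ) :
    ∑ n ∈ Finset.Icc (-(T : ℤ)) T, Fs (A + n • B) ≤
      ((Nat.divisors (rs w w' A B).natAbs).card : ℝ) ^ 3 *
        (36 * (aw w B).natAbs * (1 + Real.log ((2 * T + 1 : ℕ) : ℝ))) := by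
  classical
  have hlog : 0 ≤ 1 + Real.log ((2 * T + 1 : ℕ) : ℝ) := by
    have := Real.log_nonneg (by exact_mod_cast (by omega : 1 ≤ 2 * T + 1) :
      (1 : ℝ) ≤ ((2 * T + 1 : ℕ) : ℝ))
    linarith
  set P := (rs w w' A B).natAbs with hPdef
  have hP0 : P ≠ 0 := Int.natAbs_ne_zero.2 hP
  -- the polynomial
  set f : Polynomial ℤ := ((Polynomial.X : Polynomial ℤ) • B.map Polynomial.C +
    A.map Polynomial.C).det with hf
  have hfe : ∀ n : ℤ, f.eval n = (A + n • B).det := by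
    intro n
    have h1 : f.eval n = (Polynomial.evalRingHom n) f := rfl
    rw [h1, hf, RingHom.map_det]
    congr 1
    ext i j
    rw [RingHom.mapMatrix_apply, Matrix.map_apply, Matrix.add_apply, Matrix.smul_apply,
      Matrix.map_apply, Matrix.map_apply, Matrix.add_apply, Matrix.smul_apply]
    simp only [smul_eq_mul, map_add, map_mul, Polynomial.coe_evalRingHom, Polynomial.eval_X,
      Polynomial.eval_C]
    ring
  have hfd : f.natDegree = 3 := by
    apply le_antisymm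
    · have := Polynomial.natDegree_det_X_add_C_le B A
      rwa [Fintype.card_fin] at this
    · apply Polynomial.le_natDegree_of_ne_zero
      have := Polynomial.coeff_det_X_add_C_card B A
      rw [Fintype.card_fin] at this
      rw [hf, this]
      exact hB
  set S := (Finset.Icc (-(T : ℤ)) T).filter fun n => (A + n • B).det ≠ 0 with hS
  have h1 : ∑ n ∈ Finset.Icc (-(T : ℤ)) T, Fs (A + n • B) = ∑ n ∈ S, Fs (A + n • B) := by
    rw [hS, Finset.sum_filter]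
    refine Finset.sum_congr rfl fun n _ => ?_
    split_ifs with h
    · rfl
    · unfold Fs
      rw [if_pos (not_not.1 h)]
  rw [h1]
  have hdvd : ∀ n ∈ S, (((eE (A + n • B) : ℕ) : ℤ) ^ 2) ∣ rs w w' A B := by
    intro n hn
    exact rs_dvd w w' A B n _ (eE_spec (Finset.mem_filter.1 hn).2)
  have hmaps : ∀ n ∈ S, eE (A + n • B) ∈ Nat.divisors P := by
    intro n hn
    rw [Nat.mem_divisors]
    refine ⟨?_, hP0⟩
    have h2 := Int.natAbs_dvd_natAbs.2 (hdvd n hn)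
    rw [Int.natAbs_pow, Int.natAbs_natCast] at h2
    exact (dvd_pow_self _ (by norm_num)).trans h2
  rw [← Finset.sum_fiberwise_of_maps_to hmaps]
  have hfib : ∀ k ∈ Nat.divisors P, ∑ n ∈ S.filter (fun n => eE (A + n • B) = k),
      Fs (A + n • B) ≤ ((Nat.divisors P).card : ℝ) ^ 2 *
        (36 * (aw w B).natAbs * (1 + Real.log ((2 * T + 1 : ℕ) : ℝ))) := by
    intro k hk
    have hk1 : 1 ≤ k := Nat.pos_of_mem_divisors hk
    have h2 := line_quad f hfd T (aw w B) (aw w (A + B) - aw w A - aw w B) (aw w A) hw k hk1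
      (S.filter (fun n => eE (A + n • B) = k))
      (by
        intro n hn
        rw [Finset.mem_filter, hS, Finset.mem_filter, Finset.mem_Icc] at hn
        exact hn.1.1)
      (by
        intro n hn
        rw [Finset.mem_filter, hS, Finset.mem_filter] at hn
        rw [← aw_quad, ← hn.2]
        exact Finset.dvd_sum fun i _ => Finset.dvd_sum fun j _ =>
          (eE_spec hn.1.2 i j).mul_left _)
      (by
        intro n hn
        rw [Finset.mem_filter, hS, Finset.mem_filter] at hn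
        rw [hfe, ← hn.2]
        exact cube_le hn.1.2 (eE_spec hn.1.2))
    have h3 : ∑ n ∈ S.filter (fun n => eE (A + n • B) = k), Fs (A + n • B) =
        ∑ n ∈ S.filter (fun n => eE (A + n • B) = k),
          (k : ℝ) / (((f.eval n).natAbs : ℝ) ^ ((1 : ℝ) / 3)) := by
      refine Finset.sum_congr rfl fun n hn => ?_
      rw [Finset.mem_filter, hS, Finset.mem_filter] at hn
      unfold Fs
      rw [if_neg hn.1.2, hfe, hn.2]
    rw [h3]
    refine h2.trans ?_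
    have h4 : ((Nat.divisors k).card : ℝ) ≤ ((Nat.divisors P).card : ℝ) := by
      exact_mod_cast Finset.card_le_card
        (Nat.divisors_subset_of_dvd hP0 (Nat.dvd_of_mem_divisors hk))
    gcongr
  refine (Finset.sum_le_sum hfib).trans ?_
  rw [Finset.sum_const, nsmul_eq_mul]
  apply le_of_eq
  ring

/-- **The sum over the conics of a linear system.** -/
theorem esum {N : ℕ} (hN : 1 ≤ N) (M : Fin N → Matrix (Fin 3) (Fin 3) ℤ) (d : Fin N → ℤ)
    (hd : (gm M d).det ≠ 0) (w w' : Matrix (Fin 3) (Fin 3) ℤ) (hw : aw w (gm M d) ≠ 0)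
    (u0 : Fin N → ℤ) (hP : rs w w' (gm M u0) (gm M d) ≠ 0) (ε : ℝ) (hε : 0 < ε) :
    ∃ C : ℝ, 0 ≤ C ∧ ∀ T : ℕ, 1 ≤ T →
      ∑ x ∈ bx N T, Fs (gm M x) ≤ C * ((T : ℝ) ^ (N - 1) * (T : ℝ) ^ ε) := by
  classical
  set P := RP M d w w' with hPdef
  have hP0 : P ≠ 0 := by
    intro h0
    apply hP
    rw [← eval_RP, ← hPdef, h0, map_zero]
  obtain ⟨D, hD1, hD⟩ := div_bound P (ε / 6) (by positivity)
  set c : ℕ := 1 + ht d with hc
  have hc1 : (1 : ℝ) ≤ c := by exact_mod_cast (by omega : 1 ≤ c)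
  set a2 := (aw w (gm M d)).natAbs with ha2
  have hD0 : (0 : ℝ) ≤ D := by linarith
  refine ⟨P.totalDegree * 3 ^ N * (c : ℝ) ^ (N - 1) + (3 * (c : ℝ)) ^ N *
    ((D * (c : ℝ) ^ (ε / 6)) ^ 3 * (36 * a2 * (3 + 2 / ε * 3))), by positivity, ?_⟩
  intro T hT
  have hT1 : (1 : ℝ) ≤ T := by exact_mod_cast hT
  have hT0 : (0 : ℝ) < T := by linarith
  have hcT : 1 ≤ c * T := Nat.mul_pos (by omega) hT
  have havg := avg d (fun x => Fs (gm M x)) (fun x => Fs_nonneg _) T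
  rw [← hc] at havg
  have h2T : (0 : ℝ) < 2 * (T : ℝ) + 1 := by positivity
  have hlin : ∀ (u : Fin N → ℤ) (n : ℤ), gm M (u + n • d) = gm M u + n • gm M d := by
    intro u n
    rw [gm_add, gm_smul]
  -- logarithm
  have hlog : 1 + Real.log ((2 * T + 1 : ℕ) : ℝ) ≤ (3 + 2 / ε) * (T : ℝ) ^ (ε / 2) := by
    have e1 : Real.log ((2 * T + 1 : ℕ) : ℝ) ≤ Real.log (3 * (T : ℝ)) := by
      apply Real.log_le_log (by positivity)
      push_cast
      linarith
    have e2 : Real.log (3 * (T : ℝ)) = Real.log 3 + Real.log T :=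
      Real.log_mul (by norm_num) (by positivity)
    have e3 : Real.log 3 ≤ 2 := by
      have := Real.log_le_sub_one_of_pos (by norm_num : (0 : ℝ) < 3)
      linarith
    have e4 : Real.log T ≤ (T : ℝ) ^ (ε / 2) / (ε / 2) :=
      Real.log_le_rpow_div (by positivity) (by positivity)
    have e5 : (1 : ℝ) ≤ (T : ℝ) ^ (ε / 2) := Real.one_le_rpow hT1 (by positivity)
    have e6 : (T : ℝ) ^ (ε / 2) / (ε / 2) = 2 / ε * (T : ℝ) ^ (ε / 2) := by
      field_simp
    rw [e6] at e4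
    linarith
  have hlog0 : 0 ≤ 1 + Real.log ((2 * T + 1 : ℕ) : ℝ) := by
    have := Real.log_nonneg (by exact_mod_cast (by omega : 1 ≤ 2 * T + 1) :
      (1 : ℝ) ≤ ((2 * T + 1 : ℕ) : ℝ))
    linarith
  set G : ℝ := (D * ((c * T : ℕ) : ℝ) ^ (ε / 6)) ^ 3 *
    (36 * a2 * (1 + Real.log ((2 * T + 1 : ℕ) : ℝ))) with hG
  have hG0 : 0 ≤ G := by positivity
  have hinner : ∀ u ∈ bx N (c * T), ∑ n ∈ Finset.Icc (-(T : ℤ)) T, Fs (gm M (u + n • d)) ≤
      (if MvPolynomial.eval u P = 0 then 2 * (T : ℝ) + 1 else 0) + G := by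
    intro u hu
    rw [mem_bx] at hu
    split_ifs with h0
    · have e1 : ∑ n ∈ Finset.Icc (-(T : ℤ)) T, Fs (gm M (u + n • d)) ≤
          ∑ _n ∈ Finset.Icc (-(T : ℤ)) T, (1 : ℝ) :=
        Finset.sum_le_sum fun n _ => Fs_le_one _
      have hcc : (Finset.Icc (-(T : ℤ)) T).card = 2 * T + 1 := by
        rw [Int.card_Icc]
        omega
      rw [Finset.sum_const, hcc, nsmul_eq_mul] at e1
      push_cast at e1
      linarith
    · have e1 : rs w w' (gm M u) (gm M d) ≠ 0 := by rw [← eval_RP]; exact h0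
      have e2 := line_generic (gm M u) (gm M d) hd w w' hw e1 T
      rw [zero_add]
      simp only [hlin]
      refine e2.trans ?_
      have e3 := hD (c * T) hcT u hu h0
      rw [hPdef, eval_RP] at e3
      rw [hG]
      gcongr
  have hsum : (2 * (T : ℝ) + 1) * ∑ x ∈ bx N T, Fs (gm M x) ≤
      (P.totalDegree * 3 ^ N * ((c * T : ℕ) : ℝ) ^ (N - 1)) * (2 * (T : ℝ) + 1) +
        (3 * ((c * T : ℕ) : ℝ)) ^ N * G := by
    refine havg.trans ((Finset.sum_le_sum hinner).trans ?_)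
    rw [Finset.sum_add_distrib]
    have e1 : ∑ u ∈ bx N (c * T), (if MvPolynomial.eval u P = 0 then 2 * (T : ℝ) + 1 else 0) =
        (((bx N (c * T)).filter fun u => MvPolynomial.eval u P = 0).card : ℝ) *
          (2 * (T : ℝ) + 1) := by
      rw [← Finset.sum_filter, Finset.sum_const, nsmul_eq_mul]
    rw [e1, Finset.sum_const, nsmul_eq_mul]
    have e2 := zero_count hN P hP0 (c * T) hcT
    have e3 := card_bx_le N hcT
    gcongr
  -- divide by `2 T + 1`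
  have hGle : G ≤ (D * (c : ℝ) ^ (ε / 6)) ^ 3 * (36 * a2 * (3 + 2 / ε)) * (T : ℝ) ^ ε := by
    have e1 : (D * ((c * T : ℕ) : ℝ) ^ (ε / 6)) ^ 3 =
        (D * (c : ℝ) ^ (ε / 6)) ^ 3 * (T : ℝ) ^ (ε / 2) := by
      push_cast
      rw [Real.mul_rpow (by positivity) (by positivity), ← mul_assoc, mul_pow _ ((T : ℝ) ^ _),
        ← Real.rpow_natCast ((T : ℝ) ^ (ε / 6)) 3, ← Real.rpow_mul hT0.le]
      congr 2
      push_cast
      ring
    rw [hG, e1]
    calc (D * (c : ℝ) ^ (ε / 6)) ^ 3 * (T : ℝ) ^ (ε / 2) *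
          (36 * a2 * (1 + Real.log ((2 * T + 1 : ℕ) : ℝ)))
        ≤ (D * (c : ℝ) ^ (ε / 6)) ^ 3 * (T : ℝ) ^ (ε / 2) *
          (36 * a2 * ((3 + 2 / ε) * (T : ℝ) ^ (ε / 2))) := by gcongr
      _ = (D * (c : ℝ) ^ (ε / 6)) ^ 3 * (36 * a2 * (3 + 2 / ε)) *
          ((T : ℝ) ^ (ε / 2) * (T : ℝ) ^ (ε / 2)) := by ring
      _ = _ := by
          rw [← Real.rpow_add hT0]
          congr 2
          ring
  have hTN : (T : ℝ) ^ N = (T : ℝ) ^ (N - 1) * T := by
    rw [← pow_succ]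
    congr 1
    omega
  have hTε : (1 : ℝ) ≤ (T : ℝ) ^ ε := Real.one_le_rpow hT1 hε.le
  have hfin : ∑ x ∈ bx N T, Fs (gm M x) ≤
      P.totalDegree * 3 ^ N * ((c * T : ℕ) : ℝ) ^ (N - 1) +
        (3 * (c : ℝ)) ^ N * (T : ℝ) ^ (N - 1) * G := by
    have e1 : (2 * (T : ℝ) + 1) * ∑ x ∈ bx N T, Fs (gm M x) ≤ (2 * (T : ℝ) + 1) *
        (P.totalDegree * 3 ^ N * ((c * T : ℕ) : ℝ) ^ (N - 1) +
        (3 * (c : ℝ)) ^ N * (T : ℝ) ^ (N - 1) * G) := by
      refine hsum.trans ?_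
      have e2 : (3 * ((c * T : ℕ) : ℝ)) ^ N * G ≤
          (2 * (T : ℝ) + 1) * ((3 * (c : ℝ)) ^ N * (T : ℝ) ^ (N - 1) * G) := by
        have e3 : (3 * ((c * T : ℕ) : ℝ)) ^ N = (3 * (c : ℝ)) ^ N * ((T : ℝ) ^ (N - 1) * T) := by
          rw [← hTN, ← mul_pow]
          push_cast
          ring
        rw [e3]
        have e4 : (0 : ℝ) ≤ (3 * (c : ℝ)) ^ N * (T : ℝ) ^ (N - 1) * G := by positivity
        nlinarith
      linarith
    exact le_of_mul_le_mul_left e1 h2T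
  refine hfin.trans ?_
  have e1 : ((c * T : ℕ) : ℝ) ^ (N - 1) = (c : ℝ) ^ (N - 1) * (T : ℝ) ^ (N - 1) := by
    push_cast
    rw [mul_pow]
  rw [e1]
  have e2 : (P.totalDegree : ℝ) * 3 ^ N * ((c : ℝ) ^ (N - 1) * (T : ℝ) ^ (N - 1)) ≤
      P.totalDegree * 3 ^ N * (c : ℝ) ^ (N - 1) * ((T : ℝ) ^ (N - 1) * (T : ℝ) ^ ε) := by
    have e3 : (0 : ℝ) ≤ P.totalDegree * 3 ^ N * (c : ℝ) ^ (N - 1) * (T : ℝ) ^ (N - 1) := by
      positivity
    nlinarith
  have e3 : (3 * (c : ℝ)) ^ N * (T : ℝ) ^ (N - 1) * G ≤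
      (3 * (c : ℝ)) ^ N * ((D * (c : ℝ) ^ (ε / 6)) ^ 3 * (36 * a2 * (3 + 2 / ε * 3))) *
        ((T : ℝ) ^ (N - 1) * (T : ℝ) ^ ε) := by
    calc (3 * (c : ℝ)) ^ N * (T : ℝ) ^ (N - 1) * G
        ≤ (3 * (c : ℝ)) ^ N * (T : ℝ) ^ (N - 1) *
          ((D * (c : ℝ) ^ (ε / 6)) ^ 3 * (36 * a2 * (3 + 2 / ε)) * (T : ℝ) ^ ε) := by
          gcongr
      _ ≤ (3 * (c : ℝ)) ^ N * (T : ℝ) ^ (N - 1) *
          ((D * (c : ℝ) ^ (ε / 6)) ^ 3 * (36 * a2 * (3 + 2 / ε * 3)) * (T : ℝ) ^ ε) := by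
          have : (0 : ℝ) ≤ 2 / ε := by positivity
          gcongr
          linarith
      _ = _ := by ring
  linarith

end Pool.Agent.K1H65.CB
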