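import Mathlib
import Pool.Agent.K1H65.CB.Net

/-!
# Linear systems of conics without base points
-/

set_option autoImplicit false

namespace Pool.Agent.K1H65.CB

open Matrix Finset
open Pool.Agent.R38.NC (qf)

/-- no common complex zero of the quadratic forms -/
def Bpf {N : ℕ} (M : Fin N → Matrix (Fin 3) (Fin 3) ℤ) : Prop :=
  ∀ y : Fin 3 → ℂ, y ≠ 0 → ∃ i, qf ((M i).map (Int.castRingHom ℂ)) y ≠ 0

/-- linear independence over the rational numbers -/
def Ind {N : ℕ} (M : Fin N → Matrix (Fin 3) (Fin 3) ℤ) : Prop :=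
  ∀ r : Fin N → ℚ, gm M r = 0 → r = 0

theorem qf_expand {R : Type*} [CommRing R] (A : Matrix (Fin 3) (Fin 3) R) (y : Fin 3 → R) :
    qf A y = y 0 * (A 0 0 * y 0 + A 0 1 * y 1 + A 0 2 * y 2) +
      y 1 * (A 1 0 * y 0 + A 1 1 * y 1 + A 1 2 * y 2) +
      y 2 * (A 2 0 * y 0 + A 2 1 * y 1 + A 2 2 * y 2) := by
  simp [qf, dotProduct, Matrix.mulVec, Fin.sum_univ_three]

theorem qf_map {R S : Type*} [CommRing R] [CommRing S] (φ : R →+* S)
    (A : Matrix (Fin 3) (Fin 3) R) (y : Fin 3 → R) :
    qf (A.map φ) (fun i => φ (y i)) = φ (qf A y) := by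
  rw [qf_expand, qf_expand]
  simp [Matrix.map_apply]

theorem gm_apply {R : Type*} [CommRing R] {N : ℕ} (M : Fin N → Matrix (Fin 3) (Fin 3) ℤ)
    (t : Fin N → R) (j k : Fin 3) : gm M t j k = ∑ i, t i * (M i j k : R) := rfl

theorem qf_gm {R : Type*} [CommRing R] {N : ℕ} (M : Fin N → Matrix (Fin 3) (Fin 3) ℤ)
    (t : Fin N → R) (y : Fin 3 → R) :
    qf (gm M t) y = ∑ i, t i * qf ((M i).map (Int.castRingHom R)) y := by
  rw [qf_expand]
  simp only [qf_expand, gm_apply, Matrix.map_apply, Int.coe_castRingHom]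
  simp only [Finset.sum_mul, Finset.mul_sum, ← Finset.sum_add_distrib]
  refine Finset.sum_congr rfl fun i _ => ?_
  ring

theorem gm_single {N : ℕ} (M : Fin N → Matrix (Fin 3) (Fin 3) ℤ) (i : Fin N) :
    gm M (Pi.single i (1 : ℤ)) = M i := by
  ext j k
  rw [gm_apply, Finset.sum_eq_single i]
  · simp
  · intro l _ hl
    simp [Pi.single_eq_of_ne hl]
  · simp

/-- The minors of a symmetric matrix. -/
theorem minors0 {R : Type*} [CommRing R] (M : Matrix (Fin 3) (Fin 3) R) (hM : M.IsSymm)
    (h : M.adjugate = 0) (i j k : Fin 3) : M i i * M j k - M i j * M i k = 0 := by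
  have e := Matrix.adjugate_fin_three M
  have s10 : M 1 0 = M 0 1 := hM.apply 0 1
  have s20 : M 2 0 = M 0 2 := hM.apply 0 2
  have s21 : M 2 1 = M 1 2 := hM.apply 1 2
  have a00 := congrFun (congrFun h 0) 0
  have a01 := congrFun (congrFun h 0) 1
  have a02 := congrFun (congrFun h 0) 2
  have a11 := congrFun (congrFun h 1) 1
  have a12 := congrFun (congrFun h 1) 2
  have a22 := congrFun (congrFun h 2) 2
  rw [e] at a00 a01 a02 a11 a12 a22
  simp only [Matrix.of_apply, Matrix.cons_val', Matrix.cons_val_zero, Matrix.cons_val_one,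
    Matrix.cons_val, s10, s20, s21, Matrix.zero_apply] at a00 a01 a02 a11 a12 a22
  fin_cases i <;> fin_cases j <;> fin_cases k <;>
    simp only [Fin.zero_eta, Fin.mk_one, Fin.reduceFinMk, s10, s20, s21] <;>
    first
    | ring1
    | linear_combination a00
    | linear_combination a01
    | linear_combination a02
    | linear_combination a11
    | linear_combination a12
    | linear_combination a22
    | linear_combination -a00
    | linear_combination -a01
    | linear_combination -a02
    | linear_combination -a11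
    | linear_combination -a12

theorem diag_ne {R : Type*} [CommRing R] [IsDomain R] (M : Matrix (Fin 3) (Fin 3) R)
    (hM : M.IsSymm) (h : M.adjugate = 0) (h0 : M ≠ 0) : ∃ j, M j j ≠ 0 := by
  by_contra hcon
  push Not at hcon
  apply h0
  ext i j
  have h1 := minors0 M hM h i j j
  rw [hcon i, zero_mul, zero_sub, neg_eq_zero, mul_self_eq_zero] at h1
  rw [h1, Matrix.zero_apply]

theorem det_diff {R : Type*} [CommRing R] (G H : Matrix (Fin 3) (Fin 3) R) :
    (G + H).det - (G - H).det - 2 * H.det = 2 * ∑ i, ∑ k, G.adjugate i k * H k i := by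
  simp only [Matrix.det_fin_three, Matrix.adjugate_fin_three, Fin.sum_univ_three,
    Matrix.add_apply, Matrix.sub_apply, Matrix.of_apply, Matrix.cons_val', Matrix.cons_val_zero,
    Matrix.cons_val_one, Matrix.cons_val]
  ring

/-- A linear system without base points contains a smooth conic. -/
theorem exists_det_ne {N : ℕ} (M : Fin N → Matrix (Fin 3) (Fin 3) ℤ) (hM : ∀ i, (M i).IsSymm)
    (hb : ∀ y : Fin 3 → ℤ, y ≠ 0 → ∃ i, qf (M i) y ≠ 0) : ∃ d : Fin N → ℤ, (gm M d).det ≠ 0 := by
  by_contra hcon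
  push Not at hcon
  by_cases hadj : ∃ x0 : Fin N → ℤ, (gm M x0).adjugate ≠ 0
  · obtain ⟨x0, hx0⟩ := hadj
    set G := gm M x0 with hG
    have hGs : G.IsSymm := gm_symm M hM x0
    have hGd : G.det = 0 := hcon x0
    have hAs : G.adjugate.IsSymm := by
      unfold Matrix.IsSymm
      rw [Matrix.adjugate_transpose, hGs.eq]
    have hAA : G.adjugate.adjugate = 0 := by
      rw [Matrix.adjugate_adjugate _ (by simp), hGd]
      simp
    obtain ⟨j, hj⟩ := diag_ne G.adjugate hAs hAA hx0
    set y : Fin 3 → ℤ := fun i => G.adjugate i j with hy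
    have hy0 : y ≠ 0 := by
      intro h0
      exact hj (congrFun h0 j)
    obtain ⟨l, hl⟩ := hb y hy0
    apply hl
    have h1 : (G + M l).det = 0 := by
      rw [← gm_single M l, hG, ← gm_add]
      exact hcon _
    have h2 : (G - M l).det = 0 := by
      rw [← gm_single M l, hG, ← gm_sub]
      exact hcon _
    have h3 : (M l).det = 0 := by
      rw [← gm_single M l]
      exact hcon _
    have h4 := det_diff G (M l)
    rw [h1, h2, h3] at h4
    have h5 : ∑ i, ∑ k, G.adjugate i k * (M l) k i = 0 := by linarith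
    have h6 : ∀ i k, y i * y k = G.adjugate j j * G.adjugate i k := by
      intro i k
      have h7 := minors0 G.adjugate hAs hAA j i k
      rw [hy]
      simp only
      rw [hAs.apply j i, hAs.apply j k]
      linarith
    have h7 : qf (M l) y = G.adjugate j j * ∑ i, ∑ k, G.adjugate i k * (M l) k i := by
      rw [qf_expand]
      simp only [Fin.sum_univ_three]
      have s10 : (M l) 1 0 = (M l) 0 1 := (hM l).apply 0 1
      have s20 : (M l) 2 0 = (M l) 0 2 := (hM l).apply 0 2
      have s21 : (M l) 2 1 = (M l) 1 2 := (hM l).apply 1 2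
      rw [s10, s20, s21]
      linear_combination (M l) 0 0 * h6 0 0 + (M l) 0 1 * h6 0 1 + (M l) 0 2 * h6 0 2 +
        (M l) 0 1 * h6 1 0 + (M l) 1 1 * h6 1 1 + (M l) 1 2 * h6 1 2 +
        (M l) 0 2 * h6 2 0 + (M l) 1 2 * h6 2 1 + (M l) 2 2 * h6 2 2
    rw [h7, h5, mul_zero]
  · push Not at hadj
    obtain ⟨l0, hl0⟩ := hb (Pi.single 0 1) (by
      intro h0
      have := congrFun h0 0
      simp at this)
    set G := M l0 with hG
    have hGs : G.IsSymm := hM l0
    have hGa : G.adjugate = 0 := by rw [hG, ← gm_single M l0]; exact hadj _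
    have hG0 : G ≠ 0 := by
      intro h0
      apply hl0
      rw [h0]
      simp [qf]
    obtain ⟨j, hj⟩ := diag_ne G hGs hGa hG0
    obtain ⟨a, ha⟩ : ∃ a : Fin 3, a ≠ j := by
      fin_cases j
      · exact ⟨1, by decide⟩
      · exact ⟨0, by decide⟩
      · exact ⟨0, by decide⟩
    set y : Fin 3 → ℤ := fun i => if i = a then G j j else if i = j then -G j a else 0 with hy
    have hy0 : y ≠ 0 := by
      intro h0
      have h1 := congrFun h0 a
      rw [hy] at h1
      simp only [if_true, Pi.zero_apply] at h1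
      exact hj h1
    have hvy : G j 0 * y 0 + G j 1 * y 1 + G j 2 * y 2 = 0 := by
      have h1 : ∑ i, G j i * y i = G j a * y a + G j j * y j := by
        apply Finset.sum_eq_add_of_mem a j (mem_univ _) (mem_univ _) ha
        intro c _ hc
        rw [hy]
        simp [hc.1, hc.2]
      rw [Fin.sum_univ_three] at h1
      rw [h1, hy]
      simp [ha.symm]
      ring
    obtain ⟨l, hl⟩ := hb y hy0
    apply hl
    set H := M l with hH
    have hHs : H.IsSymm := hM l
    have key : ∀ i k, G j j * H i k + H j j * G i k - G j i * H j k - H j i * G j k = 0 := by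
      intro i k
      have hs : (G + H).IsSymm := by
        unfold Matrix.IsSymm
        rw [Matrix.transpose_add, hGs.eq, hHs.eq]
      have h1 := minors0 (G + H) hs (by
        rw [hG, hH, ← gm_single M l0, ← gm_single M l, ← gm_add]
        exact hadj _) j i k
      have h2 := minors0 G hGs hGa j i k
      have h3 := minors0 H hHs (by rw [hH, ← gm_single M l]; exact hadj _) j i k
      simp only [Matrix.add_apply] at h1
      linear_combination h1 - h2 - h3
    have hqG : qf G y = 0 := by
      have h1 : G j j * qf G y = 0 := by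
        rw [qf_expand]
        have h2 := fun i k => minors0 G hGs hGa j i k
        linear_combination y 0 * y 0 * h2 0 0 + y 0 * y 1 * h2 0 1 + y 0 * y 2 * h2 0 2 +
          y 1 * y 0 * h2 1 0 + y 1 * y 1 * h2 1 1 + y 1 * y 2 * h2 1 2 +
          y 2 * y 0 * h2 2 0 + y 2 * y 1 * h2 2 1 + y 2 * y 2 * h2 2 2 +
          (G j 0 * y 0 + G j 1 * y 1 + G j 2 * y 2) * hvy
      rcases mul_eq_zero.1 h1 with h2 | h2
      · exact absurd h2 hj
      · exact h2
    have h1 : G j j * qf H y = 0 := by
      rw [qf_expand] at hqG ⊢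
      linear_combination y 0 * y 0 * key 0 0 + y 0 * y 1 * key 0 1 + y 0 * y 2 * key 0 2 +
          y 1 * y 0 * key 1 0 + y 1 * y 1 * key 1 1 + y 1 * y 2 * key 1 2 +
          y 2 * y 0 * key 2 0 + y 2 * y 1 * key 2 1 + y 2 * y 2 * key 2 2 +
          2 * (H j 0 * y 0 + H j 1 * y 1 + H j 2 * y 2) * hvy - H j j * hqG
    rcases mul_eq_zero.1 h1 with h2 | h2
    · exact absurd h2 hj
    · exact h2

theorem bpf_int {N : ℕ} {M : Fin N → Matrix (Fin 3) (Fin 3) ℤ} (hb : Bpf M) :
    ∀ y : Fin 3 → ℤ, y ≠ 0 → ∃ i, qf (M i) y ≠ 0 := by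
  intro y hy
  obtain ⟨i, hi⟩ := hb (fun j => ((y j : ℤ) : ℂ)) (by
    intro h0
    apply hy
    funext j
    have := congrFun h0 j
    simpa using this)
  refine ⟨i, fun h0 => hi ?_⟩
  have := qf_map (Int.castRingHom ℂ) (M i) y
  rw [h0, map_zero] at this
  exact this

/-- Smoothness of the divisor. -/
def Smooth {N : ℕ} (M : Fin N → Matrix (Fin 3) (Fin 3) ℤ) : Prop :=
  ∀ (t : Fin N → ℂ) (y : Fin 3 → ℂ), t ≠ 0 → y ≠ 0 → qf (gm M t) y = 0 →
    (∃ i, qf ((M i).map (Int.castRingHom ℂ)) y ≠ 0) ∨ (∃ j, (gm M t).mulVec y j ≠ 0)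

theorem bpf_of_smooth {N : ℕ} (hN : 3 ≤ N) {M : Fin N → Matrix (Fin 3) (Fin 3) ℤ}
    (hs : Smooth M) : Bpf M := by
  intro y hy
  by_contra hcon
  push Not at hcon
  obtain ⟨k, hk⟩ : ∃ k, y k ≠ 0 := by
    by_contra h0
    push Not at h0
    exact hy (funext h0)
  -- the linear map
  let L : (Fin N → ℂ) →ₗ[ℂ] ({j : Fin 3 // j ≠ k} → ℂ) :=
    { toFun := fun t j => (gm M t).mulVec y j
      map_add' := by
        intro s t
        funext j
        rw [gm_add, Matrix.add_mulVec]
        rfl
      map_smul' := by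
        intro c t
        funext j
        rw [gm_smul, Matrix.smul_mulVec]
        rfl }
  have hker : LinearMap.ker L ≠ ⊥ := by
    apply LinearMap.ker_ne_bot_of_finrank_lt
    rw [Module.finrank_fintype_fun_eq_card, Module.finrank_fintype_fun_eq_card, Fintype.card_fin]
    have : Fintype.card {j : Fin 3 // j ≠ k} = 2 := by
      rw [Fintype.card_subtype_compl, Fintype.card_fin]
      simp
    omega
  obtain ⟨t, ht, ht0⟩ := (Submodule.ne_bot_iff _).1 hker
  rw [LinearMap.mem_ker] at ht
  have hj : ∀ j, j ≠ k → (gm M t).mulVec y j = 0 := fun j hj => congrFun ht ⟨j, hj⟩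
  have hq : qf (gm M t) y = 0 := by
    rw [qf_gm]
    refine Finset.sum_eq_zero fun i _ => ?_
    rw [hcon i, mul_zero]
  have hkk : (gm M t).mulVec y k = 0 := by
    have h1 : qf (gm M t) y = ∑ j, y j * (gm M t).mulVec y j := rfl
    rw [Finset.sum_eq_single k] at h1
    · rw [hq] at h1
      rcases mul_eq_zero.1 h1.symm with h2 | h2
      · exact absurd h2 hk
      · exact h2
    · intro j _ hjk
      rw [hj j hjk, mul_zero]
    · simp
  rcases hs t y ht0 hy hq with ⟨i, hi⟩ | ⟨j, hj'⟩
  · exact hi (hcon i)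
  · apply hj'
    by_cases h : j = k
    · rw [h]; exact hkk
    · exact hj j h

/-- The open subset is not empty. -/
theorem exists_point {N : ℕ} (M : Fin N → Matrix (Fin 3) (Fin 3) ℤ) (d : Fin N → ℤ)
    (hd : (gm M d).det ≠ 0) : ∃ (t : Fin N → ℂ) (y : Fin 3 → ℂ), t ≠ 0 ∧ y ≠ 0 ∧
      qf (gm M t) y = 0 ∧ (gm M t).det ≠ 0 := by
  set t : Fin N → ℂ := fun i => ((d i : ℤ) : ℂ) with ht
  have hdet : (gm M t).det ≠ 0 := by
    have h1 : gm M t = (gm M d).map (Int.castRingHom ℂ) := by
      rw [gm_map]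
      rfl
    rw [h1, ← RingHom.mapMatrix_apply, ← RingHom.map_det]
    simpa using hd
  have ht0 : t ≠ 0 := by
    intro h0
    rw [h0, gm_zero] at hdet
    simp at hdet
  set A := gm M t with hA
  by_cases h0 : A 0 0 = 0
  · refine ⟨t, ![1, 0, 0], ht0, ?_, ?_, hdet⟩
    · intro h
      have := congrFun h 0
      simp at this
    · rw [← hA, qf_expand]
      simp [h0]
  · obtain ⟨s, hs⟩ : ∃ s : ℂ, A 0 0 * (s * s) + (A 0 1 + A 1 0) * s + A 1 1 = 0 := by
      apply exists_quadratic_eq_zero h0
      exact IsAlgClosed.exists_eq_mul_self _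
    refine ⟨t, ![s, 1, 0], ht0, ?_, ?_, hdet⟩
    · intro h
      have := congrFun h 1
      simp at this
    · rw [← hA, qf_expand]
      simp
      linear_combination hs

end Pool.Agent.K1H65.CB
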