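import Mathlib
import Pool.Agent.K1H65.CB.Geo1
import Pool.Agent.K1H65.CB.ESum

/-!
# A line of conics without double lines
-/

set_option autoImplicit false

namespace Pool.Agent.K1H65.CB

open Matrix Finset
open Pool.Agent.R38.NC (qf)

theorem ind_complex {N : ℕ} {M : Fin N → Matrix (Fin 3) (Fin 3) ℤ} (hI : Ind M)
    (x : Fin N → ℂ) (hx : gm M x = 0) : x = 0 := by
  by_contra hne
  obtain ⟨k, hk⟩ : ∃ k, x k ≠ 0 := by
    by_contra h0
    push Not at h0
    exact hne (funext h0)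
  obtain ⟨g, hg⟩ := LinearMap.exists_leftInverse_of_injective
    (LinearMap.toSpanSingleton ℚ ℂ 1) (by
      rw [LinearMap.ker_eq_bot]
      intro a b h
      simp only [LinearMap.toSpanSingleton_apply, Rat.smul_one_eq_cast] at h
      exact_mod_cast h)
  have hg1 : g 1 = 1 := by
    have := LinearMap.congr_fun hg 1
    simpa using this
  have hr : gm M (fun i => g (x i / x k)) = 0 := by
    ext j l
    rw [gm_apply, Matrix.zero_apply]
    have h1 := congrFun (congrFun hx j) l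
    rw [gm_apply, Matrix.zero_apply] at h1
    have h2 : ∀ i, g (x i / x k) * ((M i j l : ℤ) : ℚ) = g (x i * ((M i j l : ℤ) : ℂ) / x k) := by
      intro i
      have h3 : x i * ((M i j l : ℤ) : ℂ) / x k = (M i j l : ℤ) • (x i / x k) := by
        rw [zsmul_eq_mul]
        ring
      rw [h3, map_zsmul, zsmul_eq_mul, mul_comm]
    simp only [h2]
    rw [← map_sum, ← Finset.sum_div, h1, zero_div, map_zero]
  have h1 := congrFun (hI _ hr) k
  simp only [div_self hk, Pi.zero_apply] at h1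
  rw [hg1] at h1
  exact one_ne_zero h1

theorem ind_int {N : ℕ} {M : Fin N → Matrix (Fin 3) (Fin 3) ℤ} (hI : Ind M)
    (x : Fin N → ℤ) (hx : gm M x = 0) : x = 0 := by
  have h1 := hI (fun i => ((x i : ℤ) : ℚ)) (by
    have h2 := gm_map (Int.castRingHom ℚ) M x
    rw [hx] at h2
    have h3 : ((0 : Matrix (Fin 3) (Fin 3) ℤ).map (Int.castRingHom ℚ)) = 0 := by
      ext i j
      simp
    rw [h3] at h2
    exact h2.symm)
  funext i
  have h2 := congrFun h1 i
  simpa using h2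

theorem rank_one (R : Matrix (Fin 3) (Fin 3) ℂ) (hR : R.IsSymm) (h : R.adjugate = 0) :
    ∃ ρ : Fin 3 → ℂ, ∀ i j, R i j = ρ i * ρ j := by
  by_cases h0 : R = 0
  · exact ⟨0, by simp [h0]⟩
  · obtain ⟨j, hj⟩ := diag_ne R hR h h0
    obtain ⟨c, hc⟩ := IsAlgClosed.exists_eq_mul_self (R j j)
    have hc0 : c ≠ 0 := by
      rintro rfl
      exact hj (by rw [hc, mul_zero])
    refine ⟨fun i => R j i / c, fun i k => ?_⟩
    have h1 := minors0 R hR h j i k
    simp only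
    rw [div_mul_div_comm, ← hc, eq_div_iff hj]
    linear_combination h1

theorem cross_zero (z p q : Fin 3 → ℂ) (k : Fin 3) (hk : z k ≠ 0)
    (hp : ∀ i j, z i * p j = z j * p i) (hq : ∀ i j, z i * q j = z j * q i) (i j : Fin 3) :
    p i * q j = p j * q i := by
  have h1 : z k * z k * (p i * q j - p j * q i) = 0 := by
    linear_combination (z k * q j) * hp k i + (z i * p k) * hq k j - (z k * q i) * hp k j -
      (z j * p k) * hq k i
  rcases mul_eq_zero.1 h1 with h2 | h2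
  · exact absurd h2 (mul_ne_zero hk hk)
  · linear_combination h2

/-- A line without double lines in a net with a smooth conic. -/
theorem pencil (A B G : Matrix (Fin 3) (Fin 3) ℂ) (hA : A.IsSymm) (hB : B.IsSymm)
    (hGs : G.IsSymm) (hG : G.det ≠ 0)
    (hI : ∀ α β γ : ℂ, α • A + β • B + γ • G = 0 → α = 0 ∧ β = 0 ∧ γ = 0) :
    ∃ c1 c2 : ℤ, ∀ t : ℂ, ((c1 : ℂ) • A + (c2 : ℂ) • B + t • G).adjugate ≠ 0 := by
  by_contra hcon
  push Not at hcon
  obtain ⟨t1, h1⟩ := hcon 1 0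
  obtain ⟨t2, h2⟩ := hcon 0 1
  obtain ⟨t3, h3⟩ := hcon 1 1
  obtain ⟨t4, h4⟩ := hcon 1 2
  have hsym : ∀ a b c : ℂ, (a • A + b • B + c • G).IsSymm := by
    intro a b c
    unfold Matrix.IsSymm
    rw [Matrix.transpose_add, Matrix.transpose_add, Matrix.transpose_smul, Matrix.transpose_smul,
      Matrix.transpose_smul, hA.eq, hB.eq, hGs.eq]
  obtain ⟨ρ, hρ⟩ := rank_one _ (hsym _ _ _) h1
  obtain ⟨σ, hσ⟩ := rank_one _ (hsym _ _ _) h2
  simp only [Int.cast_one, Int.cast_zero, one_smul, zero_smul, Matrix.add_apply,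
    Matrix.smul_apply, smul_eq_mul, add_zero, zero_add] at hρ hσ
  have g10 : G 1 0 = G 0 1 := hGs.apply 0 1
  have g20 : G 2 0 = G 0 2 := hGs.apply 0 2
  have g21 : G 2 1 = G 1 2 := hGs.apply 1 2
  set z : Fin 3 → ℂ := ![ρ 1 * σ 2 - ρ 2 * σ 1, ρ 2 * σ 0 - ρ 0 * σ 2, ρ 0 * σ 1 - ρ 1 * σ 0]
    with hz
  have z0 : z 0 = ρ 1 * σ 2 - ρ 2 * σ 1 := rfl
  have z1 : z 1 = ρ 2 * σ 0 - ρ 0 * σ 2 := rfl
  have z2 : z 2 = ρ 0 * σ 1 - ρ 1 * σ 0 := rfl
  have hzne : ∃ k, z k ≠ 0 := by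
    by_contra hz0
    push Not at hz0
    have e0 := hz0 0
    have e1 := hz0 1
    have e2 := hz0 2
    rw [z0] at e0
    rw [z1] at e1
    rw [z2] at e2
    have hpar : ∀ k i, σ k * ρ i = ρ k * σ i := by
      intro k i
      fin_cases k <;> fin_cases i <;> simp only [Fin.zero_eta, Fin.mk_one, Fin.reduceFinMk] <;>
        first
        | ring1
        | linear_combination e0
        | linear_combination e1
        | linear_combination e2
        | linear_combination -e0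
        | linear_combination -e1
        | linear_combination -e2
    have hrel : ∀ k, σ k * σ k = 0 ∧ -(ρ k * ρ k) = 0 ∧ σ k * σ k * t1 - ρ k * ρ k * t2 = 0 := by
      intro k
      apply hI
      ext i j
      simp only [Matrix.add_apply, Matrix.smul_apply, Matrix.zero_apply, smul_eq_mul]
      linear_combination (σ k * σ k) * hρ i j - (ρ k * ρ k) * hσ i j + (σ k * ρ j) * hpar k i +
        (ρ k * σ i) * hpar k j
    have hρ0 : ∀ k, ρ k = 0 := by
      intro k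
      have := (hrel k).2.1
      rw [neg_eq_zero, mul_self_eq_zero] at this
      exact this
    have := hI 1 0 t1 (by
      ext i j
      simp only [Matrix.add_apply, Matrix.smul_apply, Matrix.zero_apply, smul_eq_mul]
      rw [one_mul, zero_mul, add_zero, hρ i j, hρ0 i, zero_mul])
    exact one_ne_zero this.1
  -- the third and the fourth double line
  set s3 := t3 - t1 - t2 with hs3
  set s4 := t4 - t1 - 2 * t2 with hs4
  have w3 : ∀ i j, (((1 : ℤ) : ℂ) • A + ((1 : ℤ) : ℂ) • B + t3 • G) i j =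
      ρ i * ρ j + σ i * σ j + s3 * G i j := by
    intro i j
    simp only [Int.cast_one, one_smul, Matrix.add_apply, Matrix.smul_apply, smul_eq_mul]
    rw [← hρ i j, ← hσ i j, hs3]
    ring
  have w4 : ∀ i j, (((1 : ℤ) : ℂ) • A + ((2 : ℤ) : ℂ) • B + t4 • G) i j =
      ρ i * ρ j + 2 * (σ i * σ j) + s4 * G i j := by
    intro i j
    simp only [Int.cast_one, Int.cast_ofNat, one_smul, Matrix.add_apply, Matrix.smul_apply,
      smul_eq_mul]
    rw [← hρ i j, ← hσ i j, hs4]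
    ring
  rw [Matrix.adjugate_fin_three] at h3 h4
  simp only [w3] at h3
  simp only [w4] at h4
  have a00 := congrFun (congrFun h3 0) 0
  have a01 := congrFun (congrFun h3 0) 1
  have a02 := congrFun (congrFun h3 0) 2
  have a11 := congrFun (congrFun h3 1) 1
  have a12 := congrFun (congrFun h3 1) 2
  have a22 := congrFun (congrFun h3 2) 2
  have b00 := congrFun (congrFun h4 0) 0
  have b01 := congrFun (congrFun h4 0) 1
  have b02 := congrFun (congrFun h4 0) 2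
  have b11 := congrFun (congrFun h4 1) 1
  have b12 := congrFun (congrFun h4 1) 2
  have b22 := congrFun (congrFun h4 2) 2
  simp only [Matrix.of_apply, Matrix.cons_val', Matrix.cons_val_zero, Matrix.cons_val_one,
    Matrix.cons_val, g10, g20, g21, Matrix.zero_apply] at a00 a01 a02 a11 a12 a22 b00 b01 b02 b11 b12 b22
  obtain ⟨g, hg⟩ : ∃ g, g = G 0 0 * z 0 ^ 2 + G 1 1 * z 1 ^ 2 + G 2 2 * z 2 ^ 2 +
    2 * G 0 1 * z 0 * z 1 + 2 * G 0 2 * z 0 * z 2 + 2 * G 1 2 * z 1 * z 2 := ⟨_, rfl⟩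
  obtain ⟨p0, hp0⟩ : ∃ p, p = (G 1 1 * G 2 2 - G 1 2 ^ 2) * ρ 0 +
    (G 0 2 * G 1 2 - G 0 1 * G 2 2) * ρ 1 + (G 0 1 * G 1 2 - G 0 2 * G 1 1) * ρ 2 := ⟨_, rfl⟩
  obtain ⟨p1, hp1⟩ : ∃ p, p = (G 0 2 * G 1 2 - G 0 1 * G 2 2) * ρ 0 +
    (G 0 0 * G 2 2 - G 0 2 ^ 2) * ρ 1 + (G 0 1 * G 0 2 - G 0 0 * G 1 2) * ρ 2 := ⟨_, rfl⟩
  obtain ⟨p2, hp2⟩ : ∃ p, p = (G 0 1 * G 1 2 - G 0 2 * G 1 1) * ρ 0 +
    (G 0 1 * G 0 2 - G 0 0 * G 1 2) * ρ 1 + (G 0 0 * G 1 1 - G 0 1 ^ 2) * ρ 2 := ⟨_, rfl⟩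
  obtain ⟨q0, hq0⟩ : ∃ p, p = (G 1 1 * G 2 2 - G 1 2 ^ 2) * σ 0 +
    (G 0 2 * G 1 2 - G 0 1 * G 2 2) * σ 1 + (G 0 1 * G 1 2 - G 0 2 * G 1 1) * σ 2 := ⟨_, rfl⟩
  obtain ⟨q1, hq1⟩ : ∃ p, p = (G 0 2 * G 1 2 - G 0 1 * G 2 2) * σ 0 +
    (G 0 0 * G 2 2 - G 0 2 ^ 2) * σ 1 + (G 0 1 * G 0 2 - G 0 0 * G 1 2) * σ 2 := ⟨_, rfl⟩
  obtain ⟨q2, hq2⟩ : ∃ p, p = (G 0 1 * G 1 2 - G 0 2 * G 1 1) * σ 0 +
    (G 0 1 * G 0 2 - G 0 0 * G 1 2) * σ 1 + (G 0 0 * G 1 1 - G 0 1 ^ 2) * σ 2 := ⟨_, rfl⟩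
  obtain ⟨k, hk⟩ := hzne
  -- the values at the two points
  have F1 : s3 * (g + s3 * (ρ 0 * p0 + ρ 1 * p1 + ρ 2 * p2)) = 0 := by
    rw [hg, hp0, hp1, hp2, z0, z1, z2]
    linear_combination ρ 0 ^ 2 * a00 + 2 * ρ 0 * ρ 1 * a01 + 2 * ρ 0 * ρ 2 * a02 +
      ρ 1 ^ 2 * a11 + 2 * ρ 1 * ρ 2 * a12 + ρ 2 ^ 2 * a22
  have F2 : s3 * (g + s3 * (σ 0 * q0 + σ 1 * q1 + σ 2 * q2)) = 0 := by
    rw [hg, hq0, hq1, hq2, z0, z1, z2]
    linear_combination σ 0 ^ 2 * a00 + 2 * σ 0 * σ 1 * a01 + 2 * σ 0 * σ 2 * a02 +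
      σ 1 ^ 2 * a11 + 2 * σ 1 * σ 2 * a12 + σ 2 ^ 2 * a22
  have F3 : s3 * (s3 * (σ 0 * p0 + σ 1 * p1 + σ 2 * p2) - g * 0) = 0 := by
    rw [hg, hp0, hp1, hp2, z0, z1, z2]
    linear_combination σ 0 * ρ 0 * a00 + (σ 0 * ρ 1 + σ 1 * ρ 0) * a01 +
      (σ 0 * ρ 2 + σ 2 * ρ 0) * a02 + σ 1 * ρ 1 * a11 + (σ 1 * ρ 2 + σ 2 * ρ 1) * a12 +
      σ 2 * ρ 2 * a22
  have F4 : s4 * (2 * g + s4 * (ρ 0 * p0 + ρ 1 * p1 + ρ 2 * p2)) = 0 := by
    rw [hg, hp0, hp1, hp2, z0, z1, z2]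
    linear_combination ρ 0 ^ 2 * b00 + 2 * ρ 0 * ρ 1 * b01 + 2 * ρ 0 * ρ 2 * b02 +
      ρ 1 ^ 2 * b11 + 2 * ρ 1 * ρ 2 * b12 + ρ 2 ^ 2 * b22
  have F5 : s4 * (g + s4 * (σ 0 * q0 + σ 1 * q1 + σ 2 * q2)) = 0 := by
    rw [hg, hq0, hq1, hq2, z0, z1, z2]
    linear_combination σ 0 ^ 2 * b00 + 2 * σ 0 * σ 1 * b01 + 2 * σ 0 * σ 2 * b02 +
      σ 1 ^ 2 * b11 + 2 * σ 1 * σ 2 * b12 + σ 2 ^ 2 * b22
  have hs30 : s3 ≠ 0 := by
    intro h0
    rw [h0] at a00 a11 a22
    apply hk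
    have e0 : z 0 * z 0 = 0 := by rw [z0]; linear_combination a00
    have e1 : z 1 * z 1 = 0 := by rw [z1]; linear_combination a11
    have e2 : z 2 * z 2 = 0 := by rw [z2]; linear_combination a22
    have e : ∀ k, z k * z k = 0 := by
      intro k
      fin_cases k
      · exact e0
      · exact e1
      · exact e2
    exact mul_self_eq_zero.1 (e k)
  have hs40 : s4 ≠ 0 := by
    intro h0
    rw [h0] at b00 b11 b22
    apply hk
    have e0 : z 0 * z 0 = 0 := by rw [z0]; linear_combination b00 / 2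
    have e1 : z 1 * z 1 = 0 := by rw [z1]; linear_combination b11 / 2
    have e2 : z 2 * z 2 = 0 := by rw [z2]; linear_combination b22 / 2
    have e : ∀ k, z k * z k = 0 := by
      intro k
      fin_cases k
      · exact e0
      · exact e1
      · exact e2
    exact mul_self_eq_zero.1 (e k)
  have G1 := (mul_eq_zero.1 F1).resolve_left hs30
  have G2 := (mul_eq_zero.1 F2).resolve_left hs30
  have G3 := (mul_eq_zero.1 F3).resolve_left hs30
  have G4 := (mul_eq_zero.1 F4).resolve_left hs40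
  have G5 := (mul_eq_zero.1 F5).resolve_left hs40
  have H12 : ρ 0 * p0 + ρ 1 * p1 + ρ 2 * p2 = σ 0 * q0 + σ 1 * q1 + σ 2 * q2 := by
    have : s3 * ((ρ 0 * p0 + ρ 1 * p1 + ρ 2 * p2) - (σ 0 * q0 + σ 1 * q1 + σ 2 * q2)) = 0 := by
      linear_combination G1 - G2
    have := (mul_eq_zero.1 this).resolve_left hs30
    linear_combination this
  have hg0 : g = 0 := by
    rw [H12] at G4
    linear_combination G4 - G5
  have P11 : ρ 0 * p0 + ρ 1 * p1 + ρ 2 * p2 = 0 := by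
    rw [hg0, zero_add] at G1
    exact (mul_eq_zero.1 G1).resolve_left hs30
  have P22 : σ 0 * q0 + σ 1 * q1 + σ 2 * q2 = 0 := by rw [← H12, P11]
  have P21 : σ 0 * p0 + σ 1 * p1 + σ 2 * p2 = 0 := by
    rw [mul_zero, sub_zero] at G3
    exact (mul_eq_zero.1 G3).resolve_left hs30
  have P12 : ρ 0 * q0 + ρ 1 * q1 + ρ 2 * q2 = 0 := by
    have : ρ 0 * q0 + ρ 1 * q1 + ρ 2 * q2 = σ 0 * p0 + σ 1 * p1 + σ 2 * p2 := by
      rw [hp0, hp1, hp2, hq0, hq1, hq2]
      ring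
    rw [this, P21]
  -- everything is parallel to `z`
  have hzp : ∀ i j, z i * (![p0, p1, p2] : Fin 3 → ℂ) j = z j * (![p0, p1, p2] : Fin 3 → ℂ) i := by
    intro i j
    fin_cases i <;> fin_cases j <;> simp only [Fin.zero_eta, Fin.mk_one, Fin.reduceFinMk, z0, z1,
      z2, Matrix.cons_val_zero, Matrix.cons_val_one, Matrix.cons_val] <;>
      first
      | ring1
      | linear_combination σ 2 * P11 - ρ 2 * P21
      | linear_combination σ 1 * P11 - ρ 1 * P21
      | linear_combination σ 0 * P11 - ρ 0 * P21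
      | linear_combination -σ 2 * P11 + ρ 2 * P21
      | linear_combination -σ 1 * P11 + ρ 1 * P21
      | linear_combination -σ 0 * P11 + ρ 0 * P21
  have hzq : ∀ i j, z i * (![q0, q1, q2] : Fin 3 → ℂ) j = z j * (![q0, q1, q2] : Fin 3 → ℂ) i := by
    intro i j
    fin_cases i <;> fin_cases j <;> simp only [Fin.zero_eta, Fin.mk_one, Fin.reduceFinMk, z0, z1,
      z2, Matrix.cons_val_zero, Matrix.cons_val_one, Matrix.cons_val] <;>
      first
      | ring1
      | linear_combination σ 2 * P12 - ρ 2 * P22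
      | linear_combination σ 1 * P12 - ρ 1 * P22
      | linear_combination σ 0 * P12 - ρ 0 * P22
      | linear_combination -σ 2 * P12 + ρ 2 * P22
      | linear_combination -σ 1 * P12 + ρ 1 * P22
      | linear_combination -σ 0 * P12 + ρ 0 * P22
  have hpq := cross_zero z _ _ k hk hzp hzq
  have c01 := hpq 0 1
  have c02 := hpq 0 2
  have c12 := hpq 1 2
  simp only [Matrix.cons_val_zero, Matrix.cons_val_one, Matrix.cons_val] at c01 c02 c12
  have hdet : G.det = G 0 0 * (G 1 1 * G 2 2 - G 1 2 ^ 2) +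
      G 0 1 * (G 0 2 * G 1 2 - G 0 1 * G 2 2) + G 0 2 * (G 0 1 * G 1 2 - G 0 2 * G 1 1) := by
    rw [Matrix.det_fin_three, g10, g20, g21]
    ring
  have hmz : G.mulVec z = 0 := by
    have k0 : G.det * (G 0 0 * z 0 + G 0 1 * z 1 + G 0 2 * z 2) = 0 := by
      rw [hdet, z0, z1, z2]
      rw [hp1, hp2, hq1, hq2] at c12
      linear_combination c12
    have k1 : G.det * (G 0 1 * z 0 + G 1 1 * z 1 + G 1 2 * z 2) = 0 := by
      rw [hdet, z0, z1, z2]
      rw [hp0, hp2, hq0, hq2] at c02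
      linear_combination -c02
    have k2 : G.det * (G 0 2 * z 0 + G 1 2 * z 1 + G 2 2 * z 2) = 0 := by
      rw [hdet, z0, z1, z2]
      rw [hp0, hp1, hq0, hq1] at c01
      linear_combination c01
    funext i
    fin_cases i
    · simp only [Matrix.mulVec, dotProduct, Fin.sum_univ_three, Pi.zero_apply, Fin.zero_eta]
      exact (mul_eq_zero.1 k0).resolve_left hG
    · simp only [Matrix.mulVec, dotProduct, Fin.sum_univ_three, Pi.zero_apply, Fin.mk_one, g10]
      exact (mul_eq_zero.1 k1).resolve_left hG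
    · simp only [Matrix.mulVec, dotProduct, Fin.sum_univ_three, Pi.zero_apply, Fin.reduceFinMk,
        g20, g21]
      exact (mul_eq_zero.1 k2).resolve_left hG
  have := Matrix.eq_zero_of_mulVec_eq_zero hG hmz
  exact hk (congrFun this k)

theorem aw_add {R : Type*} [CommRing R] (w w' : Matrix (Fin 3) (Fin 3) ℤ)
    (X : Matrix (Fin 3) (Fin 3) R) : aw (w + w') X = aw w X + aw w' X := by
  unfold aw
  simp only [Matrix.add_apply, Int.cast_add, add_mul, Finset.sum_add_distrib]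

theorem aw_single {R : Type*} [CommRing R] (i j : Fin 3) (X : Matrix (Fin 3) (Fin 3) R) :
    aw (Matrix.single i j 1) X = X.adjugate i j := by
  unfold aw
  rw [Finset.sum_eq_single i, Finset.sum_eq_single j]
  · simp
  · intro b _ hb
    simp [Matrix.single, hb.symm]
  · simp
  · intro b _ hb
    refine Finset.sum_eq_zero fun c _ => ?_
    simp [Matrix.single, hb.symm]
  · simp

theorem exists_entry {R : Type*} [CommRing R] (X : Matrix (Fin 3) (Fin 3) R) (hX : X ≠ 0) :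
    ∃ i j, X i j ≠ 0 := by
  by_contra hcon
  push Not at hcon
  apply hX
  ext i j
  exact hcon i j

theorem exists_weight (X Y : Matrix (Fin 3) (Fin 3) ℂ) (hX : X.adjugate ≠ 0)
    (hY : Y.adjugate ≠ 0) : ∃ w : Matrix (Fin 3) (Fin 3) ℤ, aw w X ≠ 0 ∧ aw w Y ≠ 0 := by
  obtain ⟨i, j, hij⟩ := exists_entry _ hX
  obtain ⟨k, l, hkl⟩ := exists_entry _ hY
  by_cases h1 : Y.adjugate i j = 0
  · by_cases h2 : X.adjugate k l = 0
    · refine ⟨Matrix.single i j 1 + Matrix.single k l 1, ?_, ?_⟩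
      · rw [aw_add, aw_single, aw_single, h2, add_zero]
        exact hij
      · rw [aw_add, aw_single, aw_single, h1, zero_add]
        exact hkl
    · exact ⟨Matrix.single k l 1, by rwa [aw_single], by rwa [aw_single]⟩
  · exact ⟨Matrix.single i j 1, by rwa [aw_single], by rwa [aw_single]⟩

/-- The line and the weights. -/
theorem exists_pencil {N : ℕ} (hN : 3 ≤ N) (M : Fin N → Matrix (Fin 3) (Fin 3) ℤ)
    (hM : ∀ i, (M i).IsSymm) (hI : Ind M) (d : Fin N → ℤ) (hd : (gm M d).det ≠ 0) :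
    ∃ (w w' : Matrix (Fin 3) (Fin 3) ℤ) (u0 : Fin N → ℤ), aw w (gm M d) ≠ 0 ∧
      rs w w' (gm M u0) (gm M d) ≠ 0 := by
  obtain ⟨k, hk⟩ : ∃ k, d k ≠ 0 := by
    by_contra h0
    push Not at h0
    have : d = 0 := funext h0
    rw [this, gm_zero] at hd
    simp at hd
  obtain ⟨i, j, hik, hjk, hij⟩ : ∃ i j : Fin N, i ≠ k ∧ j ≠ k ∧ i ≠ j := by
    have hc : 1 < (Finset.univ.erase k).card := by
      rw [Finset.card_erase_of_mem (mem_univ _), Finset.card_univ, Fintype.card_fin]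
      omega
    obtain ⟨i, hi, j, hj, hij⟩ := Finset.one_lt_card.1 hc
    exact ⟨i, j, (Finset.mem_erase.1 hi).1, (Finset.mem_erase.1 hj).1, hij⟩
  set a : Fin N → ℤ := Pi.single i 1 with ha
  set b : Fin N → ℤ := Pi.single j 1 with hb
  set cst : (Fin N → ℤ) → (Fin N → ℂ) := fun x l => ((x l : ℤ) : ℂ) with hcst
  have hcm : ∀ x : Fin N → ℤ, gm M (cst x) = (gm M x).map (Int.castRingHom ℂ) := by
    intro x
    rw [gm_map]
    rfl
  have hdC : (gm M (cst d)).det ≠ 0 := by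
    rw [hcm, ← RingHom.mapMatrix_apply, ← RingHom.map_det]
    simpa using hd
  have hind : ∀ α β γ : ℂ, α • gm M (cst a) + β • gm M (cst b) + γ • gm M (cst d) = 0 →
      α = 0 ∧ β = 0 ∧ γ = 0 := by
    intro α β γ h
    rw [← gm_smul, ← gm_smul, ← gm_smul, ← gm_add, ← gm_add] at h
    have h1 := ind_complex hI _ h
    have e1 := congrFun h1 k
    have e2 := congrFun h1 i
    have e3 := congrFun h1 j
    simp only [hcst, ha, hb, Pi.add_apply, Pi.smul_apply, smul_eq_mul, Pi.zero_apply,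
      Pi.single_eq_of_ne hik.symm, Pi.single_eq_of_ne hjk.symm, Int.cast_zero, mul_zero,
      zero_add] at e1
    have hγ : γ = 0 := by
      rcases mul_eq_zero.1 e1 with h2 | h2
      · exact h2
      · exact absurd (by exact_mod_cast h2) hk
    simp only [hcst, ha, hb, Pi.add_apply, Pi.smul_apply, smul_eq_mul, Pi.zero_apply,
      Pi.single_eq_same, Pi.single_eq_of_ne hij, Int.cast_zero, mul_zero, Int.cast_one, mul_one,
      hγ, zero_mul, add_zero] at e2
    simp only [hcst, ha, hb, Pi.add_apply, Pi.smul_apply, smul_eq_mul, Pi.zero_apply,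
      Pi.single_eq_same, Pi.single_eq_of_ne hij.symm, Int.cast_zero, mul_zero, Int.cast_one,
      mul_one, hγ, zero_mul, add_zero, zero_add] at e3
    exact ⟨e2, e3, hγ⟩
  obtain ⟨c1, c2, hc⟩ := pencil _ _ _ (gm_symm M hM (cst a)) (gm_symm M hM (cst b))
    (gm_symm M hM (cst d)) hdC hind
  set u0 : Fin N → ℤ := c1 • a + c2 • b with hu0
  have hu0C : gm M (cst u0) = (c1 : ℂ) • gm M (cst a) + (c2 : ℂ) • gm M (cst b) := by
    rw [← gm_smul, ← gm_smul, ← gm_add]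
    congr 1
    funext l
    simp [hcst, hu0]
  have hadj : (gm M d).adjugate ≠ 0 := by
    intro h0
    have h1 := Matrix.mul_adjugate (gm M d)
    rw [h0, Matrix.mul_zero] at h1
    apply hd
    have h2 := congrFun (congrFun h1 0) 0
    simpa using h2.symm
  obtain ⟨i0, j0, h0⟩ := exists_entry _ hadj
  set w : Matrix (Fin 3) (Fin 3) ℤ := Matrix.single i0 j0 1 with hw
  have hwd : aw w (gm M d) ≠ 0 := by rw [hw, aw_single]; exact h0
  set A0 := gm M (cst u0) with hA0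
  set G := gm M (cst d) with hG
  have hwG : aw w G ≠ 0 := by
    rw [hG, hcm, ← aw_map]
    simpa using hwd
  obtain ⟨r1, hr1⟩ : ∃ r : ℂ, aw w G * (r * r) + (aw w (A0 + G) - aw w A0 - aw w G) * r +
      aw w A0 = 0 := exists_quadratic_eq_zero hwG (IsAlgClosed.exists_eq_mul_self _)
  set a2 := aw w G with ha2
  set a1 := aw w (A0 + G) - aw w A0 - aw w G with ha1
  set a0 := aw w A0 with ha0
  set r2 := -a1 / a2 - r1 with hr2
  have hE1 : (A0 + r1 • G).adjugate ≠ 0 := by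
    rw [hu0C]
    exact hc r1
  have hE2 : (A0 + r2 • G).adjugate ≠ 0 := by
    rw [hu0C]
    exact hc r2
  obtain ⟨w', hw1, hw2⟩ := exists_weight _ _ hE1 hE2
  refine ⟨w, w', u0, hwd, ?_⟩
  intro hres
  have hresC : rs w w' A0 G = 0 := by
    rw [hA0, hG, hcm, hcm, ← rs_map, hres, map_zero]
  unfold rs res at hresC
  rw [← ha2, ← ha1, ← ha0] at hresC
  rw [aw_quad] at hw1 hw2
  set b2 := aw w' G with hb2
  set b1 := aw w' (A0 + G) - aw w' A0 - aw w' G with hb1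
  set b0 := aw w' A0 with hb0
  have e1 : a1 = -a2 * (r1 + r2) := by
    rw [hr2]
    field_simp
    ring
  have e0 : a0 = a2 * (r1 * r2) := by
    have : a0 = -(a2 * (r1 * r1) + a1 * r1) := by linear_combination hr1
    rw [this, e1]
    ring
  have key : a2 ^ 2 * ((b2 * r1 ^ 2 + b1 * r1 + b0) * (b2 * r2 ^ 2 + b1 * r2 + b0)) = 0 := by
    rw [e1, e0] at hresC
    linear_combination hresC
  exact mul_ne_zero (pow_ne_zero 2 hwG) (mul_ne_zero hw1 hw2) key

end Pool.Agent.K1H65.CB
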