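import Mathlib
import Pool.Agent.K1H65.CB.Geo2
import Pool.Agent.H548.BL.Cnt
import Pool.Agent.R38.NC.Coni
import Pool.Agent.R38.NC.Bas2

/-!
# Conics which contain a given line
-/

set_option autoImplicit false

namespace Pool.Agent.K1H65.CB

open Matrix Finset Module
open Pool.Agent.H548.WM (ht bx mem_bx le_ht' ht_le card_bx_le Rep exists_ht ht_pos hyp)
open Pool.Agent.H548.BL (rc doubling orth mem_orth finrank_orth rc_dot)
open Pool.Agent.R38.NC (qf Prim rep_prim rep_neg bezout3)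

/-- the parameters of the conics which contain the line `v` -/
def vlat {N : ℕ} (M : Fin N → Matrix (Fin 3) (Fin 3) ℤ) (v : Fin 3 → ℤ) :
    AddSubgroup (Fin N → ℤ) where
  carrier := {x | ∀ y : Fin 3 → ℤ, v ⬝ᵥ y = 0 → qf (gm M x) y = 0}
  add_mem' := by
    intro a b ha hb y hy
    have h1 := ha y hy
    have h2 := hb y hy
    rw [qf_gm] at h1 h2 ⊢
    simp only [Pi.add_apply, add_mul, Finset.sum_add_distrib]
    rw [h1, h2, add_zero]
  zero_mem' := by
    intro y _
    rw [gm_zero]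
    simp [qf]
  neg_mem' := by
    intro a ha y hy
    have h1 := ha y hy
    rw [qf_gm] at h1 ⊢
    simp only [Pi.neg_apply, neg_mul, Finset.sum_neg_distrib]
    rw [h1, neg_zero]

theorem mem_vlat {N : ℕ} {M : Fin N → Matrix (Fin 3) (Fin 3) ℤ} {v : Fin 3 → ℤ}
    {x : Fin N → ℤ} : x ∈ vlat M v ↔ ∀ y : Fin 3 → ℤ, v ⬝ᵥ y = 0 → qf (gm M x) y = 0 := Iff.rfl

theorem dot3 {R : Type*} [CommRing R] (v y : Fin 3 → R) :
    v ⬝ᵥ y = v 0 * y 0 + v 1 * y 1 + v 2 * y 2 := by
  rw [dotProduct, Fin.sum_univ_three]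

/-- the polarised form -/
def bf {R : Type*} [CommRing R] (A : Matrix (Fin 3) (Fin 3) R) (p q : Fin 3 → R) : R :=
  p ⬝ᵥ A.mulVec q

theorem qf_lin {R : Type*} [CommRing R] (A : Matrix (Fin 3) (Fin 3) R) (hA : A.IsSymm)
    (p q : Fin 3 → R) (s t : R) :
    qf A (fun i => s * p i + t * q i) = s ^ 2 * qf A p + 2 * s * t * bf A p q + t ^ 2 * qf A q := by
  have s10 : A 1 0 = A 0 1 := hA.apply 0 1
  have s20 : A 2 0 = A 0 2 := hA.apply 0 2
  have s21 : A 2 1 = A 1 2 := hA.apply 1 2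
  simp only [qf_expand, bf, dotProduct, Matrix.mulVec, Fin.sum_univ_three, s10, s20, s21]
  ring

theorem bf_gm {N : ℕ} (M : Fin N → Matrix (Fin 3) (Fin 3) ℤ) (t : Fin N → ℤ)
    (p q : Fin 3 → ℤ) : bf (gm M t) p q = ∑ i, t i * bf (M i) p q := by
  simp only [bf, dotProduct, Matrix.mulVec, Fin.sum_univ_three, gm_apply, Int.cast_id]
  simp only [Finset.sum_mul, Finset.mul_sum, ← Finset.sum_add_distrib]
  refine Finset.sum_congr rfl fun i _ => ?_
  ring

theorem bf_map {R S : Type*} [CommRing R] [CommRing S] (φ : R →+* S)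
    (A : Matrix (Fin 3) (Fin 3) R) (p q : Fin 3 → R) :
    bf (A.map φ) (fun i => φ (p i)) (fun i => φ (q i)) = φ (bf A p q) := by
  simp [bf, dotProduct, Matrix.mulVec, Fin.sum_univ_three]

theorem qf_gm_int {N : ℕ} (M : Fin N → Matrix (Fin 3) (Fin 3) ℤ)
    (t : Fin N → ℤ) (y : Fin 3 → ℤ) :
    qf (gm M t) y = ∑ i, t i * qf (M i) y := by
  rw [qf_gm]
  refine Finset.sum_congr rfl fun i _ => ?_
  congr 2

/-- The conics which contain a line form a subsystem of codimension at least two. -/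
theorem rank_two {N : ℕ} {M : Fin N → Matrix (Fin 3) (Fin 3) ℤ} (hM : ∀ i, (M i).IsSymm)
    (hb : Bpf M) (v : Fin 3 → ℤ) (hv : v ≠ 0) :
    ∃ w : Fin 2 → Fin N → ℤ, LinearIndependent ℤ w ∧ ∀ x ∈ vlat M v, ∀ i, w i ⬝ᵥ x = 0 := by
  obtain ⟨k, hk⟩ : ∃ k, v k ≠ 0 := by
    by_contra h0
    push Not at h0
    exact hv (funext h0)
  obtain ⟨i, j, hik, hjk, hij⟩ : ∃ i j : Fin 3, i ≠ k ∧ j ≠ k ∧ i ≠ j := by
    fin_cases k
    · exact ⟨1, 2, by decide, by decide, by decide⟩
    · exact ⟨0, 2, by decide, by decide, by decide⟩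
    · exact ⟨0, 1, by decide, by decide, by decide⟩
  set p : Fin 3 → ℤ := v k • Pi.single i 1 - v i • Pi.single k 1 with hp
  set q : Fin 3 → ℤ := v k • Pi.single j 1 - v j • Pi.single k 1 with hq
  have hvp : v ⬝ᵥ p = 0 := by
    rw [hp, dotProduct_sub, dotProduct_smul, dotProduct_smul, dotProduct_single,
      dotProduct_single]
    simp only [smul_eq_mul]
    ring
  have hvq : v ⬝ᵥ q = 0 := by
    rw [hq, dotProduct_sub, dotProduct_smul, dotProduct_smul, dotProduct_single,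
      dotProduct_single]
    simp only [smul_eq_mul]
    ring
  have hpi : p i = v k := by
    rw [hp]
    simp [Pi.single_eq_of_ne hik]
  have hpj : p j = 0 := by
    rw [hp]
    simp [Pi.single_eq_of_ne hij.symm, Pi.single_eq_of_ne hjk]
  have hqj : q j = v k := by
    rw [hq]
    simp [Pi.single_eq_of_ne hjk]
  have hp0 : p ≠ 0 := by
    intro h0
    rw [h0] at hpi
    exact hk hpi.symm
  have hq0 : q ≠ 0 := by
    intro h0
    rw [h0] at hqj
    exact hk hqj.symm
  set a : Fin N → ℤ := fun l => qf (M l) p with ha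
  set b : Fin N → ℤ := fun l => bf (M l) p q with hbdef
  set c : Fin N → ℤ := fun l => qf (M l) q with hc
  have hax : ∀ x ∈ vlat M v, a ⬝ᵥ x = 0 := by
    intro x hx
    have h1 := hx p hvp
    rw [qf_gm_int] at h1
    rw [dotProduct, ← h1]
    exact Finset.sum_congr rfl fun l _ => mul_comm _ _
  have hcx : ∀ x ∈ vlat M v, c ⬝ᵥ x = 0 := by
    intro x hx
    have h1 := hx q hvq
    rw [qf_gm_int] at h1
    rw [dotProduct, ← h1]
    exact Finset.sum_congr rfl fun l _ => mul_comm _ _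
  have hbx : ∀ x ∈ vlat M v, b ⬝ᵥ x = 0 := by
    intro x hx
    have h1 := hx p hvp
    have h2 := hx q hvq
    have h3 := hx (fun i => 1 * p i + 1 * q i) (by
      rw [dot3] at hvp hvq ⊢
      linear_combination hvp + hvq)
    rw [qf_lin _ (gm_symm M hM x), h1, h2] at h3
    have h4 : bf (gm M x) p q = 0 := by linarith
    rw [bf_gm] at h4
    rw [dotProduct, ← h4]
    exact Finset.sum_congr rfl fun l _ => mul_comm _ _
  have ha0 : a ≠ 0 := by
    intro h0
    obtain ⟨l, hl⟩ := bpf_int hb p hp0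
    exact hl (congrFun h0 l)
  have hc0 : c ≠ 0 := by
    intro h0
    obtain ⟨l, hl⟩ := bpf_int hb q hq0
    exact hl (congrFun h0 l)
  by_cases hac : LinearIndependent ℤ ![a, c]
  · refine ⟨![a, c], hac, fun x hx i => ?_⟩
    fin_cases i
    · exact hax x hx
    · exact hcx x hx
  by_cases hab : LinearIndependent ℤ ![a, b]
  · refine ⟨![a, b], hab, fun x hx i => ?_⟩
    fin_cases i
    · exact hax x hx
    · exact hbx x hx
  exfalso
  rw [LinearIndependent.pair_iff] at hac hab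
  push Not at hac hab
  obtain ⟨m, n, hmn, hmn0⟩ := hac
  obtain ⟨m', n', hmn', hmn0'⟩ := hab
  have hn : n ≠ 0 := by
    intro h0
    rw [h0, zero_smul, add_zero, smul_eq_zero] at hmn
    rcases hmn with h | h
    · exact hmn0 h h0
    · exact ha0 h
  have hn' : n' ≠ 0 := by
    intro h0
    rw [h0, zero_smul, add_zero, smul_eq_zero] at hmn'
    rcases hmn' with h | h
    · exact hmn0' h h0
    · exact ha0 h
  have hnC : (n : ℂ) ≠ 0 := by exact_mod_cast hn
  have hnC' : (n' : ℂ) ≠ 0 := by exact_mod_cast hn'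
  obtain ⟨s, hs⟩ : ∃ s : ℂ, (n * n' : ℂ) * (s * s) + (-(2 * m' * n) : ℂ) * s + (-(m * n') : ℂ) = 0 :=
    exists_quadratic_eq_zero (mul_ne_zero hnC hnC') (IsAlgClosed.exists_eq_mul_self _)
  obtain ⟨l, hl⟩ := hb (fun i => s * ((p i : ℤ) : ℂ) + 1 * ((q i : ℤ) : ℂ)) (by
    intro h0
    have h1 := congrFun h0 j
    simp only [hpj, hqj, Int.cast_zero, mul_zero, zero_add, one_mul, Pi.zero_apply,
      Int.cast_eq_zero] at h1
    exact hk h1)
  apply hl
  have hsym : ((M l).map (Int.castRingHom ℂ)).IsSymm := by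
    unfold Matrix.IsSymm
    rw [← Matrix.transpose_map, (hM l).eq]
  rw [qf_lin _ hsym]
  have e1 : qf ((M l).map (Int.castRingHom ℂ)) (fun i => ((p i : ℤ) : ℂ)) = ((a l : ℤ) : ℂ) :=
    qf_map (Int.castRingHom ℂ) (M l) p
  have e2 : qf ((M l).map (Int.castRingHom ℂ)) (fun i => ((q i : ℤ) : ℂ)) = ((c l : ℤ) : ℂ) :=
    qf_map (Int.castRingHom ℂ) (M l) q
  have e3 : bf ((M l).map (Int.castRingHom ℂ)) (fun i => ((p i : ℤ) : ℂ))
      (fun i => ((q i : ℤ) : ℂ)) = ((b l : ℤ) : ℂ) := bf_map (Int.castRingHom ℂ) (M l) p q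
  rw [e1, e2, e3]
  have f1 : ((m : ℤ) : ℂ) * ((a l : ℤ) : ℂ) + ((n : ℤ) : ℂ) * ((c l : ℤ) : ℂ) = 0 := by
    have := congrFun hmn l
    simp only [Pi.add_apply, Pi.smul_apply, smul_eq_mul, Pi.zero_apply] at this
    exact_mod_cast this
  have f2 : ((m' : ℤ) : ℂ) * ((a l : ℤ) : ℂ) + ((n' : ℤ) : ℂ) * ((b l : ℤ) : ℂ) = 0 := by
    have := congrFun hmn' l
    simp only [Pi.add_apply, Pi.smul_apply, smul_eq_mul, Pi.zero_apply] at this
    exact_mod_cast this
  have f3 : (n * n' : ℂ) * (s ^ 2 * ((a l : ℤ) : ℂ) + 2 * s * 1 * ((b l : ℤ) : ℂ) +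
      1 ^ 2 * ((c l : ℤ) : ℂ)) = 0 := by
    linear_combination ((a l : ℤ) : ℂ) * hs + (2 * s * n) * f2 + n' * f1
  exact (mul_eq_zero.1 f3).resolve_left (mul_ne_zero hnC hnC')

/-- A quadratic form which vanishes on a line is a product. -/
theorem split_of_mem (A : Matrix (Fin 3) (Fin 3) ℤ) (hA : A.IsSymm) (v e : Fin 3 → ℤ)
    (he : v ⬝ᵥ e = 1) (h : ∀ y : Fin 3 → ℤ, v ⬝ᵥ y = 0 → qf A y = 0) :
    ∃ u : Fin 3 → ℤ, ∀ i j, 2 * A i j = v i * u j + u i * v j := by
  refine ⟨fun i => 2 * A.mulVec e i - qf A e * v i, ?_⟩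
  have hP : ∀ i, v ⬝ᵥ (fun l => (if l = i then 1 else 0) - v i * e l) = 0 := by
    intro i
    have h1 : v ⬝ᵥ (fun l => (if l = i then 1 else 0) - v i * e l) =
        ∑ l, v l * (if l = i then 1 else 0) - v i * (v ⬝ᵥ e) := by
      unfold dotProduct
      rw [Finset.mul_sum, ← Finset.sum_sub_distrib]
      refine Finset.sum_congr rfl fun l _ => ?_
      ring
    rw [h1, he]
    simp
  have hbf : ∀ i j, bf A (fun l => (if l = i then 1 else 0) - v i * e l)
      (fun l => (if l = j then 1 else 0) - v j * e l) = 0 := by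
    intro i j
    have h1 := h _ (hP i)
    have h2 := h _ (hP j)
    have h3 := h (fun l => 1 * ((if l = i then 1 else 0) - v i * e l) +
      1 * ((if l = j then 1 else 0) - v j * e l)) (by
        have a1 := hP i
        have a2 := hP j
        rw [dot3] at a1 a2 ⊢
        linear_combination a1 + a2)
    rw [qf_lin A hA, h1, h2] at h3
    linarith
  have s10 : A 1 0 = A 0 1 := hA.apply 0 1
  have s20 : A 2 0 = A 0 2 := hA.apply 0 2
  have s21 : A 2 1 = A 1 2 := hA.apply 1 2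
  intro i j
  have h1 := hbf i j
  rw [qf_expand]
  simp only [bf, dotProduct, Matrix.mulVec, Fin.sum_univ_three] at h1 ⊢
  fin_cases i <;> fin_cases j <;>
    simp only [Fin.zero_eta, Fin.mk_one, Fin.reduceFinMk, Fin.isValue, Fin.reduceEq, if_true,
      if_false, s10, s20, s21] at h1 ⊢ <;>
    linear_combination 2 * h1

end Pool.Agent.K1H65.CB
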