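import Mathlib
import Pool.Agent.K1H65.CB.Vlat

/-!
# Degenerate conics: lemmas
-/

set_option autoImplicit false

namespace Pool.Agent.K1H65.CB

open Matrix Finset Module
open Pool.Agent.H548.WM (ht bx mem_bx le_ht' ht_le card_bx_le Rep exists_ht ht_pos hyp)
open Pool.Agent.H548.BL (rc doubling orth mem_orth finrank_orth rc_dot)
open Pool.Agent.R38.NC (qf Prim rep_prim rep_neg bezout3)

theorem exists_rep3 {u : Fin 3 → ℤ} (hu : u ≠ 0) :
    ∃ (g : ℤ) (u' : Fin 3 → ℤ), g ≠ 0 ∧ Rep u' ∧ ∀ i, u i = g * u' i := by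
  obtain ⟨f, hf1, hf2⟩ := Finset.extract_gcd (s := (Finset.univ : Finset (Fin 3))) u
    ⟨0, mem_univ _⟩
  set G := Finset.univ.gcd u with hG
  have hG0 : G ≠ 0 := by
    intro h0
    apply hu
    funext i
    rw [hf1 i (mem_univ _), h0, zero_mul, Pi.zero_apply]
  have hf0 : ∃ i, f i ≠ 0 := by
    by_contra h0
    push Not at h0
    apply hu
    funext i
    rw [hf1 i (mem_univ _), h0, mul_zero, Pi.zero_apply]
  have hne : ((Finset.univ : Finset (Fin 3)).filter fun i => f i ≠ 0).Nonempty := by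
    obtain ⟨i, hi⟩ := hf0
    exact ⟨i, by simp [hi]⟩
  set i0 := ((Finset.univ : Finset (Fin 3)).filter fun i => f i ≠ 0).min' hne with hi0
  have h1 : f i0 ≠ 0 := by
    have := Finset.min'_mem _ hne
    rw [← hi0, Finset.mem_filter] at this
    exact this.2
  have h2 : ∀ j < i0, f j = 0 := by
    intro j hj
    by_contra h
    have := Finset.min'_le ((Finset.univ : Finset (Fin 3)).filter fun i => f i ≠ 0) j (by simp [h])
    rw [← hi0] at this
    exact absurd hj (not_lt.2 this)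
  rcases lt_or_gt_of_ne h1 with h3 | h3
  · refine ⟨-G, fun i => -1 * f i, neg_ne_zero.2 hG0, ⟨?_, i0, by linarith, fun j hj => by
      show -1 * f j = 0
      rw [h2 j hj, mul_zero]⟩, fun i => ?_⟩
    · rw [Finset.gcd_mul_left, hf2, mul_one, ← Int.abs_eq_normalize]
      norm_num
    · rw [hf1 i (mem_univ _)]
      ring
  · exact ⟨G, f, hG0, ⟨hf2, i0, h3, h2⟩, fun i => hf1 i (mem_univ _)⟩

theorem rep_parallel {y y' : Fin 3 → ℤ} (hy : Rep y) (hy' : Rep y')
    (h : ∀ i j, y i * y' j = y j * y' i) : y = y' := by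
  obtain ⟨e, he⟩ := bezout3 (rep_prim hy)
  have h1 : ∀ j, y' j = (∑ i, e i * y' i) * y j := by
    intro j
    calc y' j = (∑ i, e i * y i) * y' j := by rw [he, one_mul]
      _ = ∑ i, e i * (y i * y' j) := by
          rw [Finset.sum_mul]
          exact Finset.sum_congr rfl fun i _ => by ring
      _ = ∑ i, e i * (y j * y' i) := Finset.sum_congr rfl fun i _ => by rw [h i j]
      _ = _ := by
          rw [Finset.sum_mul]
          exact Finset.sum_congr rfl fun i _ => by ring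
  set c := ∑ i, e i * y' i with hc
  have h2 : IsUnit c := rep_prim hy' c fun i => ⟨y i, h1 i⟩
  rcases Int.isUnit_iff.1 h2 with h3 | h3
  · funext j
    rw [h1 j, h3, one_mul]
  · exfalso
    apply rep_neg hy hy'
    funext j
    rw [h1 j, h3, Pi.neg_apply]
    ring

open Classical in
/-- The points of a line in a box. -/
theorem plane_count (v : Fin 3 → ℤ) (hv : Rep v) (K B : ℕ) (hB : 1 ≤ B) (hK : ht v ≤ K * B) :
    (((bx 3 B).filter fun y => v ⬝ᵥ y = 0).card : ℝ) ≤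
      ((K : ℝ) + 4) ^ 3 * (B : ℝ) ^ 2 / (ht v : ℝ) := by
  obtain ⟨e, he⟩ := bezout3 (rep_prim hv)
  obtain ⟨k0, hk0⟩ := exists_ht (by norm_num) v
  have hv0 : 1 ≤ ht v := ht_pos (by
    rintro rfl
    obtain ⟨-, i, hi, -⟩ := hv
    simp at hi)
  have h1 := hyp v e 1 (ht v) k0 B K le_rfl hv0 (by rw [he]; simp) (by
    rw [one_mul]
    rw [Int.abs_eq_natAbs] at hk0
    exact_mod_cast hk0) (by rw [one_mul]; exact hK) hB
  have h2 : ((bx 3 B).filter fun y => v ⬝ᵥ y = 0) =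
      ((bx 3 B).filter fun r => ∑ k, v k * r k = 0) := rfl
  rw [h2]
  have h3 : ((((bx 3 B).filter fun r => ∑ k, v k * r k = 0).card * (B * ht v) : ℕ) : ℝ) ≤
      ((((K + 4) * B) ^ 3 : ℕ) : ℝ) := by exact_mod_cast h1
  push_cast at h3
  have hv1 : (0 : ℝ) < ht v := by exact_mod_cast hv0
  have hB1 : (0 : ℝ) < B := by exact_mod_cast hB
  rw [le_div_iff₀ hv1]
  have h4 : (((bx 3 B).filter fun r => ∑ k, v k * r k = 0).card : ℝ) * (ht v : ℝ) * B ≤
      ((K : ℝ) + 4) ^ 3 * (B : ℝ) ^ 2 * B := by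
    calc _ = (((bx 3 B).filter fun r => ∑ k, v k * r k = 0).card : ℝ) * ((B : ℝ) * ht v) := by
          ring
      _ ≤ _ := h3
      _ = _ := by ring
  exact le_of_mul_le_mul_right h4 hB1

open Classical in
/-- The number of nonzero vectors of a lattice in a box. -/
theorem lat_min {N b : ℕ} (Λ : AddSubgroup (Fin N → ℤ)) (V : Submodule ℝ (Fin N → ℝ))
    (hV : finrank ℝ V ≤ b) (hΛ : ∀ v ∈ Λ, rc v ∈ V) (K h B : ℕ) (hK : 1 ≤ K) (hh : 1 ≤ h)
    (hB : 1 ≤ B) (hmin : ∀ x ∈ Λ, x ≠ 0 → h ≤ K * ht x) :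
    (((bx N B).filter fun x => x ∈ Λ ∧ x ≠ 0).card : ℝ) ≤
      3 ^ N * (6 * K * B / h) ^ b := by
  rcases ((bx N B).filter fun x => x ∈ Λ ∧ x ≠ 0).eq_empty_or_nonempty with h0 | ⟨x, hx⟩
  · rw [h0]
    simp only [card_empty, Nat.cast_zero]
    positivity
  rw [mem_filter, mem_bx] at hx
  have hKB : h ≤ K * B := (hmin x hx.2.1 hx.2.2).trans (Nat.mul_le_mul_left _ hx.1)
  set ρ := max 1 ((h - 1) / K) with hρ
  have hρ1 : 1 ≤ ρ := le_max_left _ _
  have hρB : ρ ≤ B := by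
    apply max_le hB
    calc (h - 1) / K ≤ (K * B) / K := Nat.div_le_div_right (by omega)
      _ = B := Nat.mul_div_cancel_left _ (by omega)
  have hρh : h ≤ 2 * K * ρ := by
    have e1 : h - 1 < K * ((h - 1) / K + 1) := Nat.lt_mul_div_succ _ (by omega)
    have e2 : (h - 1) / K ≤ ρ := le_max_right _ _
    have e3 : K * ((h - 1) / K + 1) ≤ K * (2 * ρ) := Nat.mul_le_mul_left _ (by omega)
    have e4 : K * (2 * ρ) = 2 * K * ρ := by ring
    omega
  have hd := doubling Λ V hV hΛ B ρ hρ1 hρB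
  have hsmall : (((bx N ρ).filter (· ∈ Λ)).card : ℝ) ≤ 3 ^ N := by
    rcases le_or_gt ((h - 1) / K) 1 with h1 | h1
    · have h2 : ρ = 1 := by rw [hρ]; exact max_eq_left h1
      rw [h2]
      have h3 : (((bx N 1).filter (· ∈ Λ)).card : ℝ) ≤ ((bx N 1).card : ℝ) := by
        exact_mod_cast Finset.card_filter_le _ _
      have h4 := card_bx_le N (X := 1) le_rfl
      simp only [Nat.cast_one, mul_one] at h4
      exact h3.trans h4
    · have h2 : ρ = (h - 1) / K := by rw [hρ]; exact max_eq_right h1.le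
      have h3 : ((bx N ρ).filter (· ∈ Λ)) ⊆ {0} := by
        intro y hy
        rw [mem_filter, mem_bx] at hy
        rw [mem_singleton]
        by_contra hy0
        have e1 := hmin y hy.2 hy0
        have e2 : K * ht y ≤ K * ((h - 1) / K) := Nat.mul_le_mul_left _ (by omega)
        have e3 := Nat.mul_div_le (h - 1) K
        omega
      have h4 := Finset.card_le_card h3
      rw [card_singleton] at h4
      have h5 : (((bx N ρ).filter (· ∈ Λ)).card : ℝ) ≤ 1 := by exact_mod_cast h4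
      have h6 : (1 : ℝ) ≤ 3 ^ N := one_le_pow₀ (by norm_num)
      linarith
  have hsub : (((bx N B).filter fun x => x ∈ Λ ∧ x ≠ 0).card : ℝ) ≤
      (((bx N B).filter (· ∈ Λ)).card : ℝ) := by
    have : ((bx N B).filter fun x => x ∈ Λ ∧ x ≠ 0) ⊆ ((bx N B).filter (· ∈ Λ)) := by
      intro y hy
      rw [mem_filter] at hy ⊢
      exact ⟨hy.1, hy.2.1⟩
    exact_mod_cast Finset.card_le_card this
  have hh0 : (0 : ℝ) < h := by exact_mod_cast hh
  have hρ0 : (0 : ℝ) < ρ := by exact_mod_cast hρ1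
  have hle : (3 * (B : ℝ) / ρ) ≤ 6 * K * B / h := by
    rw [div_le_div_iff₀ hρ0 hh0]
    have : (h : ℝ) ≤ 2 * K * ρ := by exact_mod_cast hρh
    calc 3 * (B : ℝ) * h ≤ 3 * B * (2 * K * ρ) := by gcongr
      _ = _ := by ring
  calc (((bx N B).filter fun x => x ∈ Λ ∧ x ≠ 0).card : ℝ)
      ≤ (3 * B / ρ) ^ b * (((bx N ρ).filter (· ∈ Λ)).card : ℝ) := hsub.trans hd
    _ ≤ (6 * K * B / h) ^ b * 3 ^ N := by gcongr
    _ = _ := by ring

theorem split_size (A : Matrix (Fin 3) (Fin 3) ℤ) (v u : Fin 3 → ℤ) (K : ℕ)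
    (hK : ∀ i j, |A i j| ≤ (K : ℤ)) (h : ∀ i j, 2 * A i j = v i * u j + u i * v j) :
    ht v * ht u ≤ 4 * K := by
  obtain ⟨i, hi⟩ := exists_ht (by norm_num) v
  obtain ⟨j, hj⟩ := exists_ht (by norm_num) u
  have hii := h i i
  have hij := h i j
  have hvj := le_ht' v j
  have hui := le_ht' u i
  have k1 := hK i i
  have k2 := hK i j
  have e0 : (0 : ℤ) ≤ ht v := by positivity
  have e0' : (0 : ℤ) ≤ ht u := by positivity
  have key : (ht v : ℤ) * ht u ≤ 4 * K := by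
    -- |v_i u_j| = ht v * ht u
    have e1 : |v i * u j| = (ht v : ℤ) * ht u := by rw [abs_mul, hi, hj]
    have e2 : |A i i| = (ht v : ℤ) * |u i| := by
      have : A i i = v i * u i := by linarith [mul_comm (u i) (v i)]
      rw [this, abs_mul, hi]
    have e3 : |v i * u j| ≤ 2 * |A i j| + |u i * v j| := by
      have : v i * u j = 2 * A i j - u i * v j := by linarith
      rw [this]
      have := abs_sub (2 * A i j) (u i * v j)
      rw [abs_mul 2 (A i j)] at this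
      simpa using this
    have e4 : |u i * v j| ≤ |u i| * ht v := by
      rw [abs_mul]
      exact mul_le_mul_of_nonneg_left hvj (abs_nonneg _)
    rw [e1] at e3
    nlinarith
  exact_mod_cast key

theorem gm_size {N : ℕ} (M : Fin N → Matrix (Fin 3) (Fin 3) ℤ) :
    ∃ K : ℕ, 1 ≤ K ∧ ∀ (x : Fin N → ℤ) (i j : Fin 3), |gm M x i j| ≤ ((K * ht x : ℕ) : ℤ) := by
  refine ⟨1 + ∑ l, ∑ i, ∑ j, (M l i j).natAbs, by omega, fun x i j => ?_⟩
  rw [gm_apply]
  refine (Finset.abs_sum_le_sum_abs _ _).trans ?_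
  have h1 : ∀ l, |x l * ((M l i j : ℤ) : ℤ)| ≤ (ht x : ℤ) * (∑ i, ∑ j, (M l i j).natAbs : ℕ) := by
    intro l
    rw [abs_mul]
    have e1 := le_ht' x l
    have e2 : |M l i j| ≤ ((∑ i, ∑ j, (M l i j).natAbs : ℕ) : ℤ) := by
      rw [Int.abs_eq_natAbs]
      have e3 : (M l i j).natAbs ≤ ∑ j, (M l i j).natAbs :=
        Finset.single_le_sum (f := fun j => (M l i j).natAbs) (fun _ _ => Nat.zero_le _)
          (mem_univ j)
      have e4 : ∑ j, (M l i j).natAbs ≤ ∑ i, ∑ j, (M l i j).natAbs :=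
        Finset.single_le_sum (f := fun i => ∑ j, (M l i j).natAbs) (fun _ _ => Nat.zero_le _)
          (mem_univ i)
      exact_mod_cast e3.trans e4
    exact mul_le_mul e1 e2 (abs_nonneg _) (by positivity)
  calc ∑ l, |x l * ((M l i j : ℤ) : ℤ)| ≤
        ∑ l, (ht x : ℤ) * (∑ i, ∑ j, (M l i j).natAbs : ℕ) := Finset.sum_le_sum fun l _ => h1 l
    _ = (ht x : ℤ) * ((∑ l, ∑ i, ∑ j, (M l i j).natAbs : ℕ) : ℤ) := by
        rw [← Finset.mul_sum]
        push_cast
        rfl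
    _ ≤ _ := by
        push_cast
        have : (0 : ℤ) ≤ ht x := by positivity
        nlinarith

/-- A degenerate conic with two rational points contains a rational line. -/
theorem line_of_points (A : Matrix (Fin 3) (Fin 3) ℤ) (hA : A.IsSymm) (hd : A.det = 0)
    (y1 y2 : Fin 3 → ℤ) (h1 : Rep y1) (h2 : Rep y2) (hne : y1 ≠ y2) (q1 : qf A y1 = 0)
    (q2 : qf A y2 = 0) : ∃ v, Rep v ∧ ∀ w : Fin 3 → ℤ, v ⬝ᵥ w = 0 → qf A w = 0 := by
  obtain ⟨z, hz0, hz⟩ := Matrix.exists_mulVec_eq_zero_iff.2 hd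
  have main : ∀ y : Fin 3 → ℤ, qf A y = 0 →
      (![y 1 * z 2 - y 2 * z 1, y 2 * z 0 - y 0 * z 2, y 0 * z 1 - y 1 * z 0] : Fin 3 → ℤ) ≠ 0 →
      ∃ v, Rep v ∧ ∀ w : Fin 3 → ℤ, v ⬝ᵥ w = 0 → qf A w = 0 := by
    intro y hy hn
    set n : Fin 3 → ℤ := ![y 1 * z 2 - y 2 * z 1, y 2 * z 0 - y 0 * z 2,
      y 0 * z 1 - y 1 * z 0] with hndef
    have n0 : n 0 = y 1 * z 2 - y 2 * z 1 := rfl
    have n1 : n 1 = y 2 * z 0 - y 0 * z 2 := rfl
    have n2 : n 2 = y 0 * z 1 - y 1 * z 0 := rfl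
    obtain ⟨g, v, hg, hv, hgv⟩ := exists_rep3 hn
    refine ⟨v, hv, fun w hw => ?_⟩
    have hnw : n 0 * w 0 + n 1 * w 1 + n 2 * w 2 = 0 := by
      rw [hgv 0, hgv 1, hgv 2]
      rw [dot3] at hw
      linear_combination g * hw
    have hnn : n 0 ^ 2 + n 1 ^ 2 + n 2 ^ 2 ≠ 0 := by
      intro h0
      apply hn
      have a0 : n 0 = 0 := by nlinarith [sq_nonneg (n 0), sq_nonneg (n 1), sq_nonneg (n 2)]
      have a1 : n 1 = 0 := by nlinarith [sq_nonneg (n 0), sq_nonneg (n 1), sq_nonneg (n 2)]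
      have a2 : n 2 = 0 := by nlinarith [sq_nonneg (n 0), sq_nonneg (n 1), sq_nonneg (n 2)]
      funext i
      fin_cases i
      · exact a0
      · exact a1
      · exact a2
    have hz' : ∀ i, A.mulVec z i = 0 := fun i => congrFun hz i
    have z0 := hz' 0
    have z1 := hz' 1
    have z2 := hz' 2
    simp only [Matrix.mulVec, dotProduct, Fin.sum_univ_three] at z0 z1 z2
    have hqz : qf A z = 0 := by
      rw [qf_expand]
      linear_combination z 0 * z0 + z 1 * z1 + z 2 * z2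
    have hbz : bf A y z = 0 := by
      simp only [bf, dotProduct, Matrix.mulVec, Fin.sum_univ_three]
      linear_combination y 0 * z0 + y 1 * z1 + y 2 * z2
    obtain ⟨α, hα⟩ : ∃ α, α = w 0 * (z 1 * n 2 - z 2 * n 1) + w 1 * (z 2 * n 0 - z 0 * n 2) +
      w 2 * (z 0 * n 1 - z 1 * n 0) := ⟨_, rfl⟩
    obtain ⟨β, hβ⟩ : ∃ β, β = w 0 * (n 1 * y 2 - n 2 * y 1) + w 1 * (n 2 * y 0 - n 0 * y 2) +
      w 2 * (n 0 * y 1 - n 1 * y 0) := ⟨_, rfl⟩
    have hw0 : ∀ i, (n 0 ^ 2 + n 1 ^ 2 + n 2 ^ 2) * w i = α * y i + β * z i := by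
      intro i
      have e : (n 0 ^ 2 + n 1 ^ 2 + n 2 ^ 2) * w i = α * y i + β * z i +
          (n 0 * w 0 + n 1 * w 1 + n 2 * w 2) * n i := by
        rw [hα, hβ]
        fin_cases i <;> simp only [Fin.zero_eta, Fin.mk_one, Fin.reduceFinMk, n0, n1, n2] <;> ring
      rw [e, hnw, zero_mul, add_zero]
    have e1 : qf A (fun i => α * y i + β * z i) = 0 := by
      rw [qf_lin A hA, hy, hqz, hbz]
      ring
    have e2 : qf A (fun i => α * y i + β * z i) =
        (n 0 ^ 2 + n 1 ^ 2 + n 2 ^ 2) ^ 2 * qf A w := by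
      have : (fun i => α * y i + β * z i) = fun i => (n 0 ^ 2 + n 1 ^ 2 + n 2 ^ 2) * w i +
          0 * w i := by
        funext i
        rw [← hw0 i]
        ring
      rw [this, qf_lin A hA]
      ring
    rw [e2] at e1
    exact (mul_eq_zero.1 e1).resolve_left (pow_ne_zero 2 hnn)
  by_cases c1 : (![y1 1 * z 2 - y1 2 * z 1, y1 2 * z 0 - y1 0 * z 2, y1 0 * z 1 - y1 1 * z 0] :
      Fin 3 → ℤ) = 0
  · by_cases c2 : (![y2 1 * z 2 - y2 2 * z 1, y2 2 * z 0 - y2 0 * z 2,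
        y2 0 * z 1 - y2 1 * z 0] : Fin 3 → ℤ) = 0
    · exfalso
      apply hne
      obtain ⟨k, hk⟩ : ∃ k, z k ≠ 0 := by
        by_contra h0
        push Not at h0
        exact hz0 (funext h0)
      have par : ∀ y : Fin 3 → ℤ, (![y 1 * z 2 - y 2 * z 1, y 2 * z 0 - y 0 * z 2,
          y 0 * z 1 - y 1 * z 0] : Fin 3 → ℤ) = 0 → ∀ i j, y i * z j = y j * z i := by
        intro y h i j
        have e0 : y 1 * z 2 - y 2 * z 1 = 0 := congrFun h 0
        have e1 : y 2 * z 0 - y 0 * z 2 = 0 := congrFun h 1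
        have e2 : y 0 * z 1 - y 1 * z 0 = 0 := congrFun h 2
        fin_cases i <;> fin_cases j <;> simp only [Fin.zero_eta, Fin.mk_one, Fin.reduceFinMk] <;>
          linarith
      have p1 := par y1 c1
      have p2 := par y2 c2
      apply rep_parallel h1 h2
      intro i j
      have e : (z k * z k) * (y1 i * y2 j - y1 j * y2 i) = 0 := by
        have a1 := p1 i k
        have a2 := p1 j k
        have b1 := p2 i k
        have b2 := p2 j k
        linear_combination (z k * y2 j) * a1 + (y1 k * z i) * b2 - (z k * y2 i) * a2 -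
          (y1 k * z j) * b1
      have := (mul_eq_zero.1 e).resolve_left (mul_ne_zero hk hk)
      linarith
    · exact main y2 q2 c2
  · exact main y1 q1 c1

open Classical in
/-- The shells of a cube. -/
theorem shell_sum (R : ℕ) :
    ∑ v ∈ (bx 3 R).filter (· ≠ 0), 1 / (ht v : ℝ) ^ 3 ≤ 26 * (1 + Real.log R) := by
  have hmaps : ∀ v ∈ (bx 3 R).filter (· ≠ 0), ht v ∈ Finset.Icc 1 R := by
    intro v hv
    rw [mem_filter, mem_bx] at hv
    rw [Finset.mem_Icc]
    exact ⟨ht_pos hv.2, hv.1⟩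
  rw [← Finset.sum_fiberwise_of_maps_to hmaps]
  have hfib : ∀ h ∈ Finset.Icc 1 R, ∑ v ∈ ((bx 3 R).filter (· ≠ 0)).filter (fun v => ht v = h),
      1 / (ht v : ℝ) ^ 3 ≤ 26 * (1 / (h : ℝ)) := by
    intro h hh
    rw [Finset.mem_Icc] at hh
    have h1 : ∑ v ∈ ((bx 3 R).filter (· ≠ 0)).filter (fun v => ht v = h),
        1 / (ht v : ℝ) ^ 3 = ∑ v ∈ ((bx 3 R).filter (· ≠ 0)).filter (fun v => ht v = h),
        1 / (h : ℝ) ^ 3 := by
      refine Finset.sum_congr rfl fun v hv => ?_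
      rw [(mem_filter.1 hv).2]
    rw [h1, Finset.sum_const, nsmul_eq_mul]
    have h2 : ((bx 3 R).filter (· ≠ 0)).filter (fun v => ht v = h) ⊆ bx 3 h \ bx 3 (h - 1) := by
      intro v hv
      rw [mem_filter] at hv
      rw [mem_sdiff, mem_bx, mem_bx]
      omega
    have h3 := Finset.card_le_card h2
    rw [Finset.card_sdiff_of_subset (by
      intro v hv
      rw [mem_bx] at hv ⊢
      omega), Pool.Agent.H548.WM.card_bx, Pool.Agent.H548.WM.card_bx] at h3
    have h4 : (2 * h + 1) ^ 3 - (2 * (h - 1) + 1) ^ 3 ≤ 26 * h ^ 2 := by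
      obtain ⟨m, rfl⟩ : ∃ m, h = m + 1 := ⟨h - 1, by omega⟩
      rw [Nat.add_sub_cancel, Nat.sub_le_iff_le_add]
      ring_nf
      nlinarith
    have h5 : ((((bx 3 R).filter (· ≠ 0)).filter (fun v => ht v = h)).card : ℝ) ≤
        26 * (h : ℝ) ^ 2 := by exact_mod_cast h3.trans h4
    have hh0 : (0 : ℝ) < h := by exact_mod_cast hh.1
    calc ((((bx 3 R).filter (· ≠ 0)).filter (fun v => ht v = h)).card : ℝ) * (1 / (h : ℝ) ^ 3)
        ≤ 26 * (h : ℝ) ^ 2 * (1 / (h : ℝ) ^ 3) := by gcongr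
      _ = _ := by field_simp
  refine (Finset.sum_le_sum hfib).trans ?_
  rw [← Finset.mul_sum]
  have h1 : ∑ h ∈ Finset.Icc 1 R, 1 / (h : ℝ) ≤ 1 + Real.log R := by
    have := harmonic_le_one_add_log R
    rw [harmonic_eq_sum_Icc] at this
    push_cast at this
    simpa using this
  linarith

end Pool.Agent.K1H65.CB
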