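import Mathlib
import Pool.Agent.K1H65.CB.Deg1

/-!
# Degenerate conics: the count
-/

set_option autoImplicit false

namespace Pool.Agent.K1H65.CB

open Matrix Finset Module
open Pool.Agent.H548.WM (ht bx mem_bx le_ht' ht_le card_bx_le Rep exists_ht ht_pos hyp)
open Pool.Agent.H548.BL (rc doubling orth mem_orth finrank_orth rc_dot rc_inj)
open Pool.Agent.R38.NC (qf Prim rep_prim rep_neg bezout3)

theorem rep_ne {m : ℕ} {v : Fin m → ℤ} (h : Rep v) : v ≠ 0 := by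
  rintro rfl
  obtain ⟨-, i, hi, -⟩ := h
  simp at hi

/-- `v` is a line of minimal height in the conic with the parameter `x` -/
def Mn {N : ℕ} (M : Fin N → Matrix (Fin 3) (Fin 3) ℤ) (x : Fin N → ℤ) (v : Fin 3 → ℤ) : Prop :=
  Rep v ∧ x ∈ vlat M v ∧ ∀ v', Rep v' → x ∈ vlat M v' → ht v ≤ ht v'

theorem qf_split (A : Matrix (Fin 3) (Fin 3) ℤ) (v u : Fin 3 → ℤ)
    (h : ∀ i j, 2 * A i j = v i * u j + u i * v j) (y : Fin 3 → ℤ) :
    qf A y = (v ⬝ᵥ y) * (u ⬝ᵥ y) := by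
  have h2 : 2 * qf A y = 2 * ((v ⬝ᵥ y) * (u ⬝ᵥ y)) := by
    rw [qf_expand, dot3, dot3]
    linear_combination y 0 * y 0 * h 0 0 + y 0 * y 1 * h 0 1 + y 0 * y 2 * h 0 2 +
      y 1 * y 0 * h 1 0 + y 1 * y 1 * h 1 1 + y 1 * y 2 * h 1 2 +
      y 2 * y 0 * h 2 0 + y 2 * y 1 * h 2 1 + y 2 * y 2 * h 2 2
  linarith

/-- the decomposition of a conic which contains a line -/
theorem decomp {N : ℕ} {M : Fin N → Matrix (Fin 3) (Fin 3) ℤ} (hM : ∀ i, (M i).IsSymm)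
    (hI : Ind M) {K : ℕ} (hK : ∀ (x : Fin N → ℤ) (i j : Fin 3), |gm M x i j| ≤ ((K * ht x : ℕ) : ℤ))
    {x : Fin N → ℤ} (hx : x ≠ 0) {v : Fin 3 → ℤ} (hv : Rep v) (hxv : x ∈ vlat M v) :
    ∃ (g : ℤ) (u : Fin 3 → ℤ), g ≠ 0 ∧ Rep u ∧ x ∈ vlat M u ∧
      (∀ y, qf (gm M x) y = g * ((v ⬝ᵥ y) * (u ⬝ᵥ y))) ∧ ht v * ht u ≤ 4 * K * ht x := by
  obtain ⟨e, he⟩ := bezout3 (rep_prim hv)
  have he' : v ⬝ᵥ e = 1 := by
    rw [← he, dotProduct]
    exact Finset.sum_congr rfl fun i _ => mul_comm _ _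
  obtain ⟨u, hu⟩ := split_of_mem (gm M x) (gm_symm M hM x) v e he' hxv
  have hu0 : u ≠ 0 := by
    rintro rfl
    apply hx
    apply ind_int hI
    ext i j
    have := hu i j
    simp only [Pi.zero_apply, mul_zero, zero_mul, add_zero] at this
    rw [Matrix.zero_apply]
    omega
  obtain ⟨g, u', hg, hu', hgu⟩ := exists_rep3 hu0
  have hq : ∀ y, qf (gm M x) y = g * ((v ⬝ᵥ y) * (u' ⬝ᵥ y)) := by
    intro y
    rw [qf_split _ v u hu, dot3 u y, hgu 0, hgu 1, hgu 2, dot3 u' y]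
    ring
  refine ⟨g, u', hg, hu', fun y hy => by rw [hq, hy]; ring, hq, ?_⟩
  have h1 := split_size (gm M x) v u (K * ht x) (hK x) hu
  have h2 : ht u' ≤ ht u := by
    apply ht_le
    intro i
    have e1 := le_ht' u i
    rw [hgu i, abs_mul] at e1
    have e2 : 1 ≤ |g| := Int.one_le_abs hg
    have e3 := abs_nonneg (u' i)
    nlinarith
  calc ht v * ht u' ≤ ht v * ht u := Nat.mul_le_mul_left _ h2
    _ ≤ 4 * (K * ht x) := h1
    _ = _ := by ring

open Classical in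
/-- The number of the conics with a given minimal line. -/
theorem count_x {N : ℕ} (hN : 3 ≤ N) {M : Fin N → Matrix (Fin 3) (Fin 3) ℤ}
    (hM : ∀ i, (M i).IsSymm) (hb : Bpf M) (hI : Ind M) :
    ∃ C : ℝ, 0 ≤ C ∧ ∀ v : Fin 3 → ℤ, Rep v → ∀ B : ℕ, 1 ≤ B →
      (((bx N B).filter fun x => x ≠ 0 ∧ Mn M x v).card : ℝ) ≤
        C * (B : ℝ) ^ (N - 2) / (ht v : ℝ) ^ 2 := by
  obtain ⟨K, hK1, hK⟩ := gm_size M
  refine ⟨3 ^ N * (6 * (4 * K)) ^ (N - 2), by positivity, ?_⟩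
  intro v hv B hB
  have hv1 : 1 ≤ ht v := ht_pos (rep_ne hv)
  have hv1' : (1 : ℝ) ≤ ht v := by exact_mod_cast hv1
  have hB1 : (1 : ℝ) ≤ B := by exact_mod_cast hB
  have hK1' : (1 : ℝ) ≤ K := by exact_mod_cast hK1
  rcases ((bx N B).filter fun x => x ≠ 0 ∧ Mn M x v).eq_empty_or_nonempty with h0 | ⟨x0, hx0⟩
  · rw [h0]
    simp only [card_empty, Nat.cast_zero]
    positivity
  rw [mem_filter, mem_bx] at hx0
  obtain ⟨-, hx00, -, hx0v, hmin0⟩ := hx0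
  obtain ⟨w, hw, hwx⟩ := rank_two hM hb v (rep_ne hv)
  have hV := finrank_orth hw
  rw [Fintype.card_fin] at hV
  have hΛ : ∀ x ∈ vlat M v, rc x ∈ orth w := by
    intro x hx
    rw [mem_orth]
    intro i
    rw [rc_dot, hwx x hx i, Int.cast_zero]
  have hsub : (((bx N B).filter fun x => x ≠ 0 ∧ Mn M x v).card : ℝ) ≤
      (((bx N B).filter fun x => x ∈ vlat M v ∧ x ≠ 0).card : ℝ) := by
    have : ((bx N B).filter fun x => x ≠ 0 ∧ Mn M x v) ⊆
        ((bx N B).filter fun x => x ∈ vlat M v ∧ x ≠ 0) := by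
      intro y hy
      rw [mem_filter] at hy ⊢
      exact ⟨hy.1, hy.2.2.2.1, hy.2.1⟩
    exact_mod_cast Finset.card_le_card this
  rcases Nat.lt_or_ge 3 N with hN4 | hN3
  · -- `N ≥ 4`
    have h1 := lat_min (vlat M v) (orth w) hV hΛ (4 * K) (ht v) B (by omega) hv1 hB (by
      intro x hx hx0
      obtain ⟨g, u, -, hu, -, -, h⟩ := decomp hM hI hK hx0 hv hx
      have hu1 : 1 ≤ ht u := ht_pos (rep_ne hu)
      calc ht v = ht v * 1 := by ring
        _ ≤ ht v * ht u := Nat.mul_le_mul_left _ hu1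
        _ ≤ _ := h)
    refine hsub.trans (h1.trans ?_)
    push_cast
    have e1 : (6 * (4 * (K : ℝ)) * B / (ht v : ℝ)) ^ (N - 2) =
        (6 * (4 * (K : ℝ))) ^ (N - 2) * ((B : ℝ) ^ (N - 2) / (ht v : ℝ) ^ (N - 2)) := by
      rw [div_pow, mul_pow]
      ring
    rw [e1]
    have e2 : (B : ℝ) ^ (N - 2) / (ht v : ℝ) ^ (N - 2) ≤ (B : ℝ) ^ (N - 2) / (ht v : ℝ) ^ 2 := by
      apply div_le_div_of_nonneg_left (by positivity) (by positivity)
      exact pow_le_pow_right₀ hv1' (by omega)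
    calc 3 ^ N * ((6 * (4 * (K : ℝ))) ^ (N - 2) * ((B : ℝ) ^ (N - 2) / (ht v : ℝ) ^ (N - 2)))
        ≤ 3 ^ N * ((6 * (4 * (K : ℝ))) ^ (N - 2) * ((B : ℝ) ^ (N - 2) / (ht v : ℝ) ^ 2)) := by
          gcongr
      _ = _ := by ring
  · -- `N = 3`
    have hN' : N = 3 := by omega
    subst hN'
    have hfr : finrank ℝ (orth w) ≤ 1 := hV
    obtain ⟨s, hs⟩ := finrank_le_one_iff.1 hfr
    obtain ⟨c0, hc0⟩ := hs ⟨rc x0, hΛ x0 hx0v⟩
    have hc0' : c0 • (s : Fin 3 → ℝ) = rc x0 := congrArg Subtype.val hc0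
    have hrc0 : rc x0 ≠ 0 := by
      intro h
      apply hx00
      apply rc_inj
      rw [h]
      funext i
      simp [rc]
    have hc00 : c0 ≠ 0 := by
      rintro rfl
      rw [zero_smul] at hc0'
      exact hrc0 hc0'.symm
    have h1 := lat_min (vlat M v) (orth w) hfr hΛ (4 * K) (ht v ^ 2) B (by omega)
      (Nat.one_le_pow _ _ hv1) hB (by
      intro x hx hxne
      obtain ⟨g, u, -, hu, hxu, -, h⟩ := decomp hM hI hK hxne hv hx
      -- `x` and `x0` are parallel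
      obtain ⟨c1, hc1⟩ := hs ⟨rc x, hΛ x hx⟩
      have hc1' : c1 • (s : Fin 3 → ℝ) = rc x := congrArg Subtype.val hc1
      have hc10 : c1 ≠ 0 := by
        rintro rfl
        rw [zero_smul] at hc1'
        apply hxne
        apply rc_inj
        rw [← hc1']
        funext i
        simp [rc]
      have hpar : ∀ i, c1 * (x0 i : ℝ) = c0 * (x i : ℝ) := by
        intro i
        have a0 := congrFun hc0' i
        have a1 := congrFun hc1' i
        simp only [Pi.smul_apply, smul_eq_mul, rc] at a0 a1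
        rw [← a0, ← a1]
        ring
      have hx0u : x0 ∈ vlat M u := by
        intro y hy
        have e1 := hxu y hy
        rw [qf_gm_int] at e1 ⊢
        have e2 : c1 * ((∑ i, x0 i * qf (M i) y : ℤ) : ℝ) = c0 * ((∑ i, x i * qf (M i) y : ℤ) : ℝ) := by
          push_cast
          rw [Finset.mul_sum, Finset.mul_sum]
          refine Finset.sum_congr rfl fun i _ => ?_
          have := hpar i
          linear_combination ((qf (M i) y : ℤ) : ℝ) * this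
        rw [e1, Int.cast_zero, mul_zero] at e2
        have e3 := (mul_eq_zero.1 e2).resolve_left hc10
        exact_mod_cast e3
      have h2 := hmin0 u hu hx0u
      calc ht v ^ 2 = ht v * ht v := sq _
        _ ≤ ht v * ht u := Nat.mul_le_mul_left _ h2
        _ ≤ _ := h)
    refine hsub.trans (h1.trans ?_)
    push_cast
    apply le_of_eq
    ring

open Classical in
/-- The points of a degenerate conic. -/
theorem fibre_deg {N : ℕ} {M : Fin N → Matrix (Fin 3) (Fin 3) ℤ}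
    (hM : ∀ i, (M i).IsSymm) (hI : Ind M) {K : ℕ}
    (hK : ∀ (x : Fin N → ℤ) (i j : Fin 3), |gm M x i j| ≤ ((K * ht x : ℕ) : ℤ))
    (B : ℕ) (hB : 1 ≤ B) (x : Fin N → ℤ) (hx : x ≠ 0) (hxB : ht x ≤ B)
    (hd : (gm M x).det = 0) :
    (((bx 3 B).filter fun y => Rep y ∧ qf (gm M x) y = 0).card : ℝ) ≤
      1 + ∑ v ∈ ((bx 3 (4 * K * B)).filter (· ≠ 0)).filter fun v => Mn M x v,
        2 * (((4 * K : ℕ) : ℝ) + 4) ^ 3 * (B : ℝ) ^ 2 / (ht v : ℝ) := by
  by_cases hex : ∃ v, Rep v ∧ x ∈ vlat M v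
  · -- the minimal line
    obtain ⟨v, hv⟩ : ∃ v, Mn M x v := by
      have hne : ∃ n : ℕ, ∃ v, Rep v ∧ x ∈ vlat M v ∧ ht v = n := by
        obtain ⟨v, h1, h2⟩ := hex
        exact ⟨ht v, v, h1, h2, rfl⟩
      obtain ⟨v, h1, h2, h3⟩ := Nat.find_spec hne
      refine ⟨v, h1, h2, fun v' h1' h2' => ?_⟩
      rw [h3]
      exact Nat.find_min' hne ⟨v', h1', h2', rfl⟩
    obtain ⟨g, u, hg, hu, hxu, hq, hsz⟩ := decomp hM hI hK hx hv.1 hv.2.1
    have hv1 : 1 ≤ ht v := ht_pos (rep_ne hv.1)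
    have hu1 : 1 ≤ ht u := ht_pos (rep_ne hu)
    have hvu : ht v ≤ ht u := hv.2.2 u hu hxu
    have hsz' : ht v * ht u ≤ 4 * K * B := hsz.trans (Nat.mul_le_mul_left _ hxB)
    have hvB : ht v ≤ 4 * K * B := (Nat.le_mul_of_pos_right _ hu1).trans hsz'
    have huB : ht u ≤ 4 * K * B := (Nat.le_mul_of_pos_left _ hv1).trans hsz'
    have c1 := plane_count v hv.1 (4 * K) B hB hvB
    have c2 := plane_count u hu (4 * K) B hB huB
    have hsub : ((bx 3 B).filter fun y => Rep y ∧ qf (gm M x) y = 0) ⊆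
        ((bx 3 B).filter fun y => v ⬝ᵥ y = 0) ∪ ((bx 3 B).filter fun y => u ⬝ᵥ y = 0) := by
      intro y hy
      rw [mem_filter] at hy
      rw [mem_union, mem_filter, mem_filter]
      have h1 := hy.2.2
      rw [hq] at h1
      rcases mul_eq_zero.1 h1 with h2 | h2
      · exact absurd h2 hg
      · rcases mul_eq_zero.1 h2 with h3 | h3
        · exact Or.inl ⟨hy.1, h3⟩
        · exact Or.inr ⟨hy.1, h3⟩
    have h1 : (((bx 3 B).filter fun y => Rep y ∧ qf (gm M x) y = 0).card : ℝ) ≤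
        (((bx 3 B).filter fun y => v ⬝ᵥ y = 0).card : ℝ) +
        (((bx 3 B).filter fun y => u ⬝ᵥ y = 0).card : ℝ) := by
      exact_mod_cast (Finset.card_le_card hsub).trans (Finset.card_union_le _ _)
    have hv0 : (0 : ℝ) < ht v := by exact_mod_cast hv1
    have hvu' : (ht v : ℝ) ≤ ht u := by exact_mod_cast hvu
    have h2 : (((4 * K : ℕ) : ℝ) + 4) ^ 3 * (B : ℝ) ^ 2 / (ht u : ℝ) ≤
        (((4 * K : ℕ) : ℝ) + 4) ^ 3 * (B : ℝ) ^ 2 / (ht v : ℝ) := by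
      gcongr
    have h3 : 2 * (((4 * K : ℕ) : ℝ) + 4) ^ 3 * (B : ℝ) ^ 2 / (ht v : ℝ) ≤
        ∑ v ∈ ((bx 3 (4 * K * B)).filter (· ≠ 0)).filter fun v => Mn M x v,
        2 * (((4 * K : ℕ) : ℝ) + 4) ^ 3 * (B : ℝ) ^ 2 / (ht v : ℝ) := by
      apply Finset.single_le_sum (f := fun v : Fin 3 → ℤ =>
        2 * (((4 * K : ℕ) : ℝ) + 4) ^ 3 * (B : ℝ) ^ 2 / (ht v : ℝ))
      · intro v' _
        positivity
      · rw [mem_filter, mem_filter, mem_bx]
        exact ⟨⟨hvB, rep_ne hv.1⟩, hv⟩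
    calc (((bx 3 B).filter fun y => Rep y ∧ qf (gm M x) y = 0).card : ℝ)
        ≤ (((4 * K : ℕ) : ℝ) + 4) ^ 3 * (B : ℝ) ^ 2 / (ht v : ℝ) +
          (((4 * K : ℕ) : ℝ) + 4) ^ 3 * (B : ℝ) ^ 2 / (ht u : ℝ) := by linarith
      _ ≤ 2 * (((4 * K : ℕ) : ℝ) + 4) ^ 3 * (B : ℝ) ^ 2 / (ht v : ℝ) := by
          have : 2 * (((4 * K : ℕ) : ℝ) + 4) ^ 3 * (B : ℝ) ^ 2 / (ht v : ℝ) =
            (((4 * K : ℕ) : ℝ) + 4) ^ 3 * (B : ℝ) ^ 2 / (ht v : ℝ) +
            (((4 * K : ℕ) : ℝ) + 4) ^ 3 * (B : ℝ) ^ 2 / (ht v : ℝ) := by ring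
          rw [this]
          linarith
      _ ≤ _ := by linarith
  · -- at most one point
    have h1 : ((bx 3 B).filter fun y => Rep y ∧ qf (gm M x) y = 0).card ≤ 1 := by
      rw [Finset.card_le_one]
      intro a ha b hb
      rw [mem_filter] at ha hb
      by_contra hne
      obtain ⟨v, hv, hv'⟩ := line_of_points (gm M x) (gm_symm M hM x) hd a b ha.2.1 hb.2.1 hne
        ha.2.2 hb.2.2
      exact hex ⟨v, hv, hv'⟩
    have h2 : (((bx 3 B).filter fun y => Rep y ∧ qf (gm M x) y = 0).card : ℝ) ≤ 1 := by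
      exact_mod_cast h1
    have h3 : 0 ≤ ∑ v ∈ ((bx 3 (4 * K * B)).filter (· ≠ 0)).filter fun v => Mn M x v,
        2 * (((4 * K : ℕ) : ℝ) + 4) ^ 3 * (B : ℝ) ^ 2 / (ht v : ℝ) :=
      Finset.sum_nonneg fun v _ => by positivity
    linarith

open Classical in
/-- **The degenerate conics.** -/
theorem deg_count {N : ℕ} (hN : 3 ≤ N) {M : Fin N → Matrix (Fin 3) (Fin 3) ℤ}
    (hM : ∀ i, (M i).IsSymm) (hb : Bpf M) (hI : Ind M) (ε : ℝ) (hε : 0 < ε) :
    ∃ C : ℝ, 0 ≤ C ∧ ∀ B : ℕ, 1 ≤ B →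
      ∑ x ∈ (bx N B).filter (fun x => x ≠ 0 ∧ (gm M x).det = 0),
        (((bx 3 B).filter fun y => Rep y ∧ qf (gm M x) y = 0).card : ℝ) ≤
        C * ((B : ℝ) ^ N * (B : ℝ) ^ ε) := by
  obtain ⟨K, hK1, hK⟩ := gm_size M
  obtain ⟨C1, hC10, hC1⟩ := count_x hN hM hb hI
  set c : ℝ := 2 * (((4 * K : ℕ) : ℝ) + 4) ^ 3 with hc
  refine ⟨3 ^ N + c * C1 * (26 * (1 + Real.log (4 * K) + 1 / ε)), by
    have : 0 ≤ Real.log (4 * K) := Real.log_nonneg (by
      have : (1 : ℝ) ≤ K := by exact_mod_cast hK1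
      linarith)
    positivity, ?_⟩
  intro B hB
  have hB1 : (1 : ℝ) ≤ B := by exact_mod_cast hB
  have hB0 : (0 : ℝ) < B := by linarith
  have hBε : (1 : ℝ) ≤ (B : ℝ) ^ ε := Real.one_le_rpow hB1 hε.le
  have hK1' : (1 : ℝ) ≤ K := by exact_mod_cast hK1
  set X := (bx N B).filter (fun x => x ≠ 0 ∧ (gm M x).det = 0) with hX
  set Vs := (bx 3 (4 * K * B)).filter (· ≠ 0) with hVs
  have h1 : ∑ x ∈ X, (((bx 3 B).filter fun y => Rep y ∧ qf (gm M x) y = 0).card : ℝ) ≤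
      ∑ x ∈ X, (1 + ∑ v ∈ Vs.filter (fun v => Mn M x v), c * (B : ℝ) ^ 2 / (ht v : ℝ)) := by
    refine Finset.sum_le_sum fun x hx => ?_
    rw [hX, mem_filter, mem_bx] at hx
    exact fibre_deg hM hI hK B hB x hx.2.1 hx.1 hx.2.2
  refine h1.trans ?_
  rw [Finset.sum_add_distrib]
  have h2 : ∑ _x ∈ X, (1 : ℝ) ≤ 3 ^ N * (B : ℝ) ^ N := by
    rw [Finset.sum_const, nsmul_eq_mul, mul_one]
    have e1 : (X.card : ℝ) ≤ ((bx N B).card : ℝ) := by
      exact_mod_cast Finset.card_filter_le _ _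
    have e2 := card_bx_le N hB
    rw [mul_pow] at e2
    exact e1.trans e2
  have h3 : ∑ x ∈ X, ∑ v ∈ Vs.filter (fun v => Mn M x v), c * (B : ℝ) ^ 2 / (ht v : ℝ) =
      ∑ v ∈ Vs, ((X.filter fun x => Mn M x v).card : ℝ) * (c * (B : ℝ) ^ 2 / (ht v : ℝ)) := by
    simp only [Finset.sum_filter]
    rw [Finset.sum_comm]
    refine Finset.sum_congr rfl fun v _ => ?_
    rw [← Finset.sum_filter, Finset.sum_const, nsmul_eq_mul]
  rw [h3]
  have h4 : ∀ v ∈ Vs, ((X.filter fun x => Mn M x v).card : ℝ) * (c * (B : ℝ) ^ 2 / (ht v : ℝ)) ≤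
      c * C1 * (B : ℝ) ^ N * (1 / (ht v : ℝ) ^ 3) := by
    intro v hv
    rw [hVs, mem_filter] at hv
    have hv1 : 1 ≤ ht v := ht_pos hv.2
    have hv0 : (0 : ℝ) < ht v := by exact_mod_cast hv1
    by_cases hr : Rep v
    · have e1 : ((X.filter fun x => Mn M x v).card : ℝ) ≤
          (((bx N B).filter fun x => x ≠ 0 ∧ Mn M x v).card : ℝ) := by
        have : (X.filter fun x => Mn M x v) ⊆ ((bx N B).filter fun x => x ≠ 0 ∧ Mn M x v) := by
          intro x hx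
          rw [mem_filter, hX, mem_filter] at hx
          rw [mem_filter]
          exact ⟨hx.1.1, hx.1.2.1, hx.2⟩
        exact_mod_cast Finset.card_le_card this
      have e2 := hC1 v hr B hB
      have hBN : (B : ℝ) ^ N = (B : ℝ) ^ (N - 2) * (B : ℝ) ^ 2 := by
        rw [← pow_add]
        congr 1
        omega
      calc ((X.filter fun x => Mn M x v).card : ℝ) * (c * (B : ℝ) ^ 2 / (ht v : ℝ))
          ≤ (C1 * (B : ℝ) ^ (N - 2) / (ht v : ℝ) ^ 2) * (c * (B : ℝ) ^ 2 / (ht v : ℝ)) := by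
            gcongr
            exact e1.trans e2
        _ = _ := by
            rw [hBN]
            field_simp
    · have : X.filter (fun x => Mn M x v) = ∅ := by
        rw [Finset.filter_eq_empty_iff]
        intro x _ h
        exact hr h.1
      rw [this, card_empty, Nat.cast_zero, zero_mul]
      positivity
  have h5 : ∑ v ∈ Vs, ((X.filter fun x => Mn M x v).card : ℝ) * (c * (B : ℝ) ^ 2 / (ht v : ℝ)) ≤
      c * C1 * (B : ℝ) ^ N * (26 * (1 + Real.log ((4 * K * B : ℕ) : ℝ))) := by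
    refine (Finset.sum_le_sum h4).trans ?_
    rw [← Finset.mul_sum]
    have := shell_sum (4 * K * B)
    gcongr
  have h6 : 1 + Real.log ((4 * K * B : ℕ) : ℝ) ≤ (1 + Real.log (4 * K) + 1 / ε) * (B : ℝ) ^ ε := by
    push_cast
    rw [Real.log_mul (by positivity) (by positivity)]
    have e1 : Real.log B ≤ (B : ℝ) ^ ε / ε := Real.log_le_rpow_div hB0.le hε
    have e2 : 0 ≤ Real.log (4 * K) := Real.log_nonneg (by linarith)
    have e3 : (B : ℝ) ^ ε / ε = 1 / ε * (B : ℝ) ^ ε := by ring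
    rw [e3] at e1
    nlinarith
  have hcC : 0 ≤ c * C1 * (B : ℝ) ^ N * 26 := by positivity
  calc ∑ _x ∈ X, (1 : ℝ) + ∑ v ∈ Vs, ((X.filter fun x => Mn M x v).card : ℝ) *
        (c * (B : ℝ) ^ 2 / (ht v : ℝ))
      ≤ 3 ^ N * (B : ℝ) ^ N + c * C1 * (B : ℝ) ^ N * (26 * (1 + Real.log ((4 * K * B : ℕ) : ℝ))) :=
        add_le_add h2 h5
    _ ≤ 3 ^ N * ((B : ℝ) ^ N * (B : ℝ) ^ ε) + c * C1 * (B : ℝ) ^ N *
        (26 * ((1 + Real.log (4 * K) + 1 / ε) * (B : ℝ) ^ ε)) := by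
        have e1 : (B : ℝ) ^ N ≤ (B : ℝ) ^ N * (B : ℝ) ^ ε :=
          le_mul_of_one_le_right (by positivity) hBε
        gcongr
    _ = _ := by ring

end Pool.Agent.K1H65.CB
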