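import Mathlib
import Pool.Agent.K1H65.CB.Deg2
import Pool.Agent.K1H65.CB.Cnc

/-!
# The number of points in a box
-/

set_option autoImplicit false

namespace Pool.Agent.K1H65.CB

open Matrix Finset Module
open Pool.Agent.H548.WM (ht bx mem_bx le_ht' ht_le card_bx_le Rep exists_ht ht_pos hyp)
open Pool.Agent.H548.BL (rc doubling orth mem_orth finrank_orth rc_dot rc_inj lat mem_lat
  lat_doubling)
open Pool.Agent.R38.NC (qf Prim rep_prim rep_neg bezout3 det_bound)

theorem sum_union_le {α : Type*} [DecidableEq α] {f : α → ℝ} (hf : ∀ x, 0 ≤ f x)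
    (s t : Finset α) : ∑ x ∈ s ∪ t, f x ≤ ∑ x ∈ s, f x + ∑ x ∈ t, f x := by
  have h1 := Finset.sum_union_inter (s₁ := s) (s₂ := t) (f := f)
  have h2 : 0 ≤ ∑ x ∈ s ∩ t, f x := Finset.sum_nonneg fun x _ => hf x
  linarith

/-- the points in a box on the smooth conics -/
noncomputable def nd {N : ℕ} (M : Fin N → Matrix (Fin 3) (Fin 3) ℤ) (A B : ℕ) : ℝ := by
  classical
  exact ∑ x ∈ (bx N A).filter (fun x => (gm M x).det ≠ 0),
    (((bx 3 B).filter fun y => Rep y ∧ qf (gm M x) y = 0).card : ℝ)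

open Classical in
/-- The points of a smooth conic in a box. -/
theorem fibre_nd (A : Matrix (Fin 3) (Fin 3) ℤ) (hA : A.IsSymm) (hd : A.det ≠ 0) (B : ℕ) :
    (((bx 3 B).filter fun y => Rep y ∧ qf A y = 0).card : ℝ) ≤
      1 + ((Nat.divisors (2 * A.det.natAbs)).card : ℝ) ^ 2 * (10 + 40 * (B : ℝ) * Fs A) := by
  have h := con3 _ A rfl hA hd (eE A) (fun k hk => by exact_mod_cast le_eE hd hk) ((B : ℝ) ^ 3)
    ((bx 3 B).filter fun y => Rep y ∧ qf A y = 0) (by positivity)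
    (by
      intro x hx
      rw [mem_filter] at hx
      exact ⟨rep_prim hx.2.1, hx.2.2⟩)
    (by
      intro x hx y hy hxy
      rw [mem_filter] at hx hy
      exact rep_neg hx.2.1 hy.2.1 hxy)
    (by
      intro x hx y hy z hz
      rw [mem_filter, mem_bx] at hx hy hz
      have hb := det_bound ![x, y, z] (B : ℤ) (by
        intro i j
        have e1 := le_ht' x j
        have e2 := le_ht' y j
        have e3 := le_ht' z j
        have f1 : (ht x : ℤ) ≤ B := by exact_mod_cast hx.1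
        have f2 : (ht y : ℤ) ≤ B := by exact_mod_cast hy.1
        have f3 : (ht z : ℤ) ≤ B := by exact_mod_cast hz.1
        fin_cases i
        · exact e1.trans f1
        · exact e2.trans f2
        · exact e3.trans f3)
      exact_mod_cast hb)
  refine h.trans (le_of_eq ?_)
  have hn : (0 : ℝ) < A.det.natAbs := by exact_mod_cast Int.natAbs_pos.2 hd
  have e : 40 * (eE A : ℝ) * ((B : ℝ) ^ 3 / (A.det.natAbs : ℝ)) ^ ((1 : ℝ) / 3) =
      40 * (B : ℝ) * Fs A := by
    unfold Fs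
    rw [if_neg hd, Real.div_rpow (by positivity) hn.le, ← Real.rpow_natCast,
      ← Real.rpow_mul (by positivity), show ((3 : ℕ) : ℝ) * (1 / 3) = 1 by norm_num,
      Real.rpow_one]
    ring
  rw [e]

open Classical in
/-- The first bound. -/
theorem box_one {N : ℕ} (hN : 3 ≤ N) {M : Fin N → Matrix (Fin 3) (Fin 3) ℤ}
    (hM : ∀ i, (M i).IsSymm) (hb : Bpf M) (hI : Ind M) (ε : ℝ) (hε : 0 < ε) :
    ∃ C : ℝ, 0 ≤ C ∧ ∀ A B : ℕ, 1 ≤ A → 1 ≤ B →
      nd M A B ≤ C * ((A : ℝ) ^ (N - 1) * ((A : ℝ) + B) * (A : ℝ) ^ ε) := by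
  obtain ⟨d, hd⟩ := exists_det_ne M hM (bpf_int hb)
  obtain ⟨w, w', u0, hw, hP⟩ := exists_pencil hN M hM hI d hd
  obtain ⟨C1, hC1, hsum⟩ := esum (by omega) M d hd w w' hw u0 hP (ε / 3) (by positivity)
  obtain ⟨C2, hC2, hdiv⟩ := div_bound (MvPolynomial.C 2 * DP M) (ε / 3) (by positivity)
  have hC20 : 0 ≤ C2 := by linarith
  refine ⟨C2 ^ 2 * (11 * 3 ^ N + 40 * C1), by positivity, ?_⟩
  intro A B hA hB
  have hA1 : (1 : ℝ) ≤ A := by exact_mod_cast hA
  have hA0 : (0 : ℝ) < A := by linarith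
  have hB1 : (1 : ℝ) ≤ B := by exact_mod_cast hB
  have hAε : (1 : ℝ) ≤ (A : ℝ) ^ (ε / 3) := Real.one_le_rpow hA1 (by positivity)
  set c : ℝ := (C2 * (A : ℝ) ^ (ε / 3)) ^ 2 with hc
  have hc1 : 1 ≤ c := by
    rw [hc]
    exact one_le_pow₀ (by nlinarith)
  have hfib : ∀ x ∈ (bx N A).filter (fun x => (gm M x).det ≠ 0),
      (((bx 3 B).filter fun y => Rep y ∧ qf (gm M x) y = 0).card : ℝ) ≤
        c * (11 + 40 * (B : ℝ) * Fs (gm M x)) := by
    intro x hx
    rw [mem_filter, mem_bx] at hx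
    have h1 := fibre_nd (gm M x) (gm_symm M hM x) hx.2 B
    have h2 := hdiv A hA x hx.1 (by
      rw [map_mul, MvPolynomial.eval_C, eval_DP]
      exact mul_ne_zero two_ne_zero hx.2)
    rw [map_mul, MvPolynomial.eval_C, eval_DP, Int.natAbs_mul] at h2
    have h3 : ((Nat.divisors (2 * (gm M x).det.natAbs)).card : ℝ) ^ 2 ≤ c := by
      rw [hc]
      gcongr
      exact h2
    have h4 : 0 ≤ 40 * (B : ℝ) * Fs (gm M x) := by
      have := Fs_nonneg (gm M x)
      positivity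
    calc (((bx 3 B).filter fun y => Rep y ∧ qf (gm M x) y = 0).card : ℝ)
        ≤ 1 + ((Nat.divisors (2 * (gm M x).det.natAbs)).card : ℝ) ^ 2 *
          (10 + 40 * (B : ℝ) * Fs (gm M x)) := h1
      _ ≤ c + c * (10 + 40 * (B : ℝ) * Fs (gm M x)) := by gcongr
      _ = _ := by ring
  have h1 : nd M A B ≤ ∑ x ∈ bx N A, c * (11 + 40 * (B : ℝ) * Fs (gm M x)) := by
    unfold nd
    refine (Finset.sum_le_sum hfib).trans ?_
    apply Finset.sum_le_sum_of_subset_of_nonneg (Finset.filter_subset _ _)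
    intro x _ _
    have := Fs_nonneg (gm M x)
    positivity
  have h2 : ∑ x ∈ bx N A, c * (11 + 40 * (B : ℝ) * Fs (gm M x)) =
      c * (11 * ((bx N A).card : ℝ) + 40 * (B : ℝ) * ∑ x ∈ bx N A, Fs (gm M x)) := by
    rw [← Finset.mul_sum, Finset.sum_add_distrib, Finset.sum_const, nsmul_eq_mul,
      ← Finset.mul_sum]
    ring
  have h3 := hsum A hA
  have h4 := card_bx_le N hA
  have hAN : (A : ℝ) ^ N = (A : ℝ) ^ (N - 1) * A := by
    rw [← pow_succ]
    congr 1
    omega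
  have hc2 : c = C2 ^ 2 * ((A : ℝ) ^ (ε / 3) * (A : ℝ) ^ (ε / 3)) := by
    rw [hc]
    ring
  have hε3 : (A : ℝ) ^ (ε / 3) * (A : ℝ) ^ (ε / 3) * (A : ℝ) ^ (ε / 3) = (A : ℝ) ^ ε := by
    rw [← Real.rpow_add hA0, ← Real.rpow_add hA0]
    congr 1
    ring
  calc nd M A B ≤ c * (11 * ((bx N A).card : ℝ) + 40 * (B : ℝ) * ∑ x ∈ bx N A, Fs (gm M x)) :=
        h1.trans (le_of_eq h2)
    _ ≤ c * (11 * (3 * (A : ℝ)) ^ N + 40 * (B : ℝ) *
        (C1 * ((A : ℝ) ^ (N - 1) * (A : ℝ) ^ (ε / 3)))) := by gcongr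
    _ ≤ c * (11 * 3 ^ N * ((A : ℝ) ^ (N - 1) * ((A : ℝ) + B) * (A : ℝ) ^ (ε / 3)) +
        40 * C1 * ((A : ℝ) ^ (N - 1) * ((A : ℝ) + B) * (A : ℝ) ^ (ε / 3))) := by
        have e1 : 11 * (3 * (A : ℝ)) ^ N ≤
            11 * 3 ^ N * ((A : ℝ) ^ (N - 1) * ((A : ℝ) + B) * (A : ℝ) ^ (ε / 3)) := by
          rw [mul_pow, hAN]
          have e2 : (A : ℝ) ^ (N - 1) * A ≤
              (A : ℝ) ^ (N - 1) * ((A : ℝ) + B) * (A : ℝ) ^ (ε / 3) := by
            calc (A : ℝ) ^ (N - 1) * A ≤ (A : ℝ) ^ (N - 1) * ((A : ℝ) + B) * 1 := by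
                  rw [mul_one]
                  gcongr
                  linarith
              _ ≤ _ := by gcongr
          calc 11 * (3 ^ N * ((A : ℝ) ^ (N - 1) * A)) = 11 * 3 ^ N * ((A : ℝ) ^ (N - 1) * A) := by
                ring
            _ ≤ _ := by gcongr
        have e3 : 40 * (B : ℝ) * (C1 * ((A : ℝ) ^ (N - 1) * (A : ℝ) ^ (ε / 3))) ≤
            40 * C1 * ((A : ℝ) ^ (N - 1) * ((A : ℝ) + B) * (A : ℝ) ^ (ε / 3)) := by
          calc 40 * (B : ℝ) * (C1 * ((A : ℝ) ^ (N - 1) * (A : ℝ) ^ (ε / 3))) =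
                40 * C1 * ((A : ℝ) ^ (N - 1) * (B : ℝ) * (A : ℝ) ^ (ε / 3)) := by ring
            _ ≤ _ := by
                gcongr
                linarith
        have : (0 : ℝ) ≤ c := by linarith
        gcongr
    _ = C2 ^ 2 * (11 * 3 ^ N + 40 * C1) * ((A : ℝ) ^ (N - 1) * ((A : ℝ) + B) *
        ((A : ℝ) ^ (ε / 3) * (A : ℝ) ^ (ε / 3) * (A : ℝ) ^ (ε / 3))) := by
        rw [hc2]
        ring
    _ = _ := by rw [hε3]

open Classical in
/-- **The number of points in a box, independent conics.** -/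
theorem box_ind {N : ℕ} (hN : 3 ≤ N) {M : Fin N → Matrix (Fin 3) (Fin 3) ℤ}
    (hM : ∀ i, (M i).IsSymm) (hb : Bpf M) (hI : Ind M) (ε : ℝ) (hε : 0 < ε) :
    ∃ C : ℝ, 0 ≤ C ∧ ∀ A B : ℕ, 1 ≤ A → 1 ≤ B →
      nd M A B ≤ C * ((A : ℝ) ^ (N - 1) * B * ((A : ℝ) * B) ^ ε) := by
  obtain ⟨C1, hC1, h1⟩ := box_one hN hM hb hI ε hε
  obtain ⟨C2, hC2, h2⟩ := deg_count hN hM hb hI ε hε
  refine ⟨2 * C1 + 3 ^ (N - 1) * (27 + 2 * C1 + C2), by positivity, ?_⟩
  intro A B hA hB
  have hA1 : (1 : ℝ) ≤ A := by exact_mod_cast hA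
  have hA0 : (0 : ℝ) < A := by linarith
  have hB1 : (1 : ℝ) ≤ B := by exact_mod_cast hB
  have hB0 : (0 : ℝ) < B := by linarith
  have hAB : ((A : ℝ) * B) ^ ε = (A : ℝ) ^ ε * (B : ℝ) ^ ε :=
    Real.mul_rpow hA0.le hB0.le
  have hAε : (1 : ℝ) ≤ (A : ℝ) ^ ε := Real.one_le_rpow hA1 hε.le
  have hBε : (1 : ℝ) ≤ (B : ℝ) ^ ε := Real.one_le_rpow hB1 hε.le
  rcases le_or_gt A B with hle | hlt
  · have e0 : (A : ℝ) ≤ B := by exact_mod_cast hle
    have e1 := h1 A B hA hB
    have e2 : C1 * ((A : ℝ) ^ (N - 1) * ((A : ℝ) + B) * (A : ℝ) ^ ε) ≤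
        2 * C1 * ((A : ℝ) ^ (N - 1) * B * ((A : ℝ) * B) ^ ε) := by
      rw [hAB]
      calc C1 * ((A : ℝ) ^ (N - 1) * ((A : ℝ) + B) * (A : ℝ) ^ ε)
          ≤ C1 * ((A : ℝ) ^ (N - 1) * (B + B) * ((A : ℝ) ^ ε * 1)) := by
            rw [mul_one]
            gcongr
        _ ≤ C1 * ((A : ℝ) ^ (N - 1) * (B + B) * ((A : ℝ) ^ ε * (B : ℝ) ^ ε)) := by gcongr
        _ = _ := by ring
    have e3 : (0 : ℝ) ≤ 3 ^ (N - 1) * (27 + 2 * C1 + C2) *
        ((A : ℝ) ^ (N - 1) * B * ((A : ℝ) * B) ^ ε) := by positivity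
    linarith
  · have hBA : B ≤ A := hlt.le
    -- exchange the sums
    set Y := (bx 3 B).filter (fun y => Rep y) with hY
    have hswap : ∀ (X : Finset (Fin N → ℤ)), ∑ x ∈ X,
        (((bx 3 B).filter fun y => Rep y ∧ qf (gm M x) y = 0).card : ℝ) =
        ∑ y ∈ Y, ((X.filter fun x => qf (gm M x) y = 0).card : ℝ) := by
      intro X
      have e1 : ∀ x, ((bx 3 B).filter fun y => Rep y ∧ qf (gm M x) y = 0) =
          Y.filter fun y => qf (gm M x) y = 0 := by
        intro x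
        rw [hY, Finset.filter_filter]
      simp only [e1]
      have e2 : ∀ x ∈ X, ((Y.filter fun y => qf (gm M x) y = 0).card : ℝ) =
          ∑ y ∈ Y, if qf (gm M x) y = 0 then (1 : ℝ) else 0 := by
        intro x _
        rw [← Finset.sum_filter, Finset.sum_const, nsmul_eq_mul, mul_one]
      have e3 : ∀ y ∈ Y, ((X.filter fun x => qf (gm M x) y = 0).card : ℝ) =
          ∑ x ∈ X, if qf (gm M x) y = 0 then (1 : ℝ) else 0 := by
        intro y _
        rw [← Finset.sum_filter, Finset.sum_const, nsmul_eq_mul, mul_one]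
      rw [Finset.sum_congr rfl e2, Finset.sum_congr rfl e3, Finset.sum_comm]
    have e1 : nd M A B ≤ ∑ y ∈ Y, (((bx N A).filter fun x => qf (gm M x) y = 0).card : ℝ) := by
      rw [← hswap]
      unfold nd
      apply Finset.sum_le_sum_of_subset_of_nonneg (Finset.filter_subset _ _)
      intro x _ _
      positivity
    have e2 : ∀ y ∈ Y, (((bx N A).filter fun x => qf (gm M x) y = 0).card : ℝ) ≤
        (3 * A / B) ^ (N - 1) * (((bx N B).filter fun x => qf (gm M x) y = 0).card : ℝ) := by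
      intro y hy
      rw [hY, mem_filter] at hy
      set w : Fin 1 → Fin N → ℤ := fun _ l => qf (M l) y with hw
      have hwi : LinearIndependent ℤ w := by
        rw [linearIndependent_unique_iff]
        intro h0
        obtain ⟨l, hl⟩ := bpf_int hb y (rep_ne hy.2)
        exact hl (congrFun h0 l)
      have hlat : ∀ x, x ∈ lat w ↔ qf (gm M x) y = 0 := by
        intro x
        rw [mem_lat, qf_gm_int]
        constructor
        · intro h
          have := h 0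
          rw [dotProduct] at this
          rw [← this]
          exact Finset.sum_congr rfl fun l _ => mul_comm _ _
        · intro h _
          rw [dotProduct, ← h]
          exact Finset.sum_congr rfl fun l _ => mul_comm _ _
      have e3 := lat_doubling hwi A B hB hBA
      simp only [hlat, Fintype.card_fin] at e3
      exact e3
    have e3 : ∑ y ∈ Y, (((bx N B).filter fun x => qf (gm M x) y = 0).card : ℝ) ≤
        (27 + 2 * C1 + C2) * ((B : ℝ) ^ N * (B : ℝ) ^ ε) := by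
      rw [← hswap]
      -- the three parts
      have hsplit : ∑ x ∈ bx N B,
          (((bx 3 B).filter fun y => Rep y ∧ qf (gm M x) y = 0).card : ℝ) ≤
          (((bx 3 B).card : ℕ) : ℝ) + nd M B B +
          ∑ x ∈ (bx N B).filter (fun x => x ≠ 0 ∧ (gm M x).det = 0),
            (((bx 3 B).filter fun y => Rep y ∧ qf (gm M x) y = 0).card : ℝ) := by
        have hcov : bx N B ⊆ ({0} ∪ (bx N B).filter (fun x => (gm M x).det ≠ 0)) ∪
            (bx N B).filter (fun x => x ≠ 0 ∧ (gm M x).det = 0) := by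
          intro x hx
          rw [mem_union, mem_union, mem_filter, mem_filter, mem_singleton]
          by_cases h0 : x = 0
          · exact Or.inl (Or.inl h0)
          · by_cases h3 : (gm M x).det = 0
            · exact Or.inr ⟨hx, h0, h3⟩
            · exact Or.inl (Or.inr ⟨hx, h3⟩)
        have hnn : ∀ x, (0 : ℝ) ≤
            (((bx 3 B).filter fun y => Rep y ∧ qf (gm M x) y = 0).card : ℝ) :=
          fun x => by positivity
        refine (Finset.sum_le_sum_of_subset_of_nonneg hcov fun x _ _ => hnn x).trans ?_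
        refine (sum_union_le hnn _ _).trans ?_
        refine add_le_add ((sum_union_le hnn _ _).trans ?_) le_rfl
        rw [Finset.sum_singleton]
        refine add_le_add ?_ ?_
        · exact_mod_cast Finset.card_filter_le _ _
        · unfold nd
          exact le_rfl
      refine hsplit.trans ?_
      have f1 : (((bx 3 B).card : ℕ) : ℝ) ≤ 27 * ((B : ℝ) ^ N * (B : ℝ) ^ ε) := by
        have g1 := card_bx_le 3 hB
        have g2 : (B : ℝ) ^ 3 ≤ (B : ℝ) ^ N := pow_le_pow_right₀ hB1 hN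
        calc (((bx 3 B).card : ℕ) : ℝ) ≤ (3 * (B : ℝ)) ^ 3 := g1
          _ = 27 * ((B : ℝ) ^ 3 * 1) := by ring
          _ ≤ _ := by gcongr
      have f2 : nd M B B ≤ 2 * C1 * ((B : ℝ) ^ N * (B : ℝ) ^ ε) := by
        refine (h1 B B hB hB).trans (le_of_eq ?_)
        have hBN : (B : ℝ) ^ N = (B : ℝ) ^ (N - 1) * B := by
          rw [← pow_succ]
          congr 1
          omega
        rw [hBN]
        ring
      have f3 := h2 B hB
      linarith
    have e4 : nd M A B ≤ (3 * A / B) ^ (N - 1) *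
        ((27 + 2 * C1 + C2) * ((B : ℝ) ^ N * (B : ℝ) ^ ε)) := by
      refine e1.trans ((Finset.sum_le_sum e2).trans ?_)
      rw [← Finset.mul_sum]
      gcongr
    refine e4.trans ?_
    have hBN : (B : ℝ) ^ N = (B : ℝ) ^ (N - 1) * B := by
      rw [← pow_succ]
      congr 1
      omega
    have e5 : (3 * (A : ℝ) / B) ^ (N - 1) * ((27 + 2 * C1 + C2) * ((B : ℝ) ^ N * (B : ℝ) ^ ε)) =
        3 ^ (N - 1) * (27 + 2 * C1 + C2) * ((A : ℝ) ^ (N - 1) * B * (1 * (B : ℝ) ^ ε)) := by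
      rw [hBN, div_pow, mul_pow]
      field_simp
    rw [e5, hAB]
    have e6 : 3 ^ (N - 1) * (27 + 2 * C1 + C2) * ((A : ℝ) ^ (N - 1) * B * (1 * (B : ℝ) ^ ε)) ≤
        3 ^ (N - 1) * (27 + 2 * C1 + C2) * ((A : ℝ) ^ (N - 1) * B * ((A : ℝ) ^ ε * (B : ℝ) ^ ε)) := by
      gcongr
    have e7 : (0 : ℝ) ≤ 2 * C1 * ((A : ℝ) ^ (N - 1) * B * ((A : ℝ) ^ ε * (B : ℝ) ^ ε)) := by
      positivity
    linarith

end Pool.Agent.K1H65.CB
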