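import Mathlib
import Pool.Agent.K1H65.CB.Vlat

/-!
# Two conics have a common point
-/

set_option autoImplicit false

namespace Pool.Agent.K1H65.CB

open Matrix Finset
open Pool.Agent.R38.NC (qf)

theorem binary (p q r : ℂ) : ∃ a b : ℂ, (a ≠ 0 ∨ b ≠ 0) ∧ a ^ 2 * p + 2 * a * b * q + b ^ 2 * r = 0 := by
  by_cases hp : p = 0
  · exact ⟨1, 0, Or.inl one_ne_zero, by rw [hp]; ring⟩
  · obtain ⟨s, hs⟩ : ∃ s : ℂ, p * (s * s) + (2 * q) * s + r = 0 :=
      exists_quadratic_eq_zero hp (IsAlgClosed.exists_eq_mul_self _)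
    exact ⟨s, 1, Or.inr one_ne_zero, by linear_combination hs⟩

theorem deg_zero (C E : Matrix (Fin 3) (Fin 3) ℂ) (hC : C.IsSymm) (hE : E.IsSymm)
    (hd : C.det = 0) : ∃ y : Fin 3 → ℂ, y ≠ 0 ∧ qf C y = 0 ∧ qf E y = 0 := by
  obtain ⟨z, hz0, hz⟩ := Matrix.exists_mulVec_eq_zero_iff.2 hd
  obtain ⟨k, hk⟩ : ∃ k, z k ≠ 0 := by
    by_contra h0
    push Not at h0
    exact hz0 (funext h0)
  obtain ⟨i, j, hik, hjk, hij⟩ : ∃ i j : Fin 3, i ≠ k ∧ j ≠ k ∧ i ≠ j := by
    fin_cases k
    · exact ⟨1, 2, by decide, by decide, by decide⟩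
    · exact ⟨0, 2, by decide, by decide, by decide⟩
    · exact ⟨0, 1, by decide, by decide, by decide⟩
  set e : Fin 3 → ℂ := Pi.single i 1 with he
  set f : Fin 3 → ℂ := Pi.single j 1 with hf
  obtain ⟨a, b, hab, h1⟩ := binary (qf C e) (bf C e f) (qf C f)
  set P : Fin 3 → ℂ := fun l => a * e l + b * f l with hP
  have hPC : qf C P = 0 := by
    rw [hP, qf_lin C hC]
    exact h1
  have hPk : P k = 0 := by
    rw [hP, he, hf]
    simp [Pi.single_eq_of_ne hik.symm, Pi.single_eq_of_ne hjk.symm]
  have hPi : P i = a := by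
    rw [hP, he, hf]
    simp [Pi.single_eq_of_ne hij]
  have hPj : P j = b := by
    rw [hP, he, hf]
    simp [Pi.single_eq_of_ne hij.symm]
  have hP0 : P ≠ 0 := by
    intro h0
    rcases hab with h | h
    · apply h
      rw [← hPi, h0, Pi.zero_apply]
    · apply h
      rw [← hPj, h0, Pi.zero_apply]
  have hCz : qf C z = 0 := by
    unfold qf
    rw [hz, dotProduct_zero]
  have hCPz : bf C P z = 0 := by
    unfold bf
    rw [hz, dotProduct_zero]
  obtain ⟨α, β, hαβ, h2⟩ := binary (qf E P) (bf E P z) (qf E z)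
  refine ⟨fun l => α * P l + β * z l, ?_, ?_, ?_⟩
  · intro h0
    have hβ : β = 0 := by
      have := congrFun h0 k
      simp only [hPk, mul_zero, zero_add, Pi.zero_apply] at this
      exact (mul_eq_zero.1 this).resolve_right hk
    rcases hαβ with h | h
    · apply hP0
      funext l
      have := congrFun h0 l
      simp only [hβ, zero_mul, add_zero, Pi.zero_apply] at this
      rw [Pi.zero_apply]
      exact (mul_eq_zero.1 this).resolve_left h
    · exact h hβ
  · rw [qf_lin C hC, hPC, hCz, hCPz]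
    ring
  · rw [qf_lin E hE]
    exact h2

/-- Two conics have a common complex point. -/
theorem two_conics (A B : Matrix (Fin 3) (Fin 3) ℂ) (hA : A.IsSymm) (hB : B.IsSymm) :
    ∃ y : Fin 3 → ℂ, y ≠ 0 ∧ qf A y = 0 ∧ qf B y = 0 := by
  by_cases hd : B.det = 0
  · obtain ⟨y, hy, h1, h2⟩ := deg_zero B A hB hA hd
    exact ⟨y, hy, h2, h1⟩
  · set f : Polynomial ℂ := ((Polynomial.X : Polynomial ℂ) • B.map Polynomial.C +
      A.map Polynomial.C).det with hf
    have hfd : f.natDegree = 3 := by
      apply le_antisymm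
      · have := Polynomial.natDegree_det_X_add_C_le B A
        rwa [Fintype.card_fin] at this
      · apply Polynomial.le_natDegree_of_ne_zero
        have := Polynomial.coeff_det_X_add_C_card B A
        rw [Fintype.card_fin] at this
        rw [hf, this]
        exact hd
    obtain ⟨t, ht⟩ := IsAlgClosed.exists_root f (by
      intro h0
      have := Polynomial.natDegree_eq_zero_iff_degree_le_zero.2 h0.le
      omega)
    have hfe : f.eval t = (A + t • B).det := by
      have h1 : f.eval t = (Polynomial.evalRingHom t) f := rfl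
      rw [h1, hf, RingHom.map_det]
      congr 1
      ext i j
      rw [RingHom.mapMatrix_apply, Matrix.map_apply, Matrix.add_apply, Matrix.smul_apply,
        Matrix.map_apply, Matrix.map_apply, Matrix.add_apply, Matrix.smul_apply]
      simp only [smul_eq_mul, map_add, map_mul, Polynomial.coe_evalRingHom, Polynomial.eval_X,
        Polynomial.eval_C]
      ring
    rw [Polynomial.IsRoot.def, hfe] at ht
    have hs : (A + t • B).IsSymm := by
      unfold Matrix.IsSymm
      rw [Matrix.transpose_add, Matrix.transpose_smul, hA.eq, hB.eq]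
    obtain ⟨y, hy, h1, h2⟩ := deg_zero (A + t • B) B hs hB ht
    refine ⟨y, hy, ?_, h2⟩
    have h3 : qf (A + t • B) y = qf A y + t * qf B y := by
      simp only [qf_expand, Matrix.add_apply, Matrix.smul_apply, smul_eq_mul]
      ring
    rw [h3, h2, mul_zero, add_zero] at h1
    exact h1

/-- A linear system without base points has at least three members. -/
theorem three_le {N : ℕ} {M : Fin N → Matrix (Fin 3) (Fin 3) ℤ} (hM : ∀ i, (M i).IsSymm)
    (hb : Bpf M) : 3 ≤ N := by
  by_contra hN
  set A : Matrix (Fin 3) (Fin 3) ℂ :=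
    if h : 0 < N then (M ⟨0, h⟩).map (Int.castRingHom ℂ) else 0 with hA
  set B : Matrix (Fin 3) (Fin 3) ℂ :=
    if h : 1 < N then (M ⟨1, h⟩).map (Int.castRingHom ℂ) else 0 with hB
  have hsym : ∀ i, ((M i).map (Int.castRingHom ℂ)).IsSymm := by
    intro i
    unfold Matrix.IsSymm
    rw [← Matrix.transpose_map, (hM i).eq]
  have hAs : A.IsSymm := by
    rw [hA]
    split_ifs
    · exact hsym _
    · exact Matrix.transpose_zero
  have hBs : B.IsSymm := by
    rw [hB]
    split_ifs
    · exact hsym _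
    · exact Matrix.transpose_zero
  obtain ⟨y, hy, h1, h2⟩ := two_conics A B hAs hBs
  obtain ⟨i, hi⟩ := hb y hy
  apply hi
  obtain ⟨i, hi'⟩ := i
  have : i = 0 ∨ i = 1 := by omega
  rcases this with rfl | rfl
  · rw [hA, dif_pos hi'] at h1
    exact h1
  · rw [hB, dif_pos hi'] at h2
    exact h2

end Pool.Agent.K1H65.CB
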