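import Mathlib
import Pool.Agent.K1H65.CB.Two
import Pool.Agent.K1H65.CB.Box

/-!
# Reduction to linearly independent conics
-/

set_option autoImplicit false

namespace Pool.Agent.K1H65.CB

open Matrix Finset Module
open Pool.Agent.H548.WM (ht bx mem_bx le_ht' ht_le card_bx_le Rep exists_ht ht_pos)
open Pool.Agent.H548.BL (lat mem_lat lat_card)
open Pool.Agent.R38.NC (qf)

/-- a maximal independent subsystem -/
theorem exists_sub {N : ℕ} (M : Fin N → Matrix (Fin 3) (Fin 3) ℤ) :
    ∃ (n : ℕ) (a : Fin n → Fin N) (D : ℤ) (γ : Fin N → Fin n → ℤ), D ≠ 0 ∧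
      Ind (fun j => M (a j)) ∧
      (∀ l j k, D * M l j k = ∑ i, γ l i * M (a i) j k) ∧
      (∀ i0 i, γ (a i0) i = if i = i0 then D else 0) := by
  classical
  set v : Fin N → Matrix (Fin 3) (Fin 3) ℚ := fun l => (M l).map (Int.cast : ℤ → ℚ) with hv
  obtain ⟨κ, a0, ha0, hspan, hli⟩ := exists_linearIndependent' ℚ v
  have : Finite κ := Finite.of_injective a0 ha0
  have : Fintype κ := Fintype.ofFinite κ
  set n := Fintype.card κ with hn
  set eq : Fin n ≃ κ := (Fintype.equivFin κ).symm with heq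
  set a : Fin n → Fin N := a0 ∘ eq with ha
  have hli' : LinearIndependent ℚ (v ∘ a) := hli.comp eq eq.injective
  have hspan' : Submodule.span ℚ (Set.range (v ∘ a)) = Submodule.span ℚ (Set.range v) := by
    rw [← hspan, ha, ← Function.comp_assoc, eq.surjective.range_comp]
  have hex : ∀ l, ∃ c : Fin n → ℚ, ∑ i, c i • v (a i) = v l := by
    intro l
    have h1 : v l ∈ Submodule.span ℚ (Set.range (v ∘ a)) := by
      rw [hspan']
      exact Submodule.subset_span ⟨l, rfl⟩
    exact (Submodule.mem_span_range_iff_exists_fun ℚ).1 h1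
  choose c hc using hex
  have hcδ : ∀ i0 i, c (a i0) i = if i = i0 then 1 else 0 := by
    intro i0 i
    have h1 : ∑ i, (c (a i0) i - if i = i0 then 1 else 0) • v (a i) = 0 := by
      simp only [sub_smul, Finset.sum_sub_distrib, hc, ite_smul, one_smul, zero_smul,
        Finset.sum_ite_eq', Finset.mem_univ, if_true, sub_self]
    have h2 := Fintype.linearIndependent_iff.1 hli' _ h1 i
    linarith
  -- the common denominator
  set D : ℕ := ∏ l, ∏ i, (c l i).den with hD
  have hD0 : D ≠ 0 := Finset.prod_ne_zero_iff.2 fun l _ =>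
    Finset.prod_ne_zero_iff.2 fun i _ => (c l i).den_nz
  have hint : ∀ l i, ∃ z : ℤ, (z : ℚ) = D * c l i := by
    intro l i
    have h1 : (c l i).den ∣ D :=
      (Finset.dvd_prod_of_mem (fun i => (c l i).den) (mem_univ i)).trans
        (Finset.dvd_prod_of_mem (fun l => ∏ i, (c l i).den) (mem_univ l))
    obtain ⟨m, hm⟩ := h1
    refine ⟨m * (c l i).num, ?_⟩
    rw [hm]
    push_cast
    have h2 : ((c l i).den : ℚ) * c l i = (c l i).num := by
      rw [mul_comm]
      exact Rat.mul_den_eq_num _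
    linear_combination -(m : ℚ) * h2
  choose γ hγ using hint
  refine ⟨n, a, D, γ, by exact_mod_cast hD0, ?_, ?_, ?_⟩
  · intro r hr
    have h1 : ∑ i, r i • v (a i) = 0 := by
      ext j k
      have h2 := congrFun (congrFun hr j) k
      rw [gm_apply] at h2
      rw [Matrix.sum_apply, ← h2]
      refine Finset.sum_congr rfl fun i _ => ?_
      rfl
    funext i
    exact Fintype.linearIndependent_iff.1 hli' _ h1 i
  · intro l j k
    have h1 : ((((D : ℤ) * M l j k : ℤ)) : ℚ) = ((∑ i, γ l i * M (a i) j k : ℤ) : ℚ) := by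
      push_cast
      have h2 := congrFun (congrFun (hc l) j) k
      rw [Matrix.sum_apply] at h2
      have h3 : v l j k = ((M l j k : ℤ) : ℚ) := by rw [hv]; rfl
      rw [← h3, ← h2, Finset.mul_sum]
      refine Finset.sum_congr rfl fun i _ => ?_
      rw [Matrix.smul_apply, smul_eq_mul, hγ l i]
      have h4 : v (a i) j k = ((M (a i) j k : ℤ) : ℚ) := by rw [hv]; rfl
      rw [h4]
      ring
    exact_mod_cast h1
  · intro i0 i
    have h1 := hγ (a i0) i
    rw [hcδ] at h1
    split_ifs at h1 ⊢ with h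
    · rw [mul_one] at h1
      exact_mod_cast h1
    · rw [mul_zero] at h1
      exact_mod_cast h1

theorem sum_comp_le {α β : Type*} [DecidableEq β] (X : Finset α) (Y : Finset β) (φ : α → β)
    (g : β → ℝ) (K : ℝ) (hg : ∀ y, 0 ≤ g y) (hφ : ∀ x ∈ X, φ x ∈ Y)
    (hK : ∀ y ∈ Y, ((X.filter fun x => φ x = y).card : ℝ) ≤ K) :
    ∑ x ∈ X, g (φ x) ≤ K * ∑ y ∈ Y, g y := by
  rw [← Finset.sum_fiberwise_of_maps_to hφ, Finset.mul_sum]
  refine Finset.sum_le_sum fun y hy => ?_
  have h1 : ∑ x ∈ X.filter (fun x => φ x = y), g (φ x) =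
      ((X.filter fun x => φ x = y).card : ℝ) * g y := by
    rw [← nsmul_eq_mul, ← Finset.sum_const]
    refine Finset.sum_congr rfl fun x hx => ?_
    rw [(Finset.mem_filter.1 hx).2]
  rw [h1]
  exact mul_le_mul_of_nonneg_right (hK y hy) (hg y)

open Classical in
/-- **The number of points in a box.** -/
theorem box_all {N : ℕ} {M : Fin N → Matrix (Fin 3) (Fin 3) ℤ}
    (hM : ∀ i, (M i).IsSymm) (hb : Bpf M) (ε : ℝ) (hε : 0 < ε) :
    ∃ C : ℝ, 0 ≤ C ∧ ∀ A B : ℕ, 1 ≤ A → 1 ≤ B →
      nd M A B ≤ C * ((A : ℝ) ^ (N - 1) * B * ((A : ℝ) * B) ^ ε) := by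
  obtain ⟨n, a, D, γ, hD, hI, hrel, hδ⟩ := exists_sub M
  set M' : Fin n → Matrix (Fin 3) (Fin 3) ℤ := fun j => M (a j) with hM'
  have hM's : ∀ i, (M' i).IsSymm := fun i => hM (a i)
  have hb' : Bpf M' := by
    intro y hy
    by_contra hcon
    push Not at hcon
    obtain ⟨l, hl⟩ := hb y hy
    apply hl
    have h1 : (D : ℂ) * qf ((M l).map (Int.castRingHom ℂ)) y =
        ∑ i, (γ l i : ℂ) * qf ((M' i).map (Int.castRingHom ℂ)) y := by
      have h2 : ∀ j k, (D : ℂ) * ((M l j k : ℤ) : ℂ) =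
          ∑ i, (γ l i : ℂ) * ((M (a i) j k : ℤ) : ℂ) := by
        intro j k
        exact_mod_cast congrArg (Int.cast : ℤ → ℂ) (hrel l j k)
      simp only [qf_expand, Matrix.map_apply, Int.coe_castRingHom, hM']
      have h3 : (D : ℂ) * (y 0 * (((M l 0 0 : ℤ) : ℂ) * y 0 + ((M l 0 1 : ℤ) : ℂ) * y 1 +
          ((M l 0 2 : ℤ) : ℂ) * y 2) +
          y 1 * (((M l 1 0 : ℤ) : ℂ) * y 0 + ((M l 1 1 : ℤ) : ℂ) * y 1 +
          ((M l 1 2 : ℤ) : ℂ) * y 2) +
          y 2 * (((M l 2 0 : ℤ) : ℂ) * y 0 + ((M l 2 1 : ℤ) : ℂ) * y 1 +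
          ((M l 2 2 : ℤ) : ℂ) * y 2)) =
          y 0 * y 0 * ((D : ℂ) * ((M l 0 0 : ℤ) : ℂ)) + y 0 * y 1 * ((D : ℂ) * ((M l 0 1 : ℤ) : ℂ)) +
          y 0 * y 2 * ((D : ℂ) * ((M l 0 2 : ℤ) : ℂ)) + y 1 * y 0 * ((D : ℂ) * ((M l 1 0 : ℤ) : ℂ)) +
          y 1 * y 1 * ((D : ℂ) * ((M l 1 1 : ℤ) : ℂ)) + y 1 * y 2 * ((D : ℂ) * ((M l 1 2 : ℤ) : ℂ)) +
          y 2 * y 0 * ((D : ℂ) * ((M l 2 0 : ℤ) : ℂ)) + y 2 * y 1 * ((D : ℂ) * ((M l 2 1 : ℤ) : ℂ)) +
          y 2 * y 2 * ((D : ℂ) * ((M l 2 2 : ℤ) : ℂ)) := by ring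
      rw [h3]
      simp only [h2, Finset.mul_sum, ← Finset.sum_add_distrib]
      refine Finset.sum_congr rfl fun i _ => ?_
      ring
    have h4 : (D : ℂ) * qf ((M l).map (Int.castRingHom ℂ)) y = 0 := by
      rw [h1]
      exact Finset.sum_eq_zero fun i _ => by rw [hcon i, mul_zero]
    exact (mul_eq_zero.1 h4).resolve_left (by exact_mod_cast hD)
  have hn3 : 3 ≤ n := three_le hM's hb'
  obtain ⟨C, hC0, hC⟩ := box_ind hn3 hM's hb' hI ε hε
  -- the change of the parameters
  set φ : (Fin N → ℤ) → (Fin n → ℤ) := fun x i => ∑ l, γ l i * x l with hφ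
  have hgm : ∀ x : Fin N → ℤ, gm M' (φ x) = D • gm M x := by
    intro x
    ext j k
    have e1 : gm M' (φ x) j k = ∑ i, (∑ l, γ l i * x l) * M (a i) j k := rfl
    have e2 : (D • gm M x) j k = D * ∑ l, x l * M l j k := rfl
    rw [e1, e2, Finset.mul_sum]
    have h1 : ∀ l, D * (x l * M l j k) = ∑ i, γ l i * x l * M (a i) j k := by
      intro l
      have := hrel l j k
      calc D * (x l * M l j k) = x l * (D * M l j k) := by ring
        _ = _ := by
            rw [this, Finset.mul_sum]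
            exact Finset.sum_congr rfl fun i _ => by ring
    simp only [h1]
    rw [Finset.sum_comm]
    refine Finset.sum_congr rfl fun i _ => ?_
    rw [Finset.sum_mul]
  have hwi : LinearIndependent ℤ (fun i : Fin n => fun l => γ l i) := by
    rw [Fintype.linearIndependent_iff]
    intro g hg i0
    have h1 := congrFun hg (a i0)
    rw [Finset.sum_apply] at h1
    simp only [Pi.smul_apply, smul_eq_mul, Pi.zero_apply, hδ, mul_ite, mul_zero,
      Finset.sum_ite_eq', Finset.mem_univ, if_true] at h1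
    exact (mul_eq_zero.1 h1).resolve_right hD
  have hnN : n ≤ N := by
    have h1 := hwi.fintype_card_le_finrank
    rw [Fintype.card_fin, Module.finrank_fintype_fun_eq_card, Fintype.card_fin] at h1
    exact h1
  set c : ℕ := 1 + ∑ l, ∑ i, (γ l i).natAbs with hc
  have hφht : ∀ x, ht (φ x) ≤ c * ht x := by
    intro x
    apply ht_le
    intro i
    rw [hφ]
    refine (Finset.abs_sum_le_sum_abs _ _).trans ?_
    have h1 : ∀ l, |γ l i * x l| ≤ ((∑ i, (γ l i).natAbs : ℕ) : ℤ) * ht x := by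
      intro l
      rw [abs_mul]
      have e1 := le_ht' x l
      have e2 : |γ l i| ≤ ((∑ i, (γ l i).natAbs : ℕ) : ℤ) := by
        rw [Int.abs_eq_natAbs]
        exact_mod_cast Finset.single_le_sum (f := fun i => (γ l i).natAbs)
          (fun _ _ => Nat.zero_le _) (mem_univ i)
      exact mul_le_mul e2 e1 (abs_nonneg _) (by positivity)
    calc ∑ l, |γ l i * x l| ≤ ∑ l, ((∑ i, (γ l i).natAbs : ℕ) : ℤ) * ht x :=
          Finset.sum_le_sum fun l _ => h1 l
      _ = ((∑ l, ∑ i, (γ l i).natAbs : ℕ) : ℤ) * ht x := by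
          rw [← Finset.sum_mul]
          push_cast
          rfl
      _ ≤ _ := by
          have : (0 : ℤ) ≤ ht x := by positivity
          rw [hc]
          push_cast
          nlinarith
  have hc1 : 1 ≤ c := by omega
  refine ⟨3 ^ N * 6 ^ (N - n) * (C * ((c : ℝ) ^ (n - 1) * (c : ℝ) ^ ε)), by positivity, ?_⟩
  intro A B hA hB
  have hA1 : (1 : ℝ) ≤ A := by exact_mod_cast hA
  have hA0 : (0 : ℝ) < A := by linarith
  have hB1 : (1 : ℝ) ≤ B := by exact_mod_cast hB
  have hB0 : (0 : ℝ) < B := by linarith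
  have hc1' : (1 : ℝ) ≤ c := by exact_mod_cast hc1
  have hcA : 1 ≤ c * A := Nat.mul_pos hc1 hA
  set X := (bx N A).filter (fun x => (gm M x).det ≠ 0) with hX
  set Y := (bx n (c * A)).filter (fun x => (gm M' x).det ≠ 0) with hY
  set g : (Fin n → ℤ) → ℝ := fun x' =>
    (((bx 3 B).filter fun y => Rep y ∧ qf (gm M' x') y = 0).card : ℝ) with hg
  have hqf : ∀ (x : Fin N → ℤ) (y : Fin 3 → ℤ), qf (gm M' (φ x)) y = D * qf (gm M x) y := by
    intro x y
    rw [hgm, qf_expand, qf_expand]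
    simp only [Matrix.smul_apply, smul_eq_mul]
    ring
  have h1 : nd M A B = ∑ x ∈ X, g (φ x) := by
    unfold nd
    refine Finset.sum_congr rfl fun x _ => ?_
    rw [hg]
    simp only
    congr 2
    ext y
    rw [mem_filter, mem_filter, hqf]
    constructor
    · rintro ⟨e1, e2, e3⟩
      exact ⟨e1, e2, by rw [e3, mul_zero]⟩
    · rintro ⟨e1, e2, e3⟩
      exact ⟨e1, e2, (mul_eq_zero.1 e3).resolve_left hD⟩
  have h2 : ∀ x ∈ X, φ x ∈ Y := by
    intro x hx
    rw [hX, mem_filter, mem_bx] at hx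
    rw [hY, mem_filter, mem_bx]
    refine ⟨(hφht x).trans (Nat.mul_le_mul_left _ hx.1), ?_⟩
    rw [hgm, Matrix.det_smul]
    exact mul_ne_zero (pow_ne_zero _ hD) hx.2
  have h3 : ∀ y ∈ Y, ((X.filter fun x => φ x = y).card : ℝ) ≤
      3 ^ N * (6 * (A : ℝ)) ^ (N - n) := by
    intro y _
    rcases (X.filter fun x => φ x = y).eq_empty_or_nonempty with h0 | ⟨x0, hx0⟩
    · rw [h0]
      simp only [card_empty, Nat.cast_zero]
      positivity
    rw [mem_filter, hX, mem_filter, mem_bx] at hx0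
    have e1 := lat_card hwi (2 * A) (by omega)
    rw [Fintype.card_fin] at e1
    have e2 : (X.filter fun x => φ x = y).card ≤
        ((bx N (2 * A)).filter (· ∈ lat (fun i : Fin n => fun l => γ l i))).card := by
      apply Finset.card_le_card_of_injOn (fun x => x - x0)
      · intro x hx
        simp only [coe_filter, Set.mem_ofPred_eq] at hx
        rw [mem_coe, mem_filter, mem_bx, mem_lat]
        obtain ⟨hx1, hx2⟩ := hx
        rw [hX, mem_filter, mem_bx] at hx1
        constructor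
        · apply ht_le
          intro i
          have f1 := le_ht' x i
          have f2 := le_ht' x0 i
          have f3 : (ht x : ℤ) ≤ A := by exact_mod_cast hx1.1
          have f4 : (ht x0 : ℤ) ≤ A := by exact_mod_cast hx0.1.1
          have f5 : |x i - x0 i| ≤ |x i| + |x0 i| := abs_sub _ _
          show |x i - x0 i| ≤ _
          push_cast
          linarith
        · intro i
          have f1 := congrFun hx2 i
          have f2 := congrFun hx0.2 i
          rw [hφ] at f1 f2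
          simp only at f1 f2
          rw [dotProduct_sub, dotProduct, dotProduct]
          rw [f1, f2, sub_self]
      · intro x _ x' _ h
        simpa using h
    calc ((X.filter fun x => φ x = y).card : ℝ)
        ≤ (((bx N (2 * A)).filter (· ∈ lat (fun i : Fin n => fun l => γ l i))).card : ℝ) := by
          exact_mod_cast e2
      _ ≤ _ := e1
      _ = _ := by
          push_cast
          ring
  have h4 := sum_comp_le X Y φ g _ (fun y => by rw [hg]; positivity) h2 h3
  have h5 : ∑ y ∈ Y, g y = nd M' (c * A) B := by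
    unfold nd
    rfl
  rw [h1]
  refine h4.trans ?_
  rw [h5]
  have h6 := hC (c * A) B hcA hB
  push_cast at h6
  have hAN : (A : ℝ) ^ (N - 1) = (A : ℝ) ^ (N - n) * (A : ℝ) ^ (n - 1) := by
    rw [← pow_add]
    congr 1
    omega
  calc 3 ^ N * (6 * (A : ℝ)) ^ (N - n) * nd M' (c * A) B
      ≤ 3 ^ N * (6 * (A : ℝ)) ^ (N - n) *
        (C * (((c : ℝ) * A) ^ (n - 1) * B * ((c : ℝ) * A * B) ^ ε)) := by gcongr
    _ = _ := by
        have e1 : ((c : ℝ) * A * B) ^ ε = (c : ℝ) ^ ε * ((A : ℝ) * B) ^ ε := by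
          rw [mul_assoc, Real.mul_rpow (by positivity) (by positivity)]
        rw [e1, mul_pow, mul_pow, hAN]
        ring

end Pool.Agent.K1H65.CB
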